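import Pool.Agent.H647R3.UG.Defs

namespace Pool.Agent.H647R3.UG

open Finset

namespace EA

theorem herm {V : Type} [Fintype V] [DecidableEq V] (w : V → V → ℝ) (C : Finset V)
    (hs : ∀ u v, w u v = w v u) : (partMat w C).IsHermitian := by
  ext u v
  simp only [Matrix.conjTranspose_apply, star_trivial, partMat]
  rw [hs v u, mul_comm (Real.sqrt (∑ x, w v x))]
  by_cases h : u = v
  · subst h; rfl
  · rw [if_neg h, if_neg (fun h' => h h'.symm)]

/-- Gram identity: double sum of squares of a kernel -/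
theorem gram {V J : Type} [Fintype J] (C : Finset V) (m : V → ℝ) (U : J → V → ℝ) :
    ∑ u ∈ C, ∑ v ∈ C, m u * m v * (∑ j, U j u * U j v) ^ 2
      = ∑ j, ∑ l, (∑ u ∈ C, m u * (U j u * U l u)) ^ 2 := by
  have h1 : ∀ u v, m u * m v * (∑ j, U j u * U j v) ^ 2
      = ∑ j, ∑ l, (m u * (U j u * U l u)) * (m v * (U j v * U l v)) := by
    intro u v
    rw [sq, Finset.sum_mul_sum, Finset.mul_sum]
    refine Finset.sum_congr rfl fun j _ => ?_
    rw [Finset.mul_sum]
    refine Finset.sum_congr rfl fun l _ => ?_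
    ring
  simp only [h1]
  have h2 : ∀ j l, (∑ u ∈ C, m u * (U j u * U l u)) ^ 2
      = ∑ u ∈ C, ∑ v ∈ C, (m u * (U j u * U l u)) * (m v * (U j v * U l v)) := by
    intro j l
    rw [sq, Finset.sum_mul_sum]
  simp only [h2]
  have h3 : ∀ u, ∑ v ∈ C, ∑ j, ∑ l, (m u * (U j u * U l u)) * (m v * (U j v * U l v))
      = ∑ j, ∑ l, ∑ v ∈ C, (m u * (U j u * U l u)) * (m v * (U j v * U l v)) := by
    intro u
    rw [Finset.sum_comm]
    refine Finset.sum_congr rfl fun j _ => ?_
    rw [Finset.sum_comm]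
  simp only [h3]
  rw [Finset.sum_comm]
  refine Finset.sum_congr rfl fun j _ => ?_
  rw [Finset.sum_comm]

end EA

theorem T_EA (hGCF : St_GCF) : St_EA := by
  intro V _ _ w C κ η hw hs hm hκ hη hη1 hgood
  have hN := EA.herm w C hs
  set m : V → ℝ := fun u => ∑ v, w u v with hmdef
  set N := partMat w C with hNdef
  have hroots : N.charpoly.roots = Multiset.map hN.eigenvalues (univ : Finset C).val := by
    have := hN.roots_charpoly_eq_eigenvalues
    rw [this]
    rfl
  set I : Finset C := univ.filter fun i => 1 - η ≤ hN.eigenvalues i with hI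
  have hcard : (N.charpoly.roots.filter fun x => 1 - η ≤ x).card = I.card := by
    rw [hroots, Multiset.filter_map, Multiset.card_map]
    rfl
  rw [hcard]
  -- eigenvectors
  let E : C → C → ℝ := fun j u => hN.eigenvectorBasis j u
  have hEorth : ∀ j l : C, ∑ u, E j u * E l u = if j = l then 1 else 0 := by
    intro j l
    have h1 := (orthonormal_iff_ite.1 hN.eigenvectorBasis.orthonormal) j l
    rw [← h1, PiLp.inner_apply]
    refine Finset.sum_congr rfl fun u _ => ?_
    simp [E, mul_comm]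
  have hEeig : ∀ j u, ∑ v, N u v * E j v = hN.eigenvalues j * E j u := by
    intro j u
    have h1 := congrFun (hN.mulVec_eigenvectorBasis j) u
    simpa [Matrix.mulVec, dotProduct, E] using h1
  let J : Type := {i : C // i ∈ I}
  let U : J → V → ℝ := fun j u => if h : u ∈ C then E j.1 ⟨u, h⟩ / Real.sqrt (m u) else 0
  have hU : ∀ (j : J) (u : C), U j u = E j.1 u / Real.sqrt (m u) := by
    intro j u
    simp only [U, dif_pos u.2]
  have hsq : ∀ u : C, 0 < Real.sqrt (m u) := fun u => Real.sqrt_pos.2 (hm u u.2)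
  have hss : ∀ u : C, Real.sqrt (m u) * Real.sqrt (m u) = m u := fun u =>
    Real.mul_self_sqrt (hm u u.2).le
  have hUorth : ∀ j l : J, ∑ u ∈ C, m u * (U j u * U l u) = if j = l then 1 else 0 := by
    intro j l
    rw [← Finset.sum_coe_sort C]
    have h1 : ∀ u : C, m u * (U j u * U l u) = E j.1 u * E l.1 u := by
      intro u
      rw [hU, hU]
      have := (hsq u).ne'
      field_simp
      rw [sq, hss u]
      ring
    simp only [h1]
    rw [hEorth]
    by_cases h : j = l
    · subst h; simp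
    · rw [if_neg h, if_neg (fun h' => h (Subtype.ext h'))]
  -- energies
  have hen : ∀ j : J, (1 / 2) * ∑ u ∈ C, ∑ v ∈ C, w u v * (U j u - U j v) ^ 2
      = 1 - hN.eigenvalues j.1 := by
    intro j
    have e1 : hN.eigenvalues j.1 = ∑ u : C, ∑ v : C, E j.1 u * (N u v * E j.1 v) := by
      have : ∀ u : C, ∑ v : C, E j.1 u * (N u v * E j.1 v)
          = hN.eigenvalues j.1 * (E j.1 u * E j.1 u) := by
        intro u
        rw [← Finset.mul_sum, hEeig]
        ring
      simp only [this]
      rw [← Finset.mul_sum, hEorth]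
      simp
    have e2 : ∀ u v : C, E j.1 u * (N u v * E j.1 v)
        = w u v * (U j u * U j v) + if u = v then
          (∑ x ∈ univ \ C, w u x) * (U j u * U j u) else 0 := by
      intro u v
      rw [hU, hU]
      simp only [hNdef, partMat]
      have h1 := (hsq u).ne'
      have h2 := (hsq v).ne'
      simp only [hmdef] at h1 h2 ⊢
      by_cases h : u = v
      · subst h
        simp only [if_true]
        field_simp
      · simp only [if_neg h]
        field_simp
        ring
    have e3 : hN.eigenvalues j.1 = ∑ u ∈ C, ∑ v ∈ C, w u v * (U j u * U j v)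
        + ∑ u ∈ C, (∑ x ∈ univ \ C, w u x) * (U j u * U j u) := by
      rw [e1]
      simp only [e2, Finset.sum_add_distrib, Finset.sum_ite_eq, Finset.mem_univ, if_true]
      rw [← Finset.sum_coe_sort C, ← Finset.sum_coe_sort C]
      congr 1
      refine Finset.sum_congr rfl fun u _ => ?_
      rw [← Finset.sum_coe_sort C]
    have e4 : (1 : ℝ) = ∑ u ∈ C, (∑ v ∈ C, w u v) * (U j u * U j u)
        + ∑ u ∈ C, (∑ x ∈ univ \ C, w u x) * (U j u * U j u) := by
      have := hUorth j j
      rw [if_pos rfl] at this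
      rw [← this, ← Finset.sum_add_distrib]
      refine Finset.sum_congr rfl fun u _ => ?_
      rw [← add_mul]
      congr 1
      simp only [hmdef]
      rw [add_comm, Finset.sum_sdiff (Finset.subset_univ C)]
    have e5 : (1 / 2) * ∑ u ∈ C, ∑ v ∈ C, w u v * (U j u - U j v) ^ 2
        = ∑ u ∈ C, (∑ v ∈ C, w u v) * (U j u * U j u)
          - ∑ u ∈ C, ∑ v ∈ C, w u v * (U j u * U j v) := by
      have a1 : ∀ u v, w u v * (U j u - U j v) ^ 2
          = w u v * (U j u * U j u) + w u v * (U j v * U j v) - 2 * (w u v * (U j u * U j v)) := by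
        intro u v; ring
      simp only [a1, Finset.sum_sub_distrib, Finset.sum_add_distrib, ← Finset.mul_sum]
      have a2 : ∑ u ∈ C, ∑ v ∈ C, w u v * (U j v * U j v)
          = ∑ u ∈ C, (∑ v ∈ C, w u v) * (U j u * U j u) := by
        rw [Finset.sum_comm]
        refine Finset.sum_congr rfl fun u _ => ?_
        rw [Finset.sum_mul]
        refine Finset.sum_congr rfl fun v _ => ?_
        rw [hs v u]
      have a3 : ∑ u ∈ C, ∑ v ∈ C, w u v * (U j u * U j u)
          = ∑ u ∈ C, (∑ v ∈ C, w u v) * (U j u * U j u) := by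
        refine Finset.sum_congr rfl fun u _ => ?_
        rw [Finset.sum_mul]
      rw [a2]
      simp only [← Finset.sum_mul]
      ring
    rw [e5]
    linarith
  rcases Nat.eq_zero_or_pos I.card with h0 | h0
  · rw [h0]
    simp only [Nat.cast_zero]
    positivity
  have hJcard : Fintype.card J = I.card := Fintype.card_coe I
  have hT : ∑ u ∈ C, m u * ∑ j, U j u ^ 2 = (I.card : ℝ) := by
    have h1 : ∀ u, m u * ∑ j, U j u ^ 2 = ∑ j, m u * (U j u * U j u) := by
      intro u
      rw [Finset.mul_sum]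
      refine Finset.sum_congr rfl fun j _ => ?_
      ring
    simp only [h1]
    rw [Finset.sum_comm]
    simp only [hUorth, if_true]
    rw [Finset.sum_const, Finset.card_univ, hJcard]
    simp
  have hkpos : (0 : ℝ) < (I.card : ℝ) := by exact_mod_cast h0
  have hE : (1 / 2) * ∑ u ∈ C, ∑ v ∈ C, w u v * ∑ j, (U j u - U j v) ^ 2
      ≤ η * ∑ u ∈ C, m u * ∑ j, U j u ^ 2 := by
    have h1 : (1 / 2) * ∑ u ∈ C, ∑ v ∈ C, w u v * ∑ j, (U j u - U j v) ^ 2
        = ∑ j : J, (1 / 2) * ∑ u ∈ C, ∑ v ∈ C, w u v * (U j u - U j v) ^ 2 := by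
      have a1 : ∀ u v, w u v * ∑ j, (U j u - U j v) ^ 2
          = ∑ j, w u v * (U j u - U j v) ^ 2 := fun u v => Finset.mul_sum _ _ _
      have a2 : ∀ u, ∑ v ∈ C, ∑ j, w u v * (U j u - U j v) ^ 2
          = ∑ j, ∑ v ∈ C, w u v * (U j u - U j v) ^ 2 := fun u => Finset.sum_comm
      simp only [a1, a2]
      rw [Finset.sum_comm, Finset.mul_sum]
    rw [h1, hT]
    have h2 : ∀ j ∈ (univ : Finset J), (1 / 2) * ∑ u ∈ C, ∑ v ∈ C, w u v * (U j u - U j v) ^ 2
        ≤ η := by
      intro j _
      rw [hen j]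
      have h3 : j.1 ∈ I := j.2
      have h4 := (Finset.mem_filter.1 h3).2
      linarith
    calc ∑ j : J, (1 / 2) * ∑ u ∈ C, ∑ v ∈ C, w u v * (U j u - U j v) ^ 2
        ≤ ∑ j : J, η := Finset.sum_le_sum h2
      _ = η * (I.card : ℝ) := by
        rw [Finset.sum_const, Finset.card_univ, hJcard, nsmul_eq_mul, mul_comm]
  have key := hGCF V J w m C U κ η hw hs hm (fun u _ => by
      simp only [hmdef]
      exact Finset.sum_le_univ_sum_of_nonneg (fun v => hw u v)) hκ hgood hη hη1
    (by rw [hT]; exact hkpos) hE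
  rw [hT, EA.gram] at key
  have hsum : ∑ j : J, ∑ l : J, (∑ u ∈ C, m u * (U j u * U l u)) ^ 2 = (I.card : ℝ) := by
    simp only [hUorth]
    have : ∀ j l : J, ((if j = l then (1 : ℝ) else 0)) ^ 2 = if j = l then 1 else 0 := by
      intro j l; split_ifs <;> simp
    simp only [this, Finset.sum_ite_eq, Finset.mem_univ, if_true]
    rw [Finset.sum_const, Finset.card_univ, hJcard]
    simp
  rw [hsum] at key
  set X := 8 * Real.sqrt η / κ with hX
  have hexp : Real.exp (-X) * Real.exp X = 1 := by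
    rw [← Real.exp_add]; simp
  have hXp := Real.exp_pos X
  have h5 : (I.card : ℝ) ^ 2 / 30 * Real.exp (-X) * Real.exp X ≤ (I.card : ℝ) * Real.exp X :=
    mul_le_mul_of_nonneg_right key hXp.le
  rw [mul_assoc, hexp, mul_one] at h5
  have h6 : (I.card : ℝ) * ((I.card : ℝ) / 30) ≤ (I.card : ℝ) * Real.exp X := by
    calc (I.card : ℝ) * ((I.card : ℝ) / 30) = (I.card : ℝ) ^ 2 / 30 := by ring
      _ ≤ _ := h5
  have h7 := le_of_mul_le_mul_left h6 hkpos
  linarith

end Pool.Agent.H647R3.UG
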