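import Pool.Agent.H647R3.UG.Defs

namespace Pool.Agent.H647R3.UG

open Finset

namespace GC

theorem lz_zero {W : Type} [Fintype W] (w : W → W → ℝ) (m : W → ℝ) :
    lz w m (fun _ => 0) = fun _ => 0 := by
  funext u
  simp [lz]

theorem lz_sum (hOP : St_OP) {W : Type} [Fintype W] [DecidableEq W] (w : W → W → ℝ) (m : W → ℝ)
    (hnet : IsNet w m) {ι : Type} [DecidableEq ι] (S : Finset ι) (c : ι → ℝ) (g : ι → W → ℝ) :
    lz w m (fun u => ∑ i ∈ S, c i * g i u) = fun u => ∑ i ∈ S, c i * lz w m (g i) u := by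
  obtain ⟨-, -, -, -, -, o6⟩ := hOP W w m hnet
  induction S using Finset.induction_on with
  | empty => simp only [sum_empty]; exact lz_zero w m
  | insert a S ha ih =>
    have e : (fun u => ∑ i ∈ insert a S, c i * g i u) =
        fun u => (fun u => ∑ i ∈ S, c i * g i u) u + c a * g a u := by
      funext u
      rw [sum_insert ha]
      ring
    rw [e, o6, ih]
    funext u
    rw [sum_insert ha]
    ring

theorem it_sum (hOP : St_OP) {W : Type} [Fintype W] [DecidableEq W] (w : W → W → ℝ) (m : W → ℝ)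
    (hnet : IsNet w m) {ι : Type} [DecidableEq ι] (S : Finset ι) (c : ι → ℝ) (g : ι → W → ℝ)
    (s : ℕ) : (lz w m)^[s] (fun u => ∑ i ∈ S, c i * g i u) =
      fun u => ∑ i ∈ S, c i * ((lz w m)^[s] (g i)) u := by
  induction s with
  | zero => rfl
  | succ s ih =>
    rw [Function.iterate_succ_apply', ih, lz_sum hOP w m hnet]
    funext u
    apply sum_congr rfl
    intro i _
    rw [Function.iterate_succ_apply']

theorem it_kernel (hOP : St_OP) {W : Type} [Fintype W] [DecidableEq W] (w : W → W → ℝ)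
    (m : W → ℝ) (hnet : IsNet w m) (f : W → ℝ) (s : ℕ) (u : W) :
    ((lz w m)^[s] f) u = ∑ v, m v * f v * ((lz w m)^[s] (dl m v)) u := by
  have e : f = fun u => ∑ v, (m v * f v) * dl m v u := by
    funext u
    rw [sum_eq_single u]
    · unfold dl
      rw [if_pos rfl]
      have := (hnet.pos u).ne'
      field_simp
    · intro v _ hv
      unfold dl
      rw [if_neg hv.symm, mul_zero]
    · intro h; exact absurd (mem_univ u) h
  conv_lhs => rw [e]
  rw [it_sum hOP w m hnet]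

theorem exp_le (τ : ℝ) (h0 : 0 ≤ τ) (h1 : τ ≤ 1) : Real.exp (-(τ * Real.log 2)) ≤ 1 - τ / 2 := by
  have h := convexOn_exp.2 (Set.mem_univ (0 : ℝ)) (Set.mem_univ (-Real.log 2))
    (by linarith : (0 : ℝ) ≤ 1 - τ) h0 (by ring)
  simp only [smul_eq_mul, mul_zero, zero_add, Real.exp_zero, mul_one] at h
  rw [Real.exp_neg (Real.log 2), Real.exp_log (by norm_num : (0 : ℝ) < 2)] at h
  calc Real.exp (-(τ * Real.log 2)) = Real.exp (τ * -Real.log 2) := by ring_nf
    _ ≤ 1 - τ + τ * 2⁻¹ := h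
    _ = _ := by ring

theorem numbers (κ τ : ℝ) (hκ : 0 < κ) (hτ : 0 < τ) (hτ1 : τ ≤ 1) (s : ℕ)
    (hs : s = ⌈2 / (κ * Real.sqrt τ)⌉₊) :
    1 ≤ s ∧ 8 / (κ ^ 2 * s) ≤ 4 * (Real.sqrt τ / κ) ∧
      2 / 15 * Real.exp (-(4 * (Real.sqrt τ / κ))) ≤ ((1 - τ / 2) ^ s) ^ 2 := by
  have hr : 0 < Real.sqrt τ := Real.sqrt_pos.2 hτ
  have hrr : Real.sqrt τ * Real.sqrt τ = τ := Real.mul_self_sqrt hτ.le
  set r := Real.sqrt τ with hrd
  have hA : 0 < 2 / (κ * r) := by positivity
  have h1 : 1 ≤ s := by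
    rw [hs]; exact Nat.one_le_iff_ne_zero.2 (Nat.ceil_pos.2 hA).ne'
  have hs0 : (0 : ℝ) < s := by exact_mod_cast h1
  have h2 : 2 / (κ * r) ≤ s := by rw [hs]; exact Nat.le_ceil _
  have h3 : (s : ℝ) < 2 / (κ * r) + 1 := by rw [hs]; exact Nat.ceil_lt_add_one hA.le
  refine ⟨h1, ?_, ?_⟩
  · rw [div_le_iff₀ (by positivity)] at h2 ⊢
    have e : 4 * (r / κ) * (κ ^ 2 * s) = 4 * (s * (κ * r)) := by field_simp
    rw [e]
    linarith
  · have h4 : τ * s ≤ 2 * (r / κ) + 1 := by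
      have e : τ * (2 / (κ * r) + 1) = 2 * (r / κ) + τ := by
        rw [← hrr]; field_simp
      calc τ * s ≤ τ * (2 / (κ * r) + 1) := mul_le_mul_of_nonneg_left h3.le hτ.le
        _ = 2 * (r / κ) + τ := e
        _ ≤ _ := by linarith
    have h5 := exp_le τ hτ.le hτ1
    have h6 : Real.exp (-(τ * Real.log 2)) ^ (s * 2) ≤ (1 - τ / 2) ^ (s * 2) :=
      pow_le_pow_left₀ (Real.exp_pos _).le h5 _
    rw [← pow_mul]
    refine le_trans ?_ h6
    rw [← Real.exp_nat_mul]
    have hl2 : Real.log 2 ≤ 1 := by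
      have := Real.log_two_lt_d9; linarith
    have hl0 : 0 ≤ Real.log 2 := Real.log_nonneg (by norm_num)
    have hq : Real.exp (-(2 * Real.log 2)) = 1 / 4 := by
      rw [Real.exp_neg, show 2 * Real.log 2 = Real.log 2 + Real.log 2 by ring, Real.exp_add,
        Real.exp_log (by norm_num : (0 : ℝ) < 2)]
      norm_num
    have hx0 : 0 ≤ r / κ := by positivity
    have h7 : -(2 * Real.log 2) + -(4 * (r / κ)) ≤ ((s * 2 : ℕ) : ℝ) * -(τ * Real.log 2) := by
      push_cast
      have a1 : (τ * s) * (2 * Real.log 2) ≤ (2 * (r / κ) + 1) * (2 * Real.log 2) :=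
        mul_le_mul_of_nonneg_right h4 (by positivity)
      have a2 : (r / κ) * Real.log 2 ≤ (r / κ) * 1 := mul_le_mul_of_nonneg_left hl2 hx0
      nlinarith
    calc 2 / 15 * Real.exp (-(4 * (r / κ))) ≤ 1 / 4 * Real.exp (-(4 * (r / κ))) :=
          mul_le_mul_of_nonneg_right (by norm_num) (Real.exp_pos _).le
      _ = Real.exp (-(2 * Real.log 2) + -(4 * (r / κ))) := by rw [Real.exp_add, hq]
      _ ≤ _ := Real.exp_le_exp.2 h7

end GC

theorem T_GC (hOP : St_OP) (hHD : St_HD) (hLC : St_LC) : St_GC := by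
  classical
  intro W J _ _ _ w m U κ τ hnet hκ hgood hτ hτ1 hT hen
  set T : ℝ := ∑ j, ip m (U j) (U j) with hTd
  obtain ⟨s, hs⟩ : ∃ s : ℕ, s = ⌈2 / (κ * Real.sqrt τ)⌉₊ := ⟨_, rfl⟩
  obtain ⟨hs1, hn1, hn2⟩ := GC.numbers κ τ hκ hτ hτ1 s hs
  set x : ℝ := Real.sqrt τ / κ with hx
  have hne : Nonempty W := by
    by_contra hcon
    rw [not_nonempty_iff] at hcon
    have : T = 0 := by
      rw [hTd]
      apply sum_eq_zero
      intro j _
      unfold ip
      exact Finset.sum_of_isEmpty _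
    rw [this] at hT
    exact lt_irrefl _ hT
  have hM : 0 < vol m univ := sum_pos (fun u _ => hnet.pos u) univ_nonempty
  set M := vol m univ with hMd
  set H : W → W → ℝ := fun u v => ((lz w m)^[s] (dl m v)) u with hH
  set Gm : W → W → ℝ := fun u v => ∑ j, U j u * U j v with hG
  -- LC
  have l1 : T * (1 - τ / 2) ^ s ≤ ∑ u, ∑ v, m u * m v * H u v * Gm u v := by
    refine (hLC W J w m U τ hnet hτ.le hτ1 hen s).trans (le_of_eq ?_)
    unfold ip
    simp only [GC.it_kernel hOP w m hnet (U _) s]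
    rw [sum_comm]
    apply sum_congr rfl
    intro u _
    simp only [mul_sum, hG]
    rw [sum_comm]
    apply sum_congr rfl
    intro v _
    apply sum_congr rfl
    intro j _
    simp only [hH]
    ring
  have hc0 : 0 ≤ T * (1 - τ / 2) ^ s := mul_nonneg hT.le (pow_nonneg (by linarith) _)
  -- Cauchy-Schwarz
  have l2 : (∑ u, ∑ v, m u * m v * H u v * Gm u v) ^ 2 ≤
      (∑ u, ∑ v, m u * m v * H u v ^ 2) * ∑ u, ∑ v, m u * m v * Gm u v ^ 2 := by
    have h := Finset.sum_sq_le_sum_mul_sum_of_sq_le_mul ((univ : Finset W) ×ˢ (univ : Finset W))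
      (r := fun p => m p.1 * m p.2 * H p.1 p.2 * Gm p.1 p.2)
      (f := fun p => m p.1 * m p.2 * H p.1 p.2 ^ 2) (g := fun p => m p.1 * m p.2 * Gm p.1 p.2 ^ 2)
      (fun p _ => mul_nonneg (mul_nonneg (hnet.pos _).le (hnet.pos _).le) (sq_nonneg _))
      (fun p _ => mul_nonneg (mul_nonneg (hnet.pos _).le (hnet.pos _).le) (sq_nonneg _))
      (fun p _ => le_of_eq (by ring))
    rwa [sum_product, sum_product, sum_product] at h
  have l3 : ∑ u, ∑ v, m u * m v * H u v ^ 2 ≤ 4 * Real.exp (4 * x) := by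
    rw [sum_comm]
    have h1 : ∀ v ∈ (univ : Finset W), ∑ u, m u * m v * H u v ^ 2 ≤
        m v * (4 / M * Real.exp (4 * x)) := by
      intro v _
      have e : ∑ u, m u * m v * H u v ^ 2 = m v * ip m ((lz w m)^[s] (dl m v))
          ((lz w m)^[s] (dl m v)) := by
        unfold ip
        rw [mul_sum]
        apply sum_congr rfl
        intro u _
        simp only [hH]
        ring
      rw [e]
      apply mul_le_mul_of_nonneg_left _ (hnet.pos v).le
      refine (hHD W w m κ hnet hκ hgood v s hs1).trans ?_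
      apply mul_le_mul_of_nonneg_left _ (by positivity)
      exact Real.exp_le_exp.2 hn1
    refine (sum_le_sum h1).trans (le_of_eq ?_)
    rw [← sum_mul]
    change M * (4 / M * Real.exp (4 * x)) = _
    field_simp
  set Q : ℝ := ∑ u, ∑ v, m u * m v * Gm u v ^ 2 with hQ
  have hQ0 : 0 ≤ Q := sum_nonneg fun u _ => sum_nonneg fun v _ =>
    mul_nonneg (mul_nonneg (hnet.pos _).le (hnet.pos _).le) (sq_nonneg _)
  have l4 : (T * (1 - τ / 2) ^ s) ^ 2 ≤ 4 * Real.exp (4 * x) * Q :=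
    (pow_le_pow_left₀ hc0 l1 2).trans (l2.trans (mul_le_mul_of_nonneg_right l3 hQ0))
  have l5 : T ^ 2 * (2 / 15 * Real.exp (-(4 * x))) ≤ 4 * Real.exp (4 * x) * Q := by
    refine le_trans ?_ l4
    rw [mul_pow]
    exact mul_le_mul_of_nonneg_left hn2 (sq_nonneg _)
  have e8 : 8 * Real.sqrt τ / κ = 8 * x := by rw [hx]; ring
  rw [e8]
  have hE : 0 < Real.exp (4 * x) := Real.exp_pos _
  have l6 : Real.exp (-(8 * x)) * Real.exp (4 * x) = Real.exp (-(4 * x)) := by
    rw [← Real.exp_add]; ring_nf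
  have l7 : T ^ 2 / 30 * Real.exp (-(8 * x)) * Real.exp (4 * x) ≤ Q * Real.exp (4 * x) := by
    calc T ^ 2 / 30 * Real.exp (-(8 * x)) * Real.exp (4 * x)
        = (T ^ 2 * (2 / 15 * Real.exp (-(4 * x)))) / 4 := by
          rw [mul_assoc, l6]; ring
      _ ≤ (4 * Real.exp (4 * x) * Q) / 4 := by linarith
      _ = _ := by ring
  exact le_of_mul_le_mul_right l7 hE

end Pool.Agent.H647R3.UG
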