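import Pool.Agent.H647R3.UG.Defs

namespace Pool.Agent.H647R3.UG

open Finset

namespace FB

variable {V A : Type} [Fintype V] [DecidableEq V] [Fintype A] [DecidableEq A]

theorem sum_ind (v : V) (x : V → A) : ∑ b, ind v b x = 1 := by
  simp [ind]

theorem left (L : ((V → A) → ℝ) →ₗ[ℝ] ℝ) (u v : V) (a : A) :
    ∑ b, pr2 L u v a b = pr L u a := by
  unfold pr2 pr
  rw [← map_sum]
  congr 1
  funext x
  rw [Finset.sum_apply, ← Finset.mul_sum, sum_ind, mul_one]

theorem symm (L : ((V → A) → ℝ) →ₗ[ℝ] ℝ) (u v : V) (a b : A) :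
    pr2 L u v a b = pr2 L v u b a := by
  unfold pr2
  congr 1
  funext x
  ring

theorem right (L : ((V → A) → ℝ) →ₗ[ℝ] ℝ) (u v : V) (b : A) :
    ∑ a, pr2 L u v a b = pr L v b := by
  rw [← left L v u b]
  exact Finset.sum_congr rfl fun a _ => symm L u v a b

theorem one (L : ((V → A) → ℝ) →ₗ[ℝ] ℝ) (h : L (fun _ => 1) = 1) (u : V) :
    ∑ a, pr L u a = 1 := by
  unfold pr
  rw [← map_sum, ← h]
  congr 1
  funext x
  rw [Finset.sum_apply, sum_ind]

end FB

open FB in
theorem T_FB (hFL : St_FL) : St_FB := by
  intro V A _ _ _ _ L D hD hPE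
  obtain ⟨h1, h2, -, hmono, -, -⟩ := hFL V A
  have hsq : ∀ (u : V) (a : A) (x : V → A), ind u a x * ind u a x = ind u a x := by
    intro u a x
    unfold ind
    split_ifs <;> simp
  have hnn1 : ∀ u a, 0 ≤ pr L u a := by
    intro u a
    have := hPE.sq (ind u a) (hmono 1 D (by omega) (h1 u a))
    simp only [hsq] at this
    exact this
  have hnn : ∀ u v a b, 0 ≤ pr2 L u v a b := by
    intro u v a b
    have := hPE.sq _ (hmono 2 D hD (h2 u v a b))
    have he : (fun x : V → A => ind u a x * ind v b x * (ind u a x * ind v b x))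
        = fun x => ind u a x * ind v b x := by
      funext x
      rw [mul_mul_mul_comm, hsq, hsq]
    rw [he] at this
    exact this
  have hsat : ∀ u v (π : Equiv.Perm A), L (sat u v π) = ∑ a, pr2 L u v a (π a) := by
    intro u v π
    unfold pr2
    rw [← map_sum]
    congr 1
    funext x
    rw [Finset.sum_apply]
    unfold sat ind
    rw [Finset.sum_eq_single (x u)]
    · by_cases h : π (x u) = x v
      · simp [h]
      · have h' : ¬ x v = π (x u) := fun e => h e.symm
        simp [h, h']
    · intro b _ hb
      have : ¬ x u = b := fun e => hb e.symm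
      simp [this]
    · simp
  refine ⟨?_, hnn1, symm L, ?_, hsat, ?_⟩
  · intro u v
    exact ⟨hnn u v, left L u v, right L u v, one L hPE.one u⟩
  · intro u
    funext a b
    unfold pr2 dg
    by_cases hab : a = b
    · subst hab
      simp only [hsq, if_true]
      rfl
    · have he : (fun x : V → A => ind u a x * ind u b x) = 0 := by
        funext x
        unfold ind
        by_cases h : x u = a
        · have : ¬ x u = b := fun e => hab (h.symm.trans e)
          simp [this]
        · simp [h]
      rw [he, map_zero, if_neg hab]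
  · intro u v π
    rw [hsat]
    calc ∑ a, pr2 L u v a (π a) ≤ ∑ a, ∑ b, pr2 L u v a b := by
          apply Finset.sum_le_sum
          intro a _
          exact Finset.single_le_sum (f := fun b => pr2 L u v a b)
            (fun b _ => hnn u v a b) (Finset.mem_univ (π a))
      _ = ∑ a, pr L u a := Finset.sum_congr rfl fun a _ => left L u v a
      _ = 1 := one L hPE.one u

end Pool.Agent.H647R3.UG
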