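import Pool.Agent.H647R3.UG.Defs

/-! Task FC: Cauchy-Schwarz, conditioning and total expectation. -/

namespace Pool.Agent.H647R3.UG

open Finset

namespace FC

variable {V A : Type} [Fintype V] [DecidableEq V] [Fintype A] [DecidableEq A]

theorem cs (L : ((V → A) → ℝ) →ₗ[ℝ] ℝ) (D : ℕ) (hL : IsPE D L) (f g : (V → A) → ℝ)
    (hf : f ∈ LowDeg V A D) (hg : g ∈ LowDeg V A D) :
    L (fun x => f x * g x) ^ 2 ≤ L (fun x => f x * f x) * L (fun x => g x * g x) := by
  have key : ∀ t : ℝ, 0 ≤ L (fun x => g x * g x) * (t * t) + (2 * L (fun x => f x * g x)) * t +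
      L (fun x => f x * f x) := by
    intro t
    have h1 : f + t • g ∈ LowDeg V A D :=
      Submodule.add_mem _ hf (Submodule.smul_mem _ t hg)
    have h2 := hL.sq _ h1
    have h3 : (fun x => (f + t • g) x * (f + t • g) x) =
        (t * t) • (fun x => g x * g x) + (2 * t) • (fun x => f x * g x) +
          (fun x => f x * f x) := by
      funext x
      simp only [Pi.add_apply, Pi.smul_apply, smul_eq_mul]
      ring
    rw [h3, map_add, map_add, map_smul, map_smul, smul_eq_mul, smul_eq_mul] at h2
    linarith
  have h := discrim_le_zero key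
  unfold discrim at h
  nlinarith

end FC

open FC in
theorem T_FC (hFL : St_FL) : St_FC := by
  intro V A _ _ _ _ L D hD hL
  obtain ⟨hind, -, -, hmono, hmul, -⟩ := hFL V A
  have hii : ∀ (u : V) (a : A), (fun x => ind u a x * ind u a x) = ind u a := by
    intro u a
    funext x
    unfold ind
    split_ifs <;> simp
  have hcs := cs L D hL
  refine ⟨fun f hf g hg => hcs f g hf hg, ?_, ?_, ?_⟩
  · intro u a hpr
    refine ⟨?_, ?_⟩
    · show L (fun x => ind u a x * 1) / pr L u a = 1
      simp only [mul_one]
      exact div_self hpr.ne'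
    · intro f hf
      show 0 ≤ L (fun x => ind u a x * (f x * f x)) / pr L u a
      refine div_nonneg ?_ hpr.le
      have h1 := hmul (D - 1) u a f hf
      rw [Nat.sub_add_cancel hD] at h1
      have h2 := hL.sq _ h1
      have h3 : (fun x => ind u a x * (f x * f x)) =
          (fun x => (ind u a x * f x) * (ind u a x * f x)) := by
        funext x
        have : ind u a x * ind u a x = ind u a x := congrFun (hii u a) x
        calc ind u a x * (f x * f x) = (ind u a x * ind u a x) * (f x * f x) := by rw [this]
          _ = _ := by ring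
      rw [h3]
      exact h2
  · intro u f hf
    have h1 : ∀ a, pr L u a * cnd L u a f = L (fun x => ind u a x * f x) := by
      intro a
      show pr L u a * (L (fun x => ind u a x * f x) / pr L u a) = L (fun x => ind u a x * f x)
      by_cases h0 : pr L u a = 0
      · have h2 := hcs (ind u a) f (hmono 1 D hD (hind u a)) hf
        rw [hii u a] at h2
        have h3 : L (ind u a) = 0 := h0
        rw [h3, zero_mul] at h2
        have h4 : L (fun x => ind u a x * f x) = 0 :=
          pow_eq_zero_iff (two_ne_zero) |>.1 (le_antisymm h2 (sq_nonneg _))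
        rw [h0, h4]
        simp
      · rw [mul_div_cancel₀ _ h0]
    rw [Finset.sum_congr rfl (fun a _ => h1 a), ← map_sum]
    congr 1
    funext x
    rw [Finset.sum_apply, ← Finset.sum_mul]
    have h2 : ∑ a, ind u a x = 1 := by
      unfold ind
      simp
    rw [h2, one_mul]
  · intro D' hD'
    exact ⟨hL.one, fun f hf => hL.sq f (hmono D' D hD' hf)⟩

end Pool.Agent.H647R3.UG
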