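import Pool.Agent.H647R3.UG.Defs

namespace Pool.Agent.H647R3.UG

open Finset

theorem T_FD (hFB : St_FB) : St_FD := by
  intro V A _ _ _ _ L D hD hL u v
  obtain ⟨hlaw, hpos, -⟩ := hFB V A L D hD hL
  have h := hlaw u v
  set p : A → ℝ := pr L u with hp
  set q : A → ℝ := pr L v with hq
  set r : A → A → ℝ := pr2 L u v with hr
  have hc : ∀ a b, pr (cnd L u a) v b = r a b / p a := fun a b => rfl
  have hr0 : ∀ a, p a = 0 → ∀ b, r a b = 0 := by
    intro a ha b
    have h1 : r a b ≤ ∑ b, r a b :=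
      single_le_sum (f := fun b => r a b) (fun b _ => h.nonneg a b) (mem_univ b)
    rw [h.left a, ha] at h1
    exact le_antisymm h1 (h.nonneg a b)
  have e1 : ∀ a b, (r a b - p a * q b) ^ 2 / p a = r a b ^ 2 / p a - 2 * (r a b * q b) +
      p a * q b ^ 2 := by
    intro a b
    by_cases ha : p a = 0
    · rw [hr0 a ha b, ha]; simp
    · field_simp
      ring
  have e2 : ∀ a, p a * vr (cnd L u a) v = p a - ∑ b, r a b ^ 2 / p a := by
    intro a
    unfold vr
    simp only [hc]
    rw [mul_sub, mul_one, mul_sum]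
    congr 1
    apply sum_congr rfl
    intro b _
    by_cases ha : p a = 0
    · rw [ha]; simp
    · field_simp
  have e3 : dec L u v = (∑ a, ∑ b, r a b ^ 2 / p a) - ∑ b, q b ^ 2 := by
    unfold dec
    change ∑ a, ∑ b, (r a b - p a * q b) ^ 2 / p a = _
    simp only [e1, sum_add_distrib, sum_sub_distrib]
    have f1 : ∑ a, ∑ b, 2 * (r a b * q b) = 2 * ∑ b, q b ^ 2 := by
      rw [sum_comm, mul_sum]
      apply sum_congr rfl
      intro b _
      rw [← mul_sum, ← sum_mul, h.right b]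
      ring
    have f2 : ∑ a, ∑ b, p a * q b ^ 2 = ∑ b, q b ^ 2 := by
      simp only [← mul_sum]
      rw [← sum_mul, h.one, one_mul]
    rw [f1, f2]
    ring
  have e4 : ∑ a, pr L u a * vr (cnd L u a) v = 1 - ∑ a, ∑ b, r a b ^ 2 / p a := by
    change ∑ a, p a * vr (cnd L u a) v = _
    simp only [e2, sum_sub_distrib]
    rw [h.one]
  rw [e3, e4]
  unfold vr
  change _ = 1 - ∑ b, q b ^ 2 - _
  ring

end Pool.Agent.H647R3.UG
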