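import Pool.Agent.H647R3.UG.Defs

/-!
The functions used have low degree.
-/

namespace Pool.Agent.H647R3.UG

open Finset

namespace FL

theorem mem {V A : Type} {D : ℕ} (S : Finset V) (hS : S.card ≤ D) (f : (V → A) → ℝ)
    (h : ∀ x y : V → A, (∀ v ∈ S, x v = y v) → f x = f y) : f ∈ LowDeg V A D :=
  Submodule.subset_span ⟨S, hS, h⟩

end FL

open FL in
theorem T_FL : St_FL := by
  classical
  intro V A _ _ _ _
  refine ⟨?_, ?_, ?_, ?_, ?_, ?_⟩
  · intro u a
    refine mem {u} (by simp) _ fun x y h => ?_
    simp only [ind]
    rw [h u (by simp)]
  · intro u v a b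
    refine mem {u, v} Finset.card_le_two _ fun x y h => ?_
    simp only [ind]
    rw [h u (by simp), h v (by simp)]
  · intro u v π
    refine mem {u, v} Finset.card_le_two _ fun x y h => ?_
    simp only [sat]
    rw [h u (by simp), h v (by simp)]
  · intro D D' hD
    refine Submodule.span_mono ?_
    rintro f ⟨S, hS, h⟩
    exact ⟨S, hS.trans hD, h⟩
  · intro D u a f hf
    unfold LowDeg at hf
    induction hf using Submodule.span_induction with
    | mem f hf =>
      obtain ⟨S, hS, h⟩ := hf
      refine mem (insert u S) ((Finset.card_insert_le _ _).trans (by omega)) _ fun x y hxy => ?_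
      have h1 : f x = f y := h x y fun v hv => hxy v (Finset.mem_insert_of_mem hv)
      have h2 : x u = y u := hxy u (Finset.mem_insert_self _ _)
      simp only [ind]
      rw [h1, h2]
    | zero =>
      have h0 : (fun x : V → A => ind u a x * (0 : (V → A) → ℝ) x) = 0 := by
        funext x; simp
      rw [h0]
      exact Submodule.zero_mem _
    | add f g _ _ hf hg =>
      have h0 : (fun x : V → A => ind u a x * (f + g) x) =
          (fun x => ind u a x * f x) + fun x => ind u a x * g x := by
        funext x; simp [mul_add]
      rw [h0]
      exact Submodule.add_mem _ hf hg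
    | smul c f _ hf =>
      have h0 : (fun x : V → A => ind u a x * (c • f) x) = c • fun x => ind u a x * f x := by
        funext x; simp [mul_left_comm]
      rw [h0]
      exact Submodule.smul_mem _ _ hf
  · intro f
    refine mem univ le_rfl _ fun x y h => ?_
    have : x = y := funext fun v => h v (Finset.mem_univ v)
    rw [this]

end Pool.Agent.H647R3.UG
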