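import Pool.Agent.H647R3.UG.Defs

namespace Pool.Agent.H647R3.UG
open Finset

theorem T_FT (hFL : St_FL) : St_FT := by
  intro V A E _ _ _ _ _ L D s t π c hD hL hc
  obtain ⟨-, -, -, hmono, -, hall⟩ := hFL V A
  set μ : (V → A) → ℝ := fun x => L (Pi.single x 1) with hμ
  have hμ0 : ∀ x, 0 ≤ μ x := by
    intro x
    have h := hL.sq (Pi.single x 1) (hmono _ _ hD (hall _))
    have h2 : (fun y => (Pi.single x 1 : (V → A) → ℝ) y * (Pi.single x 1 : (V → A) → ℝ) y)
        = Pi.single x 1 := by
      funext y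
      by_cases h : y = x
      · subst h; simp
      · simp [h]
    rw [h2] at h
    exact h
  have hexp : ∀ f : (V → A) → ℝ, L f = ∑ x, f x * μ x := by
    intro f
    have h1 : f = ∑ x, f x • (Pi.single x (1 : ℝ) : (V → A) → ℝ) := by
      funext y
      rw [Finset.sum_apply]
      simp [Pi.single_apply]
    conv_lhs => rw [h1]
    rw [map_sum]
    refine Finset.sum_congr rfl fun x _ => ?_
    rw [map_smul, smul_eq_mul]
  have hone : ∑ x, μ x = 1 := by
    have h := hL.one
    rw [hexp] at h
    simpa using h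
  by_contra hcon
  push Not at hcon
  have hcnt : ∀ x : V → A, ((univ.filter fun e => π e (x (s e)) = x (t e)).card : ℝ)
      = ∑ e, sat (s e) (t e) (π e) x := by
    intro x
    rw [Finset.card_filter, Nat.cast_sum]
    refine Finset.sum_congr rfl fun e _ => ?_
    unfold sat
    split_ifs <;> simp
  have h1 : ∑ e, L (sat (s e) (t e) (π e))
      = ∑ x, ((univ.filter fun e => π e (x (s e)) = x (t e)).card : ℝ) * μ x := by
    simp only [hcnt, Finset.sum_mul]
    rw [Finset.sum_comm]
    refine Finset.sum_congr rfl fun e _ => ?_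
    rw [hexp]
  have h2 : ∑ x, ((univ.filter fun e => π e (x (s e)) = x (t e)).card : ℝ) * μ x
      < ∑ x, c * μ x := by
    have hex : ∃ x, 0 < μ x := by
      by_contra hno
      push Not at hno
      have : ∑ x, μ x ≤ 0 := Finset.sum_nonpos fun x _ => hno x
      linarith
    obtain ⟨x0, hx0⟩ := hex
    refine Finset.sum_lt_sum (fun x _ => ?_) ⟨x0, Finset.mem_univ _, ?_⟩
    · exact mul_le_mul_of_nonneg_right (hcon x).le (hμ0 x)
    · exact mul_lt_mul_of_pos_right (hcon x0) hx0
  rw [← Finset.mul_sum, hone, mul_one] at h2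
  linarith

end Pool.Agent.H647R3.UG
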