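import Pool.Agent.H647R3.UG.Defs

namespace Pool.Agent.H647R3.UG

open Finset

namespace FV

theorem gram {I : Type} [Fintype I] [DecidableEq I] (c : I → I → ℝ)
    (hsymm : ∀ i j, c i j = c j i) (hpos : ∀ x : I → ℝ, 0 ≤ ∑ i, ∑ j, x i * x j * c i j) :
    ∃ B : I → I → ℝ, ∀ i j, c i j = ∑ k, B k i * B k j := by
  have hP : (Matrix.of c).PosSemidef := by
    refine Matrix.PosSemidef.of_dotProduct_mulVec_nonneg ?_ ?_
    · ext i j
      simp [Matrix.conjTranspose_apply, hsymm j i]
    · intro x
      have h := hpos x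
      have e : star x ⬝ᵥ ((Matrix.of c).mulVec x) = ∑ i, ∑ j, x i * x j * c i j := by
        simp only [dotProduct, Matrix.mulVec, Matrix.of_apply, Pi.star_apply, star_trivial,
          Finset.mul_sum]
        refine Finset.sum_congr rfl fun i _ => Finset.sum_congr rfl fun j _ => by ring
      rw [e]; exact h
  open scoped MatrixOrder in
  obtain ⟨X, hX, -, h⟩ := CFC.exists_sqrt_of_isSelfAdjoint_of_quasispectrumRestricts
    hP.isHermitian (QuasispectrumRestricts.nnreal_of_nonneg hP.nonneg)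
  refine ⟨X, fun i j => ?_⟩
  have h1 : (X * X) i j = c i j := congrFun (congrFun h i) j
  rw [Matrix.mul_apply] at h1
  rw [← h1]
  refine Finset.sum_congr rfl fun k _ => ?_
  have h2 := congrFun (congrFun hX.star_eq i) k
  rw [Matrix.star_apply, star_trivial] at h2
  rw [← h2]

end FV

theorem T_FV (hFL : St_FL) (hFB : St_FB) : St_FV := by
  intro V A _ _ _ _ L D hD hL
  obtain ⟨hlaw, hpr, hsy, hdg, hsat, hsat1⟩ := hFB V A L D hD hL
  obtain ⟨fl1, fl2, fl3, fl4, fl5, fl6⟩ := hFL V A
  have key : ∀ (u v : V) (a b : A), pr2 L u v a b - pr L u a * pr L v b =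
      L (fun x => (ind u a x - pr L u a) * (ind v b x - pr L v b)) := by
    intro u v a b
    have h1 : (fun x : V → A => (ind u a x - pr L u a) * (ind v b x - pr L v b)) =
        (fun x => ind u a x * ind v b x) - (pr L v b) • (ind u a) - (pr L u a) • (ind v b)
          + (pr L u a * pr L v b) • (fun _ => (1 : ℝ)) := by
      funext x
      simp only [Pi.add_apply, Pi.sub_apply, Pi.smul_apply, smul_eq_mul]
      ring
    rw [h1, map_add, map_sub, map_sub, map_smul, map_smul, map_smul, hL.one]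
    simp only [smul_eq_mul]
    change pr2 L u v a b - _ = pr2 L u v a b - pr L v b * pr L u a - pr L u a * pr L v b + _
    ring
  let c : (V × A) → (V × A) → ℝ := fun i j =>
    pr2 L i.1 j.1 i.2 j.2 - pr L i.1 i.2 * pr L j.1 j.2
  have hc : ∀ i j, c i j = L (fun x => (ind i.1 i.2 x - pr L i.1 i.2) *
      (ind j.1 j.2 x - pr L j.1 j.2)) := fun i j => key _ _ _ _
  obtain ⟨B, hB⟩ := FV.gram c (fun i j => by
    simp only [c, hsy i.1 j.1 i.2 j.2]; ring) (fun x => by
    have hmem : (fun y : V → A => ∑ i : V × A, x i * (ind i.1 i.2 y - pr L i.1 i.2)) ∈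
        LowDeg V A D := by
      have e : (fun y : V → A => ∑ i : V × A, x i * (ind i.1 i.2 y - pr L i.1 i.2)) =
          ∑ i : V × A, x i • (ind i.1 i.2 - fun _ => pr L i.1 i.2) := by
        funext y
        simp only [Finset.sum_apply, Pi.smul_apply, Pi.sub_apply, smul_eq_mul]
      rw [e]
      refine Submodule.sum_mem _ fun i _ => Submodule.smul_mem _ _ (Submodule.sub_mem _ ?_ ?_)
      · exact fl4 1 D (by omega) (fl1 _ _)
      · refine Submodule.subset_span ⟨∅, by simp, fun _ _ _ => rfl⟩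
    have h2 := hL.sq _ hmem
    have e2 : (fun y : V → A => (∑ i : V × A, x i * (ind i.1 i.2 y - pr L i.1 i.2)) *
        (∑ i : V × A, x i * (ind i.1 i.2 y - pr L i.1 i.2))) =
        ∑ i : V × A, ∑ j : V × A, (x i * x j) • (fun y : V → A =>
          (ind i.1 i.2 y - pr L i.1 i.2) * (ind j.1 j.2 y - pr L j.1 j.2)) := by
      funext y
      simp only [Finset.sum_apply, Pi.smul_apply, smul_eq_mul]
      rw [Finset.sum_mul_sum]
      refine Finset.sum_congr rfl fun i _ => Finset.sum_congr rfl fun j _ => by ring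
    rw [e2] at h2
    simp only [map_sum, map_smul, smul_eq_mul] at h2
    simpa only [hc] using h2)
  refine ⟨(V × A) × (V × A), inferInstance,
    fun kl u => ∑ a, B kl.1 (u, a) * B kl.2 (u, a) / Real.sqrt (pr L u a), fun u v => ?_⟩
  unfold kr ker
  have hsq : ∀ a b, (pr2 L u v a b - pr L u a * pr L v b) ^ 2 =
      ∑ kl : (V × A) × (V × A), (B kl.1 (u, a) * B kl.2 (u, a)) *
        (B kl.1 (v, b) * B kl.2 (v, b)) := by
    intro a b
    have h := hB (u, a) (v, b)
    simp only [c] at h
    rw [h, sq, Finset.sum_mul_sum]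
    conv_rhs => rw [Fintype.sum_prod_type]
    refine Finset.sum_congr rfl fun i _ => Finset.sum_congr rfl fun j _ => ?_
    simp only []
    ring
  have hs : ∀ a b, Real.sqrt (pr L u a * pr L v b) =
      Real.sqrt (pr L u a) * Real.sqrt (pr L v b) := fun a b => Real.sqrt_mul (hpr u a) _
  simp only [hsq, hs, Finset.sum_div]
  have e3 : ∀ kl : (V × A) × (V × A),
      (∑ a, B kl.1 (u, a) * B kl.2 (u, a) / Real.sqrt (pr L u a)) *
        (∑ a, B kl.1 (v, a) * B kl.2 (v, a) / Real.sqrt (pr L v a)) =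
      ∑ a, ∑ b, (B kl.1 (u, a) * B kl.2 (u, a)) *
        (B kl.1 (v, b) * B kl.2 (v, b)) / (Real.sqrt (pr L u a) * Real.sqrt (pr L v b)) := by
    intro kl
    rw [Finset.sum_mul_sum]
    refine Finset.sum_congr rfl fun a _ => Finset.sum_congr rfl fun b _ => ?_
    rw [div_mul_div_comm]
  simp only [e3]
  rw [Finset.sum_comm]
  rw [Finset.sum_comm]
  conv_rhs => rw [Finset.sum_comm]
  refine Finset.sum_congr rfl fun a _ => ?_
  rw [Finset.sum_comm]

end Pool.Agent.H647R3.UG
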