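import Pool.Agent.H647R3.UG.Defs

namespace Pool.Agent.H647R3.UG

open Finset

namespace LCX

variable {W : Type} [Fintype W]

lemma iter_lin {w : W → W → ℝ} {m : W → ℝ}
    (hlin : ∀ (f g : W → ℝ) (c : ℝ), lz w m (fun u => f u + c * g u)
      = fun u => lz w m f u + c * lz w m g u) (f g : W → ℝ) (c : ℝ) (s : ℕ) :
    (lz w m)^[s] (fun u => f u + c * g u)
      = fun u => (lz w m)^[s] f u + c * (lz w m)^[s] g u := by
  induction s generalizing f g with
  | zero => rfl
  | succ s ih =>
    rw [Function.iterate_succ_apply, hlin, ih]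
    rfl

lemma move {w : W → W → ℝ} {m : W → ℝ}
    (hsym : ∀ f g : W → ℝ, ip m (lz w m f) g = ip m f (lz w m g)) (f g : W → ℝ) (s : ℕ) :
    ip m ((lz w m)^[s] f) g = ip m f ((lz w m)^[s] g) := by
  induction s generalizing f g with
  | zero => rfl
  | succ s ih =>
    rw [Function.iterate_succ_apply, ih, hsym, Function.iterate_succ_apply']

lemma ip_self_nonneg {m : W → ℝ} (hm : ∀ u, 0 < m u) (f : W → ℝ) : 0 ≤ ip m f f := by
  unfold ip
  refine Finset.sum_nonneg fun u _ => ?_
  rw [mul_assoc]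
  exact mul_nonneg (hm u).le (mul_self_nonneg _)

lemma nonneg {w : W → W → ℝ} {m : W → ℝ} (hm : ∀ u, 0 < m u)
    (hsym : ∀ f g : W → ℝ, ip m (lz w m f) g = ip m f (lz w m g))
    (hsq : ∀ f : W → ℝ, ip m (lz w m f) (lz w m f) ≤ ip m f (lz w m f))
    (f : W → ℝ) (s : ℕ) : 0 ≤ ip m f ((lz w m)^[s] f) := by
  obtain ⟨k, hk⟩ := Nat.even_or_odd' s
  rcases hk with hk | hk
  · rw [hk, two_mul, Function.iterate_add_apply, ← move hsym]
    exact ip_self_nonneg hm _
  · have h1 : s = k + (k + 1) := by omega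
    rw [h1, Function.iterate_add_apply, ← move hsym, Function.iterate_succ_apply']
    exact (ip_self_nonneg hm _).trans (hsq _)

lemma ip_lin_left (m f g h : W → ℝ) (c : ℝ) :
    ip m (fun u => f u + c * g u) h = ip m f h + c * ip m g h := by
  unfold ip
  rw [Finset.mul_sum, ← Finset.sum_add_distrib]
  exact Finset.sum_congr rfl fun u _ => by ring

lemma ip_lin_right (m f g h : W → ℝ) (c : ℝ) :
    ip m h (fun u => f u + c * g u) = ip m h f + c * ip m h g := by
  unfold ip
  rw [Finset.mul_sum, ← Finset.sum_add_distrib]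
  exact Finset.sum_congr rfl fun u _ => by ring

lemma quad {w : W → W → ℝ} {m : W → ℝ}
    (hsym : ∀ f g : W → ℝ, ip m (lz w m f) g = ip m f (lz w m g))
    (hlin : ∀ (f g : W → ℝ) (c : ℝ), lz w m (fun u => f u + c * g u)
      = fun u => lz w m f u + c * lz w m g u) (f : W → ℝ) (s : ℕ) (t : ℝ) :
    ip m (fun u => f u + t * lz w m f u)
        ((lz w m)^[s] (fun u => f u + t * lz w m f u))
      = ip m f ((lz w m)^[s + 2] f) * (t * t) + 2 * ip m f ((lz w m)^[s + 1] f) * t
        + ip m f ((lz w m)^[s] f) := by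
  rw [iter_lin hlin, ip_lin_left, ip_lin_right, ip_lin_right, hsym, hsym,
    ← Function.iterate_succ_apply, ← Function.iterate_succ_apply' (lz w m) s f,
    ← Function.iterate_succ_apply' (lz w m) (s + 1) f]
  ring

end LCX

theorem T_LC (hOP : St_OP) : St_LC := by
  intro W J _ _ _ w m U τ hN hτ0 hτ1 hen
  obtain ⟨hsym, -, -, hipen, hsq, hlin⟩ := hOP W w m hN
  set a : ℕ → ℝ := fun s => ∑ j, ip m (U j) ((lz w m)^[s] (U j)) with ha
  have ha0 : ∀ s, 0 ≤ a s := fun s =>
    Finset.sum_nonneg fun j _ => LCX.nonneg hN.pos hsym hsq (U j) s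
  have hq : ∀ s (t : ℝ), 0 ≤ a (s + 2) * (t * t) + (2 * a (s + 1)) * t + a s := by
    intro s t
    have h1 : a (s + 2) * (t * t) + (2 * a (s + 1)) * t + a s
        = ∑ j, ip m (fun u => U j u + t * lz w m (U j) u)
            ((lz w m)^[s] (fun u => U j u + t * lz w m (U j) u)) := by
      simp only [ha]
      rw [Finset.sum_mul, Finset.mul_sum, Finset.sum_mul, ← Finset.sum_add_distrib,
        ← Finset.sum_add_distrib]
      exact Finset.sum_congr rfl fun j _ => (LCX.quad hsym hlin (U j) s t).symm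
    rw [h1]
    exact Finset.sum_nonneg fun j _ => LCX.nonneg hN.pos hsym hsq _ s
  have hcs : ∀ s, a (s + 1) ^ 2 ≤ a s * a (s + 2) := by
    intro s
    have := discrim_le_zero (hq s)
    unfold discrim at this
    nlinarith
  have hen0 : ∑ j, ip m (U j) (U j) = a 0 := rfl
  have ha1 : a 1 = a 0 - (∑ j, en w (U j)) / 2 := by
    simp only [ha]
    rw [Finset.sum_div, ← Finset.sum_sub_distrib]
    exact Finset.sum_congr rfl fun j _ => hipen (U j)
  have hstep : ∀ s, (1 - τ / 2) * a s ≤ a (s + 1) := by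
    intro s
    induction s with
    | zero =>
      rw [zero_add, ha1]
      rw [hen0] at hen
      linarith
    | succ s ih =>
      rcases (ha0 s).eq_or_lt with h0 | h0
      · have h1 := hcs s
        rw [← h0, zero_mul] at h1
        have h2 : a (s + 1) = 0 := by nlinarith
        rw [h2, mul_zero]
        exact ha0 _
      · have h1 := hcs s
        have h2 : a (s + 1) * ((1 - τ / 2) * a s) ≤ a (s + 1) * a (s + 1) :=
          mul_le_mul_of_nonneg_left ih (ha0 _)
        have h3 : a s * ((1 - τ / 2) * a (s + 1)) ≤ a s * a (s + 1 + 1) := by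
          nlinarith
        exact le_of_mul_le_mul_left h3 h0
  intro s
  rw [hen0]
  induction s with
  | zero => simp [ha]
  | succ s ih =>
    have hq0 : 0 ≤ 1 - τ / 2 := by linarith
    calc a 0 * (1 - τ / 2) ^ (s + 1) = (1 - τ / 2) * (a 0 * (1 - τ / 2) ^ s) := by ring
      _ ≤ (1 - τ / 2) * a s := mul_le_mul_of_nonneg_left ih hq0
      _ ≤ a (s + 1) := hstep s

end Pool.Agent.H647R3.UG
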