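import Pool.Agent.H647R3.UG.Defs

namespace Pool.Agent.H647R3.UG

open Finset

namespace OPX

variable {W : Type} [Fintype W]

lemma m_lz {w : W → W → ℝ} {m : W → ℝ} (hN : IsNet w m) (f : W → ℝ) (u : W) :
    m u * lz w m f u = m u * f u - (1 / 2) * ∑ v, w u v * (f u - f v) := by
  have h := (hN.pos u).ne'
  unfold lz
  field_simp

lemma sw {w : W → W → ℝ} (hs : ∀ u v, w u v = w v u) (f g : W → ℝ) :
    ∑ u, ∑ v, w u v * (f u - f v) * g u
      = (1 / 2) * ∑ u, ∑ v, w u v * (f u - f v) * (g u - g v) := by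
  have h1 : ∑ u, ∑ v, w u v * (f u - f v) * g u = ∑ u, ∑ v, w u v * (f v - f u) * g v := by
    rw [Finset.sum_comm]
    refine Finset.sum_congr rfl fun u _ => Finset.sum_congr rfl fun v _ => ?_
    rw [hs v u]
  have h2 : ∑ u, ∑ v, w u v * (f u - f v) * (g u - g v)
      = ∑ u, ∑ v, w u v * (f u - f v) * g u + ∑ u, ∑ v, w u v * (f v - f u) * g v := by
    rw [← Finset.sum_add_distrib]
    refine Finset.sum_congr rfl fun u _ => ?_
    rw [← Finset.sum_add_distrib]
    refine Finset.sum_congr rfl fun v _ => ?_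
    ring
  rw [h2, ← h1]
  ring

lemma ip_lz {w : W → W → ℝ} {m : W → ℝ} (hN : IsNet w m) (f g : W → ℝ) :
    ip m (lz w m f) g = ip m f g
      - (1 / 4) * ∑ u, ∑ v, w u v * (f u - f v) * (g u - g v) := by
  have h0 : ip m (lz w m f) g
      = ∑ u, m u * f u * g u - (1 / 2) * ∑ u, ∑ v, w u v * (f u - f v) * g u := by
    unfold ip
    rw [Finset.mul_sum, ← Finset.sum_sub_distrib]
    refine Finset.sum_congr rfl fun u _ => ?_
    rw [m_lz hN, sub_mul, mul_assoc (1 / 2 : ℝ), Finset.sum_mul]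
  rw [h0, sw hN.symm]
  unfold ip
  ring

lemma ip_comm (m f g : W → ℝ) : ip m f g = ip m g f := by
  unfold ip
  exact Finset.sum_congr rfl fun u _ => by ring

lemma sym {w : W → W → ℝ} {m : W → ℝ} (hN : IsNet w m) (f g : W → ℝ) :
    ip m (lz w m f) g = ip m f (lz w m g) := by
  rw [ip_comm m f (lz w m g), ip_lz hN, ip_lz hN, ip_comm m g f]
  congr 2
  refine Finset.sum_congr rfl fun u _ => Finset.sum_congr rfl fun v _ => ?_
  ring

lemma ip_en {w : W → W → ℝ} {m : W → ℝ} (hN : IsNet w m) (f : W → ℝ) :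
    ip m f (lz w m f) = ip m f f - en w f / 2 := by
  rw [← sym hN, ip_lz hN]
  unfold en
  have : ∑ u, ∑ v, w u v * (f u - f v) * (f u - f v) = ∑ u, ∑ v, w u v * (f u - f v) ^ 2 := by
    refine Finset.sum_congr rfl fun u _ => Finset.sum_congr rfl fun v _ => ?_
    ring
  rw [this]
  ring

lemma cs {w : W → W → ℝ} {m : W → ℝ} (hN : IsNet w m) (f : W → ℝ) (u : W) :
    (∑ v, w u v * (f u - f v)) ^ 2 ≤ m u * ∑ v, w u v * (f u - f v) ^ 2 := by
  have h1 : (∑ v, w u v * (f u - f v)) ^ 2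
      ≤ (∑ v, w u v) * ∑ v, w u v * (f u - f v) ^ 2 := by
    apply Finset.sum_sq_le_sum_mul_sum_of_sq_eq_mul
    · intro v _; exact hN.nonneg u v
    · intro v _; exact mul_nonneg (hN.nonneg u v) (sq_nonneg _)
    · intro v _; ring
  refine h1.trans (mul_le_mul_of_nonneg_right (hN.deg u) ?_)
  exact Finset.sum_nonneg fun v _ => mul_nonneg (hN.nonneg u v) (sq_nonneg _)

lemma lz_sq {w : W → W → ℝ} {m : W → ℝ} (hN : IsNet w m) (f : W → ℝ) :
    ip m (lz w m f) (lz w m f) ≤ ip m f (lz w m f) := by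
  have h1 : ip m (lz w m f) (lz w m f) - ip m f (lz w m f)
      = - ((1 / 2) * ∑ u, (∑ v, w u v * (f u - f v)) * f u)
        + (1 / 4) * ∑ u, (∑ v, w u v * (f u - f v)) ^ 2 / m u := by
    unfold ip
    rw [← Finset.sum_sub_distrib, Finset.mul_sum, Finset.mul_sum, ← Finset.sum_neg_distrib,
      ← Finset.sum_add_distrib]
    refine Finset.sum_congr rfl fun u _ => ?_
    have hm := (hN.pos u).ne'
    unfold lz
    field_simp
    ring
  have h2 : ∑ u, (∑ v, w u v * (f u - f v)) * f u = en w f := by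
    have : ∑ u, (∑ v, w u v * (f u - f v)) * f u = ∑ u, ∑ v, w u v * (f u - f v) * f u :=
      Finset.sum_congr rfl fun u _ => by rw [Finset.sum_mul]
    rw [this, sw hN.symm]
    unfold en
    congr 1
    refine Finset.sum_congr rfl fun u _ => Finset.sum_congr rfl fun v _ => ?_
    ring
  have h3 : ∑ u, (∑ v, w u v * (f u - f v)) ^ 2 / m u ≤ 2 * en w f := by
    unfold en
    rw [← mul_assoc]
    norm_num
    refine Finset.sum_le_sum fun u _ => ?_
    rw [div_le_iff₀ (hN.pos u), mul_comm]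
    exact cs hN f u
  linarith [h1, h2, h3]

end OPX

theorem T_OP : St_OP := by
  intro W _ _ w m hN
  refine ⟨OPX.sym hN, ?_, ?_, OPX.ip_en hN, OPX.lz_sq hN, ?_⟩
  · intro f
    have h1 : ∑ u, m u * lz w m f u = ip m (lz w m f) (fun _ => 1) := by
      unfold ip
      exact Finset.sum_congr rfl fun u _ => by ring
    rw [h1, OPX.ip_lz hN]
    unfold ip
    simp
  · intro f hf u
    have h := hN.pos u
    have h1 : m u * lz w m f u = f u * (m u - (1 / 2) * ∑ v, w u v) + (1 / 2) * ∑ v, w u v * f v := by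
      rw [OPX.m_lz hN]
      have : ∑ v, w u v * (f u - f v) = f u * ∑ v, w u v - ∑ v, w u v * f v := by
        rw [Finset.mul_sum, ← Finset.sum_sub_distrib]
        exact Finset.sum_congr rfl fun v _ => by ring
      rw [this]
      ring
    have h2 : 0 ≤ m u * lz w m f u := by
      rw [h1]
      have h3 : 0 ≤ ∑ v, w u v * f v :=
        Finset.sum_nonneg fun v _ => mul_nonneg (hN.nonneg u v) (hf v)
      have h4 := hN.deg u
      have h5 : 0 ≤ f u * (m u - (1 / 2) * ∑ v, w u v) := mul_nonneg (hf u) (by linarith)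
      linarith
    exact nonneg_of_mul_nonneg_right h2 h
  · intro f g c
    funext u
    unfold lz
    have : ∑ v, w u v * (f u + c * g u - (f v + c * g v))
        = ∑ v, w u v * (f u - f v) + c * ∑ v, w u v * (g u - g v) := by
      rw [Finset.mul_sum, ← Finset.sum_add_distrib]
      exact Finset.sum_congr rfl fun v _ => by ring
    simp only [this]
    ring

end Pool.Agent.H647R3.UG
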