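import Pool.Agent.H647R3.UG.Defs

namespace Pool.Agent.H647R3.UG

open Finset

namespace RA

variable {A : Type} [Fintype A] [DecidableEq A]

theorem p_nonneg {r : A → A → ℝ} {p q : A → ℝ} (h : IsLaw r p q) (a : A) : 0 ≤ p a := by
  rw [← h.left a]
  exact sum_nonneg fun b _ => h.nonneg a b

theorem q_nonneg {r : A → A → ℝ} {p q : A → ℝ} (h : IsLaw r p q) (b : A) : 0 ≤ q b := by
  rw [← h.right b]
  exact sum_nonneg fun a _ => h.nonneg a b

theorem q_one {r : A → A → ℝ} {p q : A → ℝ} (h : IsLaw r p q) : ∑ b, q b = 1 := by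
  rw [← h.one]
  simp_rw [← h.right, ← h.left]
  exact sum_comm

theorem r_le_p {r : A → A → ℝ} {p q : A → ℝ} (h : IsLaw r p q) (a b : A) : r a b ≤ p a := by
  rw [← h.left a]
  exact single_le_sum (fun b _ => h.nonneg a b) (mem_univ b)

theorem r_le_q {r : A → A → ℝ} {p q : A → ℝ} (h : IsLaw r p q) (a b : A) : r a b ≤ q b := by
  rw [← h.right b]
  exact single_le_sum (fun a _ => h.nonneg a b) (mem_univ a)

theorem le_one {p : A → ℝ} (h0 : ∀ a, 0 ≤ p a) (h1 : ∑ a, p a = 1) (a : A) : p a ≤ 1 := by
  rw [← h1]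
  exact single_le_sum (fun a _ => h0 a) (mem_univ a)

theorem term {r p q : ℝ} (hp : 0 ≤ p) (hq : 0 ≤ q) (h0 : p * q = 0 → r = 0) :
    (r - p * q) ^ 2 / Real.sqrt (p * q) =
      r ^ 2 / Real.sqrt (p * q) - 2 * (r * Real.sqrt (p * q)) +
        (p * Real.sqrt p) * (q * Real.sqrt q) := by
  rcases eq_or_ne (p * q) 0 with h | h
  · rw [h0 h, h]
    have : p * Real.sqrt p * (q * Real.sqrt q) = (p * q) * (Real.sqrt p * Real.sqrt q) := by ring
    rw [this, h]
    simp
  · have hpq : 0 < p * q := lt_of_le_of_ne (mul_nonneg hp hq) (Ne.symm h)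
    have hg : 0 < Real.sqrt (p * q) := Real.sqrt_pos.2 hpq
    have hgg : Real.sqrt (p * q) * Real.sqrt (p * q) = p * q := Real.mul_self_sqrt hpq.le
    have hs : Real.sqrt p * Real.sqrt q = Real.sqrt (p * q) := (Real.sqrt_mul hp q).symm
    have e1 : p * Real.sqrt p * (q * Real.sqrt q) =
        Real.sqrt (p * q) * Real.sqrt (p * q) * Real.sqrt (p * q) := by
      rw [hgg, ← hs]; ring
    rw [e1]
    rw [← hgg]
    generalize Real.sqrt (p * q) = g at hg
    have hsq : Real.sqrt (g * g) = g := by rw [Real.sqrt_mul_self hg.le]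
    rw [hsq]
    field_simp
    ring

theorem ker_expand {r : A → A → ℝ} {p q : A → ℝ} (hp : ∀ a, 0 ≤ p a) (hq : ∀ a, 0 ≤ q a)
    (h0 : ∀ a b, p a * q b = 0 → r a b = 0) :
    ker r p q = ∑ a, ∑ b, r a b ^ 2 / Real.sqrt (p a * q b) -
      2 * ∑ a, ∑ b, r a b * Real.sqrt (p a * q b) +
      (∑ a, p a * Real.sqrt (p a)) * ∑ b, q b * Real.sqrt (q b) := by
  unfold ker
  have : ∀ a b, (r a b - p a * q b) ^ 2 / Real.sqrt (p a * q b) =
      r a b ^ 2 / Real.sqrt (p a * q b) - 2 * (r a b * Real.sqrt (p a * q b)) +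
        (p a * Real.sqrt (p a)) * (q b * Real.sqrt (q b)) :=
    fun a b => term (hp a) (hq b) (h0 a b)
  simp_rw [this, sum_add_distrib, sum_sub_distrib, ← mul_sum]
  rw [← sum_mul]

theorem ker_dg {p : A → ℝ} (hp : ∀ a, 0 ≤ p a) (h1 : ∑ a, p a = 1) :
    ker (dg p) p p = 1 - 2 * ∑ a, p a ^ 2 + (∑ a, p a * Real.sqrt (p a)) ^ 2 := by
  rw [ker_expand hp hp]
  · have e1 : ∑ a, ∑ b, dg p a b ^ 2 / Real.sqrt (p a * p b) = 1 := by
      rw [← h1]
      refine sum_congr rfl fun a _ => ?_
      rw [sum_eq_single a]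
      · simp only [dg, if_true]
        rw [Real.sqrt_mul_self (hp a)]
        rcases eq_or_ne (p a) 0 with h | h
        · rw [h]; simp
        · field_simp
      · intro b _ hb
        simp [dg, Ne.symm hb]
      · simp
    have e2 : ∑ a, ∑ b, dg p a b * Real.sqrt (p a * p b) = ∑ a, p a ^ 2 := by
      refine sum_congr rfl fun a _ => ?_
      rw [sum_eq_single a]
      · simp only [dg, if_true]
        rw [Real.sqrt_mul_self (hp a)]
        ring
      · intro b _ hb
        simp [dg, Ne.symm hb]
      · simp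
    rw [e1, e2]
    ring
  · intro a b h
    unfold dg
    split_ifs with hab
    · subst hab
      exact mul_self_eq_zero.1 h
    · rfl

theorem cube {p q : ℝ} (hp : 0 ≤ p) (hq : 0 ≤ q) (hp1 : p ≤ 1) (hq1 : q ≤ 1) :
    |p * Real.sqrt p - q * Real.sqrt q| ≤ 2 * |p - q| := by
  wlog h : q ≤ p generalizing p q with H
  · have := H hq hp hq1 hp1 (le_of_lt (not_le.1 h))
    rwa [abs_sub_comm, abs_sub_comm p q]
  have hx0 := Real.sqrt_nonneg p
  have hy0 := Real.sqrt_nonneg q
  have hx1 : Real.sqrt p ≤ 1 := Real.sqrt_le_one.2 hp1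
  have hy1 : Real.sqrt q ≤ 1 := Real.sqrt_le_one.2 hq1
  have hxy : Real.sqrt q ≤ Real.sqrt p := Real.sqrt_le_sqrt h
  have hxx : Real.sqrt p * Real.sqrt p = p := Real.mul_self_sqrt hp
  have hyy : Real.sqrt q * Real.sqrt q = q := Real.mul_self_sqrt hq
  rw [abs_of_nonneg (by linarith : (0 : ℝ) ≤ p - q)]
  generalize Real.sqrt p = x at *
  generalize Real.sqrt q = y at *
  subst hxx hyy
  have h1 : 0 ≤ x * x * x - y * y * y := by
    have : x * x * x - y * y * y = (x - y) * (x * x + x * y + y * y) := by ring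
    rw [this]
    exact mul_nonneg (by linarith) (by positivity)
  rw [abs_of_nonneg h1]
  have h2 : x * x + x * y + y * y ≤ 2 * (x + y) := by nlinarith
  nlinarith [mul_le_mul_of_nonneg_left h2 (by linarith : (0 : ℝ) ≤ x - y)]

theorem main {r : A → A → ℝ} {p q : A → ℝ} (h : IsLaw r p q) :
    ker (dg p) p p + ker (dg q) q q - 2 * ker r p q ≤ 24 * (1 - ∑ a, r a a) := by
  have hp := p_nonneg h
  have hq := q_nonneg h
  have hp1 := le_one hp h.one
  have hq1 := le_one hq (q_one h)
  rw [ker_dg hp h.one, ker_dg hq (q_one h), ker_expand hp hq]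
  · set X := ∑ a, p a * Real.sqrt (p a) with hX
    set Y := ∑ a, q a * Real.sqrt (q a) with hY
    set R := ∑ a, r a a with hR
    have hsum : ∑ a, ∑ b, r a b = 1 := by
      simp_rw [h.left]; exact h.one
    have hR1 : R ≤ 1 := by
      rw [← hsum]
      exact sum_le_sum fun a _ => single_le_sum (fun b _ => h.nonneg a b) (mem_univ a)
    have hsq : ∀ a b, Real.sqrt (p a * q b) ≤ 1 := by
      intro a b
      rw [Real.sqrt_le_one]
      nlinarith [hp a, hq b, hp1 a, hq1 b]
    have hg0 : ∀ a, r a a ≤ Real.sqrt (p a * q a) := by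
      intro a
      apply Real.le_sqrt_of_sq_le
      have h1 := r_le_p h a a
      have h2 := r_le_q h a a
      have h3 := h.nonneg a a
      nlinarith [mul_le_mul h1 h2 h3 (hp a)]
    have hg1 : ∀ a, Real.sqrt (p a * q a) ≤ (p a + q a) / 2 := by
      intro a
      apply Real.sqrt_le_iff.2
      constructor
      · have := hp a; have := hq a; linarith
      · nlinarith [sq_nonneg (p a - q a)]
    have hg : ∑ a, Real.sqrt (p a * q a) ≤ 1 := by
      calc ∑ a, Real.sqrt (p a * q a) ≤ ∑ a, (p a + q a) / 2 := sum_le_sum fun a _ => hg1 a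
        _ = 1 := by
            rw [← sum_div, sum_add_distrib, h.one, q_one h]; norm_num
    -- (i)
    have h1 : 2 * R - 1 ≤ ∑ a, ∑ b, r a b ^ 2 / Real.sqrt (p a * q b) := by
      calc 2 * R - 1 ≤ ∑ a, (2 * r a a - Real.sqrt (p a * q a)) := by
            rw [sum_sub_distrib, ← mul_sum]; linarith
        _ ≤ ∑ a, r a a ^ 2 / Real.sqrt (p a * q a) := by
            refine sum_le_sum fun a _ => ?_
            rcases eq_or_ne (Real.sqrt (p a * q a)) 0 with h0 | h0
            · have := hg0 a
              rw [h0] at this ⊢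
              have h3 := h.nonneg a a
              have : r a a = 0 := le_antisymm this h3
              rw [this]; simp
            · have hpos : 0 < Real.sqrt (p a * q a) :=
                lt_of_le_of_ne (Real.sqrt_nonneg _) (Ne.symm h0)
              rw [le_div_iff₀ hpos]
              nlinarith [sq_nonneg (r a a - Real.sqrt (p a * q a))]
        _ ≤ _ := by
            refine sum_le_sum fun a _ => ?_
            exact single_le_sum (f := fun b => r a b ^ 2 / Real.sqrt (p a * q b))
              (fun b _ => by positivity) (mem_univ a)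
    -- (ii)
    have h2 : ∑ a, ∑ b, r a b * Real.sqrt (p a * q b) ≤
        (1 - R) + (∑ a, p a ^ 2 + ∑ a, q a ^ 2) / 2 := by
      have h3 : ∑ a, ∑ b, r a b * Real.sqrt (p a * q b) ≤
          ∑ a, (∑ b, r a b - r a a + r a a * Real.sqrt (p a * q a)) := by
        refine sum_le_sum fun a _ => ?_
        rw [← add_sum_erase _ _ (mem_univ a), ← add_sum_erase _ (fun b => r a b) (mem_univ a)]
        have : ∑ x ∈ univ.erase a, r a x * Real.sqrt (p a * q x) ≤ ∑ x ∈ univ.erase a, r a x := by
          refine sum_le_sum fun b _ => ?_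
          have := h.nonneg a b
          nlinarith [hsq a b]
        linarith
      refine h3.trans ?_
      rw [sum_add_distrib, sum_sub_distrib, hsum]
      have h4 : ∑ a, r a a * Real.sqrt (p a * q a) ≤ (∑ a, p a ^ 2 + ∑ a, q a ^ 2) / 2 := by
        rw [← sum_add_distrib, sum_div]
        refine sum_le_sum fun a _ => ?_
        have h5 := hg0 a
        have h6 : Real.sqrt (p a * q a) * Real.sqrt (p a * q a) = p a * q a :=
          Real.mul_self_sqrt (mul_nonneg (hp a) (hq a))
        have h7 := Real.sqrt_nonneg (p a * q a)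
        nlinarith [sq_nonneg (p a - q a), mul_le_mul_of_nonneg_right h5 h7]
      linarith
    -- (iii)
    have hX0 : 0 ≤ X := sum_nonneg fun a _ => mul_nonneg (hp a) (Real.sqrt_nonneg _)
    have hY0 : 0 ≤ Y := sum_nonneg fun a _ => mul_nonneg (hq a) (Real.sqrt_nonneg _)
    have hX1 : X ≤ 1 := by
      rw [← h.one]
      refine sum_le_sum fun a _ => ?_
      have : Real.sqrt (p a) ≤ 1 := Real.sqrt_le_one.2 (hp1 a)
      nlinarith [hp a]
    have hY1 : Y ≤ 1 := by
      rw [← q_one h]
      refine sum_le_sum fun a _ => ?_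
      have : Real.sqrt (q a) ≤ 1 := Real.sqrt_le_one.2 (hq1 a)
      nlinarith [hq a]
    have hXY : |X - Y| ≤ 4 * (1 - R) := by
      rw [hX, hY, ← sum_sub_distrib]
      calc |∑ a, (p a * Real.sqrt (p a) - q a * Real.sqrt (q a))| ≤
            ∑ a, |p a * Real.sqrt (p a) - q a * Real.sqrt (q a)| := abs_sum_le_sum_abs _ _
        _ ≤ ∑ a, 2 * ((p a - r a a) + (q a - r a a)) := by
            refine sum_le_sum fun a _ => (cube (hp a) (hq a) (hp1 a) (hq1 a)).trans ?_
            have h5 := r_le_p h a a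
            have h6 := r_le_q h a a
            have : |p a - q a| ≤ (p a - r a a) + (q a - r a a) := by
              rw [abs_le]; constructor <;> linarith
            linarith
        _ = 4 * (1 - R) := by
            rw [← mul_sum, sum_add_distrib, sum_sub_distrib, sum_sub_distrib, h.one, q_one h]
            ring
    have hXY1 : |X - Y| ≤ 1 := by rw [abs_le]; constructor <;> linarith
    have h3 : (X - Y) ^ 2 ≤ 4 * (1 - R) := by
      rw [← sq_abs]
      nlinarith [abs_nonneg (X - Y)]
    have h4 : 0 ≤ 1 - R := by linarith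
    nlinarith
  · intro a b h0
    rcases mul_eq_zero.1 h0 with h1 | h1
    · have := r_le_p h a b
      have h2 := h.nonneg a b
      linarith
    · have := r_le_q h a b
      have h2 := h.nonneg a b
      linarith

end RA

open RA in
theorem T_RA : St_RA := by
  intro A _ _ r p q π h
  have h' : IsLaw (fun a b => r a (π b)) p (fun b => q (π b)) := by
    refine ⟨fun a b => h.nonneg _ _, fun a => ?_, fun b => h.right _, h.one⟩
    rw [Equiv.sum_comp π (fun b => r a b)]
    exact h.left a
  have key := main h'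
  have e1 : ker (fun a b => r a (π b)) p (fun b => q (π b)) = ker r p q := by
    unfold ker
    refine sum_congr rfl fun a _ => ?_
    exact Equiv.sum_comp π (fun b => (r a b - p a * q b) ^ 2 / Real.sqrt (p a * q b))
  have e2 : ker (dg (fun b => q (π b))) (fun b => q (π b)) (fun b => q (π b)) =
      ker (dg q) q q := by
    unfold ker
    rw [← Equiv.sum_comp π (fun a => ∑ b, (dg q a b - q a * q b) ^ 2 / Real.sqrt (q a * q b))]
    refine sum_congr rfl fun a _ => ?_
    rw [← Equiv.sum_comp π (fun b => (dg q (π a) b - q (π a) * q b) ^ 2 /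
      Real.sqrt (q (π a) * q b))]
    refine sum_congr rfl fun b _ => ?_
    unfold dg
    simp
  rw [e1, e2] at key
  exact key

end Pool.Agent.H647R3.UG
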