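import Pool.Agent.H647R3.UG.Defs

/-!
The kernel on the diagonal dominates the variance.
-/

namespace Pool.Agent.H647R3.UG

open Finset

theorem T_RB : St_RB := by
  intro A _ _ p hp hs
  have hne : (univ : Finset A).Nonempty := by
    by_contra h
    rw [Finset.not_nonempty_iff_eq_empty] at h
    rw [h] at hs
    simp at hs
  obtain ⟨a1, _, ha1⟩ := Finset.exists_max_image univ p hne
  have hle1 : ∀ a, p a ≤ 1 := by
    intro a
    rw [← hs]
    exact Finset.single_le_sum (fun i _ => hp i) (Finset.mem_univ a)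
  have hker : ∑ a, p a * (1 - p a) ^ 2 ≤ ker (dg p) p p := by
    unfold ker
    refine Finset.sum_le_sum fun a _ => ?_
    have h1 : p a * (1 - p a) ^ 2 = (dg p a a - p a * p a) ^ 2 / Real.sqrt (p a * p a) := by
      rw [Real.sqrt_mul_self (hp a)]
      simp only [dg, if_true]
      rcases (hp a).eq_or_lt with h | h
      · rw [← h]; simp
      · field_simp
    rw [h1]
    exact Finset.single_le_sum (f := fun b => (dg p a b - p a * p b) ^ 2 / Real.sqrt (p a * p b))
      (fun b _ => div_nonneg (sq_nonneg _) (Real.sqrt_nonneg _)) (Finset.mem_univ a)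
  have hhalf : ∀ a ∈ univ.erase a1, p a ≤ 1 / 2 := by
    intro a ha
    have hne : a ≠ a1 := Finset.ne_of_mem_erase ha
    have h1 : p a + p a1 ≤ 1 := by
      rw [← hs, ← Finset.sum_pair hne]
      exact Finset.sum_le_univ_sum_of_nonneg hp
    have h2 := ha1 a (Finset.mem_univ a)
    linarith
  have e1 : p a1 + ∑ a ∈ univ.erase a1, p a = 1 := by
    rw [← hs]; exact Finset.add_sum_erase _ _ (Finset.mem_univ a1)
  have e2 : p a1 * (1 - p a1) ^ 2 + ∑ a ∈ univ.erase a1, p a * (1 - p a) ^ 2 =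
      ∑ a, p a * (1 - p a) ^ 2 :=
    Finset.add_sum_erase _ (fun a => p a * (1 - p a) ^ 2) (Finset.mem_univ a1)
  have e3 : p a1 * (1 - p a1) + ∑ a ∈ univ.erase a1, p a * (1 - p a) =
      ∑ a, p a * (1 - p a) :=
    Finset.add_sum_erase _ (fun a => p a * (1 - p a)) (Finset.mem_univ a1)
  have e4 : ∑ a, p a * (1 - p a) = 1 - ∑ a, p a ^ 2 := by
    have h0 : ∑ a, p a * (1 - p a) = ∑ a, p a - ∑ a, p a ^ 2 := by
      rw [← Finset.sum_sub_distrib]
      refine Finset.sum_congr rfl fun a _ => ?_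
      ring
    rw [h0, hs]
  have i1 : (1 / 2) * ∑ a ∈ univ.erase a1, p a * (1 - p a) ≤
      ∑ a ∈ univ.erase a1, p a * (1 - p a) ^ 2 := by
    rw [Finset.mul_sum]
    refine Finset.sum_le_sum fun a ha => ?_
    have h1 := hhalf a ha
    have h2 := hp a
    nlinarith [mul_nonneg (mul_nonneg h2 (by linarith : (0:ℝ) ≤ 1 - p a))
      (by linarith : (0:ℝ) ≤ 1 / 2 - p a)]
  have i2 : (1 / 2) * ∑ a ∈ univ.erase a1, p a ≤ ∑ a ∈ univ.erase a1, p a * (1 - p a) := by
    rw [Finset.mul_sum]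
    refine Finset.sum_le_sum fun a ha => ?_
    have h1 := hhalf a ha
    have h2 := hp a
    nlinarith
  have h3 := hp a1
  have h4 := hle1 a1
  have h5 : 0 ≤ p a1 * (1 - p a1) ^ 2 := mul_nonneg h3 (sq_nonneg _)
  have h6 : p a1 * (1 - p a1) ≤ 1 - p a1 := by nlinarith
  linarith

end Pool.Agent.H647R3.UG
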