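import Pool.Agent.H647R3.UG.Defs

/-!
Bounds of the kernel.
-/

namespace Pool.Agent.H647R3.UG

open Finset

namespace RD

theorem term {p q x : ℝ} (hp : 0 ≤ p) (hq : 0 ≤ q) :
    x ^ 2 / Real.sqrt (p * q) ≤ (x ^ 2 / p + x ^ 2 / q) / 2 := by
  rcases hp.eq_or_lt with h | hp'
  · rw [← h]
    simp only [zero_mul, Real.sqrt_zero, div_zero, zero_add]
    positivity
  rcases hq.eq_or_lt with h | hq'
  · rw [← h]
    simp only [mul_zero, Real.sqrt_zero, div_zero, add_zero]
    positivity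
  have hs : 0 < Real.sqrt p := Real.sqrt_pos.mpr hp'
  have ht : 0 < Real.sqrt q := Real.sqrt_pos.mpr hq'
  have h1 : x ^ 2 / p = x ^ 2 * (1 / Real.sqrt p) ^ 2 := by
    rw [div_pow, one_pow, Real.sq_sqrt hp, mul_one_div]
  have h2 : x ^ 2 / q = x ^ 2 * (1 / Real.sqrt q) ^ 2 := by
    rw [div_pow, one_pow, Real.sq_sqrt hq, mul_one_div]
  have h3 : x ^ 2 / Real.sqrt (p * q) = x ^ 2 * ((1 / Real.sqrt p) * (1 / Real.sqrt q)) := by
    rw [Real.sqrt_mul hp, div_mul_div_comm, one_mul, mul_one_div]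
  rw [h1, h2, h3]
  nlinarith [mul_nonneg (sq_nonneg x) (sq_nonneg (1 / Real.sqrt p - 1 / Real.sqrt q))]

theorem third {A : Type} [Fintype A] {r : A → A → ℝ} {p q : A → ℝ}
    (hr : ∀ a b, 0 ≤ r a b) (hl : ∀ a, ∑ b, r a b = p a) (hq : ∀ b, ∑ a, r a b = q b)
    (h1 : ∑ a, p a = 1) :
    (∑ a, ∑ b, (r a b - p a * q b) ^ 2 / p a) ≤ 1 := by
  have hp : ∀ a, 0 ≤ p a := fun a => by rw [← hl]; exact Finset.sum_nonneg fun b _ => hr a b
  have hrp : ∀ a b, r a b ≤ p a := fun a b => by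
    rw [← hl]; exact Finset.single_le_sum (fun b _ => hr a b) (Finset.mem_univ b)
  have hterm : ∀ a b, (r a b - p a * q b) ^ 2 / p a ≤
      r a b - 2 * (r a b * q b) + p a * q b ^ 2 := by
    intro a b
    rcases (hp a).eq_or_lt with h | h
    · have h2 : r a b = 0 := le_antisymm (by rw [h]; exact hrp a b) (hr a b)
      rw [h2, ← h]
      simp
    · rw [div_le_iff₀ h]
      have h2 : r a b * r a b ≤ r a b * p a := mul_le_mul_of_nonneg_left (hrp a b) (hr a b)
      nlinarith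
  calc (∑ a, ∑ b, (r a b - p a * q b) ^ 2 / p a)
      ≤ ∑ a, ∑ b, (r a b - 2 * (r a b * q b) + p a * q b ^ 2) :=
        Finset.sum_le_sum fun a _ => Finset.sum_le_sum fun b _ => hterm a b
    _ = 1 - ∑ b, q b ^ 2 := by
        simp only [Finset.sum_add_distrib, Finset.sum_sub_distrib, ← Finset.mul_sum]
        rw [Finset.sum_comm (f := fun a b => r a b * q b)]
        simp only [← Finset.sum_mul, hl, hq, h1, ← pow_two]
        ring
    _ ≤ 1 := by
        have : 0 ≤ ∑ b, q b ^ 2 := Finset.sum_nonneg fun b _ => sq_nonneg _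
        linarith

end RD

open RD in
theorem T_RD : St_RD := by
  intro A _ _ r p q h
  obtain ⟨hr, hl, hq, h1⟩ := h
  have hp : ∀ a, 0 ≤ p a := fun a => by rw [← hl]; exact Finset.sum_nonneg fun b _ => hr a b
  have hq0 : ∀ b, 0 ≤ q b := fun b => by rw [← hq]; exact Finset.sum_nonneg fun a _ => hr a b
  have h2 : ∑ b, q b = 1 := by
    rw [← h1]
    simp only [← hl, ← hq]
    exact Finset.sum_comm
  refine ⟨?_, ?_, third hr hl hq h1, ?_⟩
  · exact Finset.sum_nonneg fun a _ => Finset.sum_nonneg fun b _ =>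
      div_nonneg (sq_nonneg _) (Real.sqrt_nonneg _)
  · unfold ker
    rw [← Finset.sum_add_distrib, Finset.sum_div]
    refine Finset.sum_le_sum fun a _ => ?_
    rw [← Finset.sum_add_distrib, Finset.sum_div]
    exact Finset.sum_le_sum fun b _ => term (hp a) (hq0 b)
  · have h3 := third (r := fun b a => r a b) (p := q) (q := p) (fun b a => hr a b) hq hl h2
    rw [Finset.sum_comm] at h3
    refine le_trans (le_of_eq ?_) h3
    refine Finset.sum_congr rfl fun a _ => Finset.sum_congr rfl fun b _ => ?_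
    rw [mul_comm (p a) (q b)]

end Pool.Agent.H647R3.UG
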