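import Pool.Agent.H647R3.UG.Defs

namespace Pool.Agent.H647R3.UG
open Finset

namespace WT

variable {V E : Type} [DecidableEq V] [Fintype E]

theorem wt_eq (s t : E → V) (u v : V) :
    wt s t u v = ∑ e, ((if s e = u then (if t e = v then (1 : ℝ) else 0) else 0)
      + (if s e = v then (if t e = u then (1 : ℝ) else 0) else 0)) := by
  unfold wt
  rw [Finset.card_filter, Finset.card_filter, Nat.cast_sum, Nat.cast_sum,
    ← Finset.sum_add_distrib]
  refine Finset.sum_congr rfl fun e _ => ?_
  congr 1
  · by_cases h1 : s e = u <;> by_cases h2 : t e = v <;> simp [h1, h2]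
  · by_cases h1 : s e = v <;> by_cases h2 : t e = u <;> simp [h1, h2]

theorem dgr_eq (s t : E → V) (u : V) :
    dgr s t u = ∑ e, ((if s e = u then (1 : ℝ) else 0) + (if t e = u then (1 : ℝ) else 0)) := by
  unfold dgr
  rw [Finset.card_filter, Finset.card_filter, Nat.cast_sum, Nat.cast_sum,
    ← Finset.sum_add_distrib]
  refine Finset.sum_congr rfl fun e _ => ?_
  congr 1
  · by_cases h1 : s e = u <;> simp [h1]
  · by_cases h1 : t e = u <;> simp [h1]

theorem nn (s t : E → V) (u v : V) : 0 ≤ wt s t u v := by
  unfold wt; positivity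

theorem rowsum [Fintype V] (s t : E → V) (u : V) : ∑ v, wt s t u v = dgr s t u := by
  simp only [wt_eq, dgr_eq]
  rw [Finset.sum_comm]
  refine Finset.sum_congr rfl fun e _ => ?_
  rw [Finset.sum_add_distrib]
  congr 1
  · split_ifs with h
    · simp
    · simp
  · rw [Finset.sum_ite_eq univ (s e)]
    simp

theorem seven (s t : E → V) (C : Finset V) (F : V → V → ℝ) (hF : ∀ u v, F u v = F v u) :
    ∑ u ∈ C, ∑ v ∈ C, wt s t u v * F u v = 2 * ∑ e ∈ ins s t C, F (s e) (t e) := by
  have h1 : ∀ u v, wt s t u v * F u v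
      = ∑ e, ((if s e = u then (if t e = v then F u v else 0) else 0)
        + (if s e = v then (if t e = u then F u v else 0) else 0)) := by
    intro u v
    rw [wt_eq, Finset.sum_mul]
    refine Finset.sum_congr rfl fun e _ => ?_
    rw [add_mul]
    congr 1
    · by_cases h1 : s e = u <;> by_cases h2 : t e = v <;> simp [h1, h2]
    · by_cases h1 : s e = v <;> by_cases h2 : t e = u <;> simp [h1, h2]
  simp only [h1]
  have h2 : ∀ u, ∑ v ∈ C, ∑ e, ((if s e = u then (if t e = v then F u v else 0) else 0)
        + (if s e = v then (if t e = u then F u v else 0) else 0))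
      = ∑ e, ((if s e = u then (if t e ∈ C then F u (t e) else 0) else 0)
        + (if s e ∈ C then (if t e = u then F u (s e) else 0) else 0)) := by
    intro u
    rw [Finset.sum_comm]
    refine Finset.sum_congr rfl fun e _ => ?_
    rw [Finset.sum_add_distrib]
    congr 1
    · by_cases h : s e = u
      · simp only [h, if_true]
        rw [Finset.sum_ite_eq C (t e)]
      · simp [h]
    · rw [Finset.sum_ite_eq C (s e)]
  simp only [h2]
  rw [Finset.sum_comm]
  unfold ins
  rw [Finset.mul_sum, Finset.sum_filter]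
  refine Finset.sum_congr rfl fun e _ => ?_
  rw [Finset.sum_add_distrib, Finset.sum_ite_eq C (s e)]
  by_cases hs : s e ∈ C
  · by_cases ht : t e ∈ C
    · simp only [hs, ht, if_true, and_self]
      rw [Finset.sum_ite_eq C (t e)]
      simp only [ht, if_true]
      rw [hF (t e) (s e)]
      ring
    · simp only [hs, ht, if_true, if_false, and_false]
      rw [Finset.sum_ite_eq C (t e)]
      simp [ht]
  · simp [hs]

theorem eight (s t : E → V) (C : Finset V) (h : V → ℝ) (hh : ∀ v, 0 ≤ h v) :
    ∑ e ∈ ins s t C, (h (s e) + h (t e)) ≤ ∑ v ∈ C, dgr s t v * h v := by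
  have h1 : ∀ v, dgr s t v * h v
      = ∑ e, ((if s e = v then h v else 0) + (if t e = v then h v else 0)) := by
    intro v
    rw [dgr_eq, Finset.sum_mul]
    refine Finset.sum_congr rfl fun e _ => ?_
    rw [add_mul]
    congr 1
    · by_cases h1 : s e = v <;> simp [h1]
    · by_cases h1 : t e = v <;> simp [h1]
  simp only [h1]
  rw [Finset.sum_comm]
  unfold ins
  rw [Finset.sum_filter]
  refine Finset.sum_le_sum fun e _ => ?_
  rw [Finset.sum_add_distrib, Finset.sum_ite_eq C (s e), Finset.sum_ite_eq C (t e)]
  have h2 := hh (s e)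
  have h3 := hh (t e)
  by_cases hs : s e ∈ C <;> by_cases ht : t e ∈ C <;> simp [hs, ht] <;> assumption

end WT

theorem T_WT : St_WT := by
  intro V E _ _ _ s t
  have hnn := WT.nn s t
  refine ⟨hnn, ?_, WT.rowsum s t, ?_, ?_, ?_, WT.seven s t, WT.eight s t, ?_⟩
  · intro u v
    unfold wt
    ring
  · intro C u _
    rw [← WT.rowsum s t u]
    exact Finset.sum_le_sum_of_subset_of_nonneg (Finset.subset_univ _) (fun v _ _ => hnn u v)
  · simp only [WT.dgr_eq]
    rw [Finset.sum_comm]
    simp only [Finset.sum_add_distrib, Finset.sum_ite_eq, Finset.mem_univ, if_true]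
    simp
    ring
  · intro e
    unfold dgr
    constructor
    · have : 0 < ((univ.filter fun e' => s e' = s e).card : ℝ) := by
        exact_mod_cast Finset.card_pos.2 ⟨e, by simp⟩
      positivity
    · have : 0 < ((univ.filter fun e' => t e' = t e).card : ℝ) := by
        exact_mod_cast Finset.card_pos.2 ⟨e, by simp⟩
      positivity
  · intro C
    have h := WT.eight s t C (fun _ => 1) (fun _ => zero_le_one)
    simp only [mul_one] at h
    unfold vol
    refine le_trans (le_of_eq ?_) h
    rw [Finset.sum_const, nsmul_eq_mul]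
    ring

end Pool.Agent.H647R3.UG
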