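import Pool.Agent.H647R3.UG.Defs

namespace Pool.Agent.H647R3.UG

open Finset

namespace CO

theorem main {W : Type} [Fintype W] [DecidableEq W] (w : W → W → ℝ) (m : W → ℝ) (h : ℝ)
    (hs : ∀ u v, w u v = w v u) :
    ∀ (n : ℕ) (g : W → ℝ), (∀ u, 0 ≤ g u) → (univ.filter fun u => 0 < g u).card ≤ n →
    (∀ t : ℝ, 0 ≤ t → h * vol m (univ.filter fun u => t < g u)
      ≤ cutW w (univ.filter fun u => t < g u) (univ.filter fun u => ¬ t < g u)) →
    h * ∑ u, m u * g u ≤ (1 / 2) * ∑ u, ∑ v, w u v * |g u - g v| := by
  intro n
  induction n with
  | zero =>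
    intro g hg hc hcut
    have h0 : ∀ u, g u = 0 := by
      intro u
      by_contra hne
      have hu : u ∈ univ.filter fun u => 0 < g u := by
        simp [lt_of_le_of_ne (hg u) (Ne.symm hne)]
      have := card_pos.mpr ⟨u, hu⟩
      omega
    simp [h0]
  | succ n ih =>
    intro g hg hc hcut
    rcases (univ.filter fun u => 0 < g u).eq_empty_or_nonempty with hE | hne
    · have h0 : ∀ u, g u = 0 := by
        intro u
        by_contra hne
        have hu : u ∈ univ.filter fun u => 0 < g u := by
          simp [lt_of_le_of_ne (hg u) (Ne.symm hne)]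
        rw [hE] at hu
        simp at hu
      simp [h0]
    · obtain ⟨u0, hu0, hmin⟩ := exists_min_image _ g hne
      have ht0 : 0 < g u0 := by simpa using hu0
      have hmin' : ∀ u, 0 < g u → g u0 ≤ g u := by
        intro u hu
        exact hmin u (by simpa using hu)
      generalize hT : g u0 = t0 at ht0 hmin'
      set g' : W → ℝ := fun u => if 0 < g u then g u - t0 else 0 with hg'
      have hz : ∀ u, ¬ 0 < g u → g u = 0 := fun u hu => le_antisymm (not_lt.mp hu) (hg u)
      have hg'0 : ∀ u, 0 ≤ g' u := by
        intro u
        simp only [hg']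
        split_ifs with hu
        · linarith [hmin' u hu]
        · exact le_rfl
      have hfil : ∀ t : ℝ, 0 ≤ t → ∀ u, (t < g' u ↔ t + t0 < g u) := by
        intro t ht u
        simp only [hg']
        split_ifs with hu
        · constructor <;> intro hh <;> linarith
        · rw [hz u hu]
          constructor <;> intro hh <;> linarith
      have hcard : (univ.filter fun u => 0 < g' u).card ≤ n := by
        have hlt : (univ.filter fun u => 0 < g' u) ⊂ (univ.filter fun u => 0 < g u) := by
          rw [ssubset_iff_of_subset]
          · refine ⟨u0, hu0, ?_⟩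
            simp only [mem_filter, mem_univ, true_and]
            rw [hfil 0 le_rfl u0, hT]
            linarith
          · intro u hu
            simp only [mem_filter, mem_univ, true_and] at hu ⊢
            rw [hfil 0 le_rfl u] at hu
            linarith
        have := card_lt_card hlt
        omega
      have ih' := ih g' hg'0 hcard (by
        intro t ht
        have := hcut (t + t0) (by linarith)
        simpa only [hfil t ht] using this)
      have hb : ∑ u, m u * g u = t0 * vol m (univ.filter fun u => 0 < g u) + ∑ u, m u * g' u := by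
        unfold vol
        rw [sum_filter, mul_sum, ← sum_add_distrib]
        refine sum_congr rfl fun u _ => ?_
        simp only [hg']
        split_ifs with hu
        · ring
        · rw [hz u hu]; ring
      have hcutsum : cutW w (univ.filter fun u => 0 < g u) (univ.filter fun u => ¬ 0 < g u)
          = ∑ u, ∑ v, w u v * (if 0 < g u ∧ ¬ 0 < g v then 1 else 0) := by
        unfold cutW
        rw [sum_filter]
        refine sum_congr rfl fun u _ => ?_
        split_ifs with hu
        · rw [sum_filter]
          refine sum_congr rfl fun v _ => ?_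
          simp [hu]
        · simp [hu]
      have hcutsum2 : cutW w (univ.filter fun u => 0 < g u) (univ.filter fun u => ¬ 0 < g u)
          = ∑ u, ∑ v, w u v * (if 0 < g v ∧ ¬ 0 < g u then 1 else 0) := by
        rw [hcutsum, sum_comm]
        refine sum_congr rfl fun u _ => sum_congr rfl fun v _ => ?_
        rw [hs]
      have hc1 : ∑ u, ∑ v, w u v * |g u - g v|
          = ∑ u, ∑ v, w u v * |g' u - g' v|
            + t0 * ∑ u, ∑ v, w u v * (if 0 < g u ∧ ¬ 0 < g v then 1 else 0)
            + t0 * ∑ u, ∑ v, w u v * (if 0 < g v ∧ ¬ 0 < g u then 1 else 0) := by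
        rw [mul_sum, mul_sum, ← sum_add_distrib, ← sum_add_distrib]
        refine sum_congr rfl fun u _ => ?_
        rw [mul_sum, mul_sum, ← sum_add_distrib, ← sum_add_distrib]
        refine sum_congr rfl fun v _ => ?_
        simp only [hg']
        by_cases hu : 0 < g u <;> by_cases hv : 0 < g v
        · rw [if_pos hu, if_pos hv, if_neg (fun h => h.2 hv), if_neg (fun h => h.2 hu),
            show g u - t0 - (g v - t0) = g u - g v by ring]
          ring
        · rw [if_pos hu, if_neg hv, if_pos (⟨hu, hv⟩ : 0 < g u ∧ ¬ 0 < g v),
            if_neg (fun h => h.2 hu), hz v hv,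
            abs_of_nonneg (by linarith [hmin' u hu] : (0:ℝ) ≤ g u - t0 - 0),
            abs_of_nonneg (by linarith : (0:ℝ) ≤ g u - 0)]
          ring
        · rw [if_neg hu, if_pos hv, if_neg (fun h => h.2 hv),
            if_pos (⟨hv, hu⟩ : 0 < g v ∧ ¬ 0 < g u), hz u hu,
            abs_sub_comm 0 (g v - t0), abs_sub_comm 0 (g v),
            abs_of_nonneg (by linarith [hmin' v hv] : (0:ℝ) ≤ g v - t0 - 0),
            abs_of_nonneg (by linarith : (0:ℝ) ≤ g v - 0)]
          ring
        · rw [if_neg hu, if_neg hv, if_neg (fun h => hu h.1), if_neg (fun h => hv h.1),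
            hz u hu, hz v hv]
          ring
      rw [← hcutsum, ← hcutsum2] at hc1
      have h0 := hcut 0 le_rfl
      have h1 := mul_le_mul_of_nonneg_left h0 ht0.le
      rw [hb, hc1]
      nlinarith [h1, ih']

end CO

theorem T_CO : St_CO := by
  intro W _ _ w m g h _ hs hg hcut
  exact CO.main w m h hs _ g hg le_rfl hcut

end Pool.Agent.H647R3.UG
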