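import Pool.Agent.H647R3.UG.Defs

/-!
The entropy bound.
-/

namespace Pool.Agent.H647R3.UG

open Finset

theorem T_EN : St_EN := by
  intro V m C hm
  rcases C.eq_empty_or_nonempty with h | h
  · subst h
    simp [vol]
  · have hn : (0 : ℝ) < (C.card : ℝ) := by
      exact_mod_cast h.card_pos
    have hM : 0 < vol m C := Finset.sum_pos hm h
    have key : ∀ v ∈ C, m v * Real.log (vol m C / m v)
        ≤ m v * Real.log C.card + (vol m C / C.card - m v) := by
      intro v hv
      have hv' := hm v hv
      have h1 : vol m C / m v = (C.card : ℝ) * (vol m C / (C.card * m v)) := by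
        field_simp
      have hp : 0 < vol m C / (C.card * m v) := by positivity
      rw [h1, Real.log_mul hn.ne' hp.ne']
      have h2 := Real.log_le_sub_one_of_pos hp
      have h3 : m v * Real.log (vol m C / (C.card * m v))
          ≤ m v * (vol m C / (C.card * m v) - 1) := mul_le_mul_of_nonneg_left h2 hv'.le
      have h4 : m v * (vol m C / (C.card * m v) - 1) = vol m C / C.card - m v := by
        field_simp
      rw [h4] at h3
      linarith [mul_add (m v) (Real.log C.card) (Real.log (vol m C / (C.card * m v)))]
    calc ∑ v ∈ C, m v * Real.log (vol m C / m v)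
        ≤ ∑ v ∈ C, (m v * Real.log C.card + (vol m C / C.card - m v)) := Finset.sum_le_sum key
      _ = vol m C * Real.log C.card := by
        rw [Finset.sum_add_distrib, Finset.sum_sub_distrib, ← Finset.sum_mul, Finset.sum_const,
          nsmul_eq_mul]
        have : (C.card : ℝ) * (vol m C / C.card) = vol m C := by field_simp
        rw [this]
        simp [vol]

end Pool.Agent.H647R3.UG
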