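import Pool.Agent.H647R3.UG.Defs

namespace Pool.Agent.H647R3.UG

open Finset

namespace FK

theorem min_le {f F : ℝ} (hf : 0 ≤ f) (hF : 0 ≤ F) :
    f ^ 2 - F / 4 * f ≤ max (f ^ 2 - F ^ 2 / 16) 0 := by
  rcases le_total f (F / 4) with h | h
  · exact le_trans (by nlinarith) (le_max_right _ _)
  · exact le_trans (by nlinarith) (le_max_left _ _)

theorem abs_max_sub (a b c : ℝ) : |max (a - c) 0 - max (b - c) 0| ≤ |a - b| := by
  have := abs_max_sub_max_le_abs (a - c) (b - c) 0
  rwa [show a - c - (b - c) = a - b by ring] at this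

theorem cs {ι : Type} (s : Finset ι) (w a b : ι → ℝ) (hw : ∀ i ∈ s, 0 ≤ w i) :
    (∑ i ∈ s, w i * (a i * b i)) ^ 2 ≤ (∑ i ∈ s, w i * a i ^ 2) * ∑ i ∈ s, w i * b i ^ 2 := by
  have h := sum_mul_sq_le_sq_mul_sq s (fun i => Real.sqrt (w i) * a i)
    (fun i => Real.sqrt (w i) * b i)
  have e1 : ∑ i ∈ s, Real.sqrt (w i) * a i * (Real.sqrt (w i) * b i)
      = ∑ i ∈ s, w i * (a i * b i) := by
    refine sum_congr rfl fun i hi => ?_
    have := Real.mul_self_sqrt (hw i hi)
    calc Real.sqrt (w i) * a i * (Real.sqrt (w i) * b i)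
        = (Real.sqrt (w i) * Real.sqrt (w i)) * (a i * b i) := by ring
      _ = _ := by rw [this]
  have e2 : ∀ c : ι → ℝ, ∑ i ∈ s, (Real.sqrt (w i) * c i) ^ 2 = ∑ i ∈ s, w i * c i ^ 2 := by
    intro c
    refine sum_congr rfl fun i hi => ?_
    rw [mul_pow, Real.sq_sqrt (hw i hi)]
  rw [e1, e2, e2] at h
  exact h

end FK

theorem T_FK (hCO : St_CO) : St_FK := by
  intro W _ _ w m f κ hnet hκ hgood hf hone hMF
  set M := vol m univ with hM
  set F := ip m f f with hF
  have hM0 : 0 ≤ M := sum_nonneg fun u _ => (hnet.pos u).le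
  have hF0 : 0 < F := by
    by_contra hc
    have : M * F ≤ 0 := mul_nonpos_of_nonneg_of_nonpos hM0 (not_lt.mp hc)
    linarith
  have hM1 : 0 < M := by
    by_contra hc
    have : M * F ≤ 0 := mul_nonpos_of_nonpos_of_nonneg (not_lt.mp hc) hF0.le
    linarith
  set ρ := Real.log (M * F / 4) with hρ
  have hρ0 : 0 ≤ ρ := Real.log_nonneg hMF
  have hFeq : F = ∑ u, m u * f u ^ 2 := by
    rw [hF]; unfold ip
    exact sum_congr rfl fun u _ => by ring
  set g : W → ℝ := fun u => max (f u ^ 2 - F ^ 2 / 16) 0 with hg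
  have hg0 : ∀ u, 0 ≤ g u := fun u => le_max_right _ _
  -- (1)
  have h1 : ∀ t : ℝ, 0 ≤ t → κ * ρ * vol m (univ.filter fun u => t < g u)
      ≤ cutW w (univ.filter fun u => t < g u) (univ.filter fun u => ¬ t < g u) := by
    intro t ht
    rcases (univ.filter fun u => t < g u).eq_empty_or_nonempty with hE | hne
    · rw [hE]; simp [vol, cutW]
    · have hpos : 0 < vol m (univ.filter fun u => t < g u) :=
        sum_pos (fun u _ => hnet.pos u) hne
      have hsmall : vol m (univ.filter fun u => t < g u) * (F / 4) ≤ 1 := by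
        calc vol m (univ.filter fun u => t < g u) * (F / 4)
            = ∑ u ∈ univ.filter (fun u => t < g u), m u * (F / 4) := by
              unfold vol; rw [sum_mul]
          _ ≤ ∑ u ∈ univ.filter (fun u => t < g u), m u * f u := by
              refine sum_le_sum fun u hu => ?_
              simp only [mem_filter, mem_univ, true_and] at hu
              have hgu : 0 < g u := lt_of_le_of_lt ht hu
              have h2 : 0 < f u ^ 2 - F ^ 2 / 16 := by
                by_contra hc
                have : g u = 0 := max_eq_right (not_lt.mp hc)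
                linarith
              have h3 : F / 4 ≤ f u := by
                by_contra hc
                push Not at hc
                nlinarith [hf u]
              exact mul_le_mul_of_nonneg_left h3 (hnet.pos u).le
          _ ≤ ∑ u, m u * f u := by
              refine sum_le_sum_of_subset_of_nonneg (filter_subset _ _) fun u _ _ => ?_
              exact mul_nonneg (hnet.pos u).le (hf u)
          _ = 1 := hone
      have hlog : ρ ≤ Real.log (M / vol m (univ.filter fun u => t < g u)) := by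
        rw [hρ]
        apply Real.log_le_log (by linarith)
        rw [le_div_iff₀ hpos]
        nlinarith
      have hgd := hgood _ (subset_univ _) hne
      have heq : univ \ (univ.filter fun u => t < g u) = univ.filter fun u => ¬ t < g u := by
        ext u; simp
      rw [heq] at hgd
      refine le_trans ?_ hgd
      calc κ * ρ * vol m (univ.filter fun u => t < g u)
          = κ * vol m (univ.filter fun u => t < g u) * ρ := by ring
        _ ≤ _ := mul_le_mul_of_nonneg_left hlog (mul_nonneg hκ hpos.le)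
  have h2 := hCO W w m g (κ * ρ) hnet.nonneg hnet.symm hg0 h1
  -- (3)
  have h3 : 3 / 4 * F ≤ ∑ u, m u * g u := by
    have : ∑ u, m u * (f u ^ 2 - F / 4 * f u) ≤ ∑ u, m u * g u :=
      sum_le_sum fun u _ => mul_le_mul_of_nonneg_left (FK.min_le (hf u) hF0.le) (hnet.pos u).le
    have h4 : ∑ u, m u * (f u ^ 2 - F / 4 * f u) = F - F / 4 * 1 := by
      rw [← hone, hFeq, mul_sum, ← sum_sub_distrib]
      rw [← hFeq]
      exact sum_congr rfl fun u _ => by ring
    linarith
  -- (4)
  have h5 : ∑ u, ∑ v, w u v * |g u - g v| ≤ ∑ p : W × W, w p.1 p.2 * (|f p.1 - f p.2| * (f p.1 + f p.2)) := by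
    rw [Fintype.sum_prod_type]
    refine sum_le_sum fun u _ => sum_le_sum fun v _ => ?_
    refine mul_le_mul_of_nonneg_left ?_ (hnet.nonneg u v)
    refine le_trans (FK.abs_max_sub _ _ _) ?_
    rw [show f u ^ 2 - f v ^ 2 = (f u - f v) * (f u + f v) by ring, abs_mul,
      abs_of_nonneg (add_nonneg (hf u) (hf v))]
  have h6 := FK.cs (univ : Finset (W × W)) (fun p => w p.1 p.2) (fun p => |f p.1 - f p.2|)
    (fun p => f p.1 + f p.2) (fun p _ => hnet.nonneg _ _)
  have h7 : ∑ p : W × W, w p.1 p.2 * |f p.1 - f p.2| ^ 2 = 2 * en w f := by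
    unfold en
    rw [Fintype.sum_prod_type, ← mul_assoc]
    norm_num
  have h8 : ∑ p : W × W, w p.1 p.2 * (f p.1 + f p.2) ^ 2 ≤ 4 * F := by
    have h9 : ∑ p : W × W, w p.1 p.2 * (f p.1 + f p.2) ^ 2
        ≤ ∑ p : W × W, (2 * (w p.1 p.2 * f p.1 ^ 2) + 2 * (w p.1 p.2 * f p.2 ^ 2)) := by
      refine sum_le_sum fun p _ => ?_
      have := hnet.nonneg p.1 p.2
      nlinarith [mul_nonneg this (sq_nonneg (f p.1 - f p.2))]
    have h10 : ∑ p : W × W, w p.1 p.2 * f p.1 ^ 2 ≤ F := by
      rw [Fintype.sum_prod_type, hFeq]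
      refine sum_le_sum fun u _ => ?_
      simp only
      rw [← sum_mul]
      exact mul_le_mul_of_nonneg_right (hnet.deg u) (sq_nonneg _)
    have h11 : ∑ p : W × W, w p.1 p.2 * f p.2 ^ 2 = ∑ p : W × W, w p.1 p.2 * f p.1 ^ 2 := by
      rw [Fintype.sum_prod_type_right, Fintype.sum_prod_type]
      exact sum_congr rfl fun u _ => sum_congr rfl fun v _ => by rw [hnet.symm]
    rw [sum_add_distrib, ← mul_sum, ← mul_sum, h11] at h9
    linarith
  have hen : 0 ≤ en w f := by
    unfold en
    exact mul_nonneg (by norm_num) (sum_nonneg fun u _ => sum_nonneg fun v _ =>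
      mul_nonneg (hnet.nonneg u v) (sq_nonneg _))
  have h12 : (∑ p : W × W, w p.1 p.2 * (|f p.1 - f p.2| * (f p.1 + f p.2))) ^ 2
      ≤ 2 * en w f * (4 * F) := by
    refine le_trans h6 ?_
    rw [h7]
    exact mul_le_mul_of_nonneg_left h8 (by linarith)
  have h13 : 0 ≤ κ * ρ := mul_nonneg hκ hρ0
  have h14 : κ * ρ * (3 / 4 * F)
      ≤ 1 / 2 * ∑ p : W × W, w p.1 p.2 * (|f p.1 - f p.2| * (f p.1 + f p.2)) := by
    have := mul_le_mul_of_nonneg_left h3 h13
    linarith
  have h15 : 0 ≤ κ * ρ * (3 / 4 * F) := mul_nonneg h13 (by linarith)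
  have h16 := pow_le_pow_left₀ h15 h14 2
  have h17 : (κ * ρ * (3 / 4 * F)) ^ 2 ≤ 2 * F * en w f := by
    refine le_trans h16 ?_
    rw [mul_pow]
    linarith
  have h18 : F * (9 / 16 * (κ * ρ) ^ 2 * F) ≤ F * (2 * en w f) := by
    calc F * (9 / 16 * (κ * ρ) ^ 2 * F) = (κ * ρ * (3 / 4 * F)) ^ 2 := by ring
      _ ≤ _ := h17
      _ = _ := by ring
  have h19 := le_of_mul_le_mul_left h18 hF0
  have h20 : 0 ≤ (κ * ρ) ^ 2 * F := mul_nonneg (sq_nonneg _) hF0.le
  calc κ ^ 2 * ρ ^ 2 * F / 4 = (κ * ρ) ^ 2 * F / 4 := by ring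
    _ ≤ en w f := by linarith

end Pool.Agent.H647R3.UG
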