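import Pool.Agent.H647R3.UG.Defs

/-!
Global correlation inside a finite set of vertices.
-/

namespace Pool.Agent.H647R3.UG

open Finset

namespace GCF

theorem vol_map {V : Type} (C : Finset V) (m : V → ℝ) (S : Finset {v // v ∈ C}) :
    vol m (S.map (Function.Embedding.subtype _)) = vol (fun u : {v // v ∈ C} => m u.1) S := by
  unfold vol
  rw [Finset.sum_map]
  rfl

theorem cut_map {V : Type} (C : Finset V) (w : V → V → ℝ) (S T : Finset {v // v ∈ C}) :
    cutW w (S.map (Function.Embedding.subtype _)) (T.map (Function.Embedding.subtype _))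
      = cutW (fun u v : {v // v ∈ C} => w u.1 v.1) S T := by
  unfold cutW
  rw [Finset.sum_map]
  refine Finset.sum_congr rfl fun u _ => ?_
  rw [Finset.sum_map]
  rfl

theorem univ_map {V : Type} (C : Finset V) :
    (univ : Finset {v // v ∈ C}).map (Function.Embedding.subtype _) = C := by
  ext v
  simp

theorem sdiff_map {V : Type} [DecidableEq V] (C : Finset V) (S : Finset {v // v ∈ C}) :
    (univ \ S).map (Function.Embedding.subtype _)
      = C \ S.map (Function.Embedding.subtype _) := by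
  ext v
  simp only [Finset.mem_map, Finset.mem_sdiff, Finset.mem_univ, true_and,
    Function.Embedding.subtype_apply]
  constructor
  · rintro ⟨⟨a, ha⟩, h1, rfl⟩
    refine ⟨ha, ?_⟩
    rintro ⟨⟨b, hb⟩, h2, h3⟩
    simp only at h3
    subst h3
    exact h1 h2
  · rintro ⟨h1, h2⟩
    exact ⟨⟨v, h1⟩, fun h3 => h2 ⟨⟨v, h1⟩, h3, rfl⟩, rfl⟩

theorem good_sub {V : Type} [DecidableEq V] (w : V → V → ℝ) (m : V → ℝ) (κ : ℝ) (C : Finset V)
    (h : GoodIn w m κ C) :
    GoodIn (fun u v : {v // v ∈ C} => w u.1 v.1) (fun u : {v // v ∈ C} => m u.1) κ univ := by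
  intro S _ hne
  have h1 := h (S.map (Function.Embedding.subtype _)) (by
    intro v hv
    rw [Finset.mem_map] at hv
    obtain ⟨a, _, rfl⟩ := hv
    exact a.2) (hne.map)
  rw [← sdiff_map C S, cut_map, vol_map] at h1
  have h2 : vol m C = vol (fun u : {v // v ∈ C} => m u.1) univ := by
    rw [← vol_map, univ_map]
  rw [h2] at h1
  exact h1

end GCF

open GCF in
theorem T_GCF (hGC : St_GC) : St_GCF := by
  intro V J _ _ _ w m C U κ τ hw hsym hm hdeg hκ hgood hτ hτ1 hpos hen
  have e1 : ∑ j, ip (fun u : {v // v ∈ C} => m u.1) (fun u => U j u.1) (fun u => U j u.1)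
      = ∑ u ∈ C, m u * ∑ j, U j u ^ 2 := by
    unfold ip
    rw [Finset.sum_comm, ← Finset.sum_coe_sort C (fun u => m u * ∑ j, U j u ^ 2)]
    refine Finset.sum_congr rfl fun u _ => ?_
    rw [Finset.mul_sum]
    refine Finset.sum_congr rfl fun j _ => ?_
    ring
  have e2 : ∑ j, en (fun u v : {v // v ∈ C} => w u.1 v.1) (fun u => U j u.1)
      = (1 / 2) * ∑ u ∈ C, ∑ v ∈ C, w u v * ∑ j, (U j u - U j v) ^ 2 := by
    unfold en
    rw [← Finset.mul_sum, Finset.sum_comm,
      ← Finset.sum_coe_sort C (fun u => ∑ v ∈ C, w u v * ∑ j, (U j u - U j v) ^ 2)]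
    congr 1
    refine Finset.sum_congr rfl fun u _ => ?_
    rw [Finset.sum_comm, ← Finset.sum_coe_sort C (fun v => w u.1 v * ∑ j, (U j u.1 - U j v) ^ 2)]
    refine Finset.sum_congr rfl fun v _ => ?_
    rw [Finset.mul_sum]
  have e3 : ∑ u : {v // v ∈ C}, ∑ v : {v // v ∈ C}, m u.1 * m v.1
        * (∑ j, U j u.1 * U j v.1) ^ 2
      = ∑ u ∈ C, ∑ v ∈ C, m u * m v * (∑ j, U j u * U j v) ^ 2 := by
    rw [← Finset.sum_coe_sort C (fun u => ∑ v ∈ C, m u * m v * (∑ j, U j u * U j v) ^ 2)]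
    refine Finset.sum_congr rfl fun u _ => ?_
    rw [← Finset.sum_coe_sort C (fun v => m u.1 * m v * (∑ j, U j u.1 * U j v) ^ 2)]
  have hnet : IsNet (fun u v : {v // v ∈ C} => w u.1 v.1) (fun u : {v // v ∈ C} => m u.1) := by
    refine ⟨fun u v => hw _ _, fun u v => hsym _ _, fun u => hm _ u.2, fun u => ?_⟩
    have := hdeg u.1 u.2
    rw [← Finset.sum_coe_sort C (fun v => w u.1 v)] at this
    exact this
  have h := hGC {v // v ∈ C} J (fun u v => w u.1 v.1) (fun u => m u.1) (fun j u => U j u.1) κ τ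
    hnet hκ (good_sub w m κ C hgood) hτ hτ1 (by rw [e1]; exact hpos) (by rw [e1, e2]; exact hen)
  rw [e1, e3] at h
  exact h

end Pool.Agent.H647R3.UG
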