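import Pool.Agent.H647R3.UG.Defs

namespace Pool.Agent.H647R3.UG

open Finset

namespace HD

theorem rec_bound (x : ℕ → ℝ) (c : ℝ) (hc : 0 < c) (h1 : ∀ s, x (s + 1) ≤ x s)
    (h2 : ∀ s, 0 ≤ x s → x (s + 1) ≤ x s - c * x s ^ 2) (s : ℕ) : 0 < x s → c * s * x s ≤ 1 := by
  induction s with
  | zero => intro _; simp
  | succ s ih =>
    intro hx
    have hxs : 0 < x s := lt_of_lt_of_le hx (h1 s)
    have i1 := ih hxs
    have i2 := h2 s hxs.le
    set y := c * x s with hy
    have hy0 : 0 < y := by positivity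
    have i3 : (s : ℝ) * y ≤ 1 := by rw [hy]; linarith
    have i4 : c * x (s + 1) ≤ y - y ^ 2 := by
      calc c * x (s + 1) ≤ c * (x s - c * x s ^ 2) := mul_le_mul_of_nonneg_left i2 hc.le
        _ = _ := by rw [hy]; ring
    have i5 : ((s : ℝ) + 1) * (y - y ^ 2) ≤ 1 := by
      rcases le_total 1 y with h | h
      · have : y - y ^ 2 ≤ 0 := by nlinarith
        have : ((s : ℝ) + 1) * (y - y ^ 2) ≤ 0 :=
          mul_nonpos_of_nonneg_of_nonpos (by positivity) this
        linarith
      · have : (s : ℝ) * y * (1 - y) ≤ 1 * (1 - y) :=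
          mul_le_mul_of_nonneg_right i3 (by linarith)
        nlinarith
    push_cast
    calc c * ((s : ℝ) + 1) * x (s + 1) = ((s : ℝ) + 1) * (c * x (s + 1)) := by ring
      _ ≤ ((s : ℝ) + 1) * (y - y ^ 2) := mul_le_mul_of_nonneg_left i4 (by positivity)
      _ ≤ 1 := i5

end HD

theorem T_HD (hOP : St_OP) (hFK : St_FK) : St_HD := by
  intro W _ _ w m κ hnet hκ hgood v s hs
  obtain ⟨-, o2, o3, o4, o5, -⟩ := hOP W w m hnet
  set f : ℕ → W → ℝ := fun s => (lz w m)^[s] (dl m v) with hf
  have hsucc : ∀ s, f (s + 1) = lz w m (f s) := fun s => Function.iterate_succ_apply' _ _ _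
  have hnn : ∀ s, ∀ u, 0 ≤ f s u := by
    intro s
    induction s with
    | zero =>
      intro u
      change 0 ≤ dl m v u
      unfold dl
      split_ifs
      · exact (div_pos one_pos (hnet.pos v)).le
      · exact le_rfl
    | succ s ih => intro u; rw [hsucc]; exact o3 _ ih u
  have hsum : ∀ s, ∑ u, m u * f s u = 1 := by
    intro s
    induction s with
    | zero =>
      change ∑ u, m u * dl m v u = 1
      unfold dl
      rw [sum_eq_single v]
      · rw [if_pos rfl, mul_one_div, div_self (hnet.pos v).ne']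
      · intro u _ hu; rw [if_neg hu, mul_zero]
      · intro h; exact absurd (mem_univ v) h
    | succ s ih => rw [hsucc, o2]; exact ih
  set F : ℕ → ℝ := fun s => ip m (f s) (f s) with hF
  have hFpos : ∀ s, 0 < F s := by
    intro s
    simp only [hF, ip]
    have h0 : ∀ u ∈ (univ : Finset W), 0 ≤ m u * f s u * f s u := fun u _ =>
      mul_nonneg (mul_nonneg (hnet.pos u).le (hnn s u)) (hnn s u)
    have h1 : ∃ u ∈ (univ : Finset W), 0 < m u * f s u * f s u := by
      by_contra hcon
      push Not at hcon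
      have : ∑ u, m u * f s u = 0 := by
        apply sum_eq_zero
        intro u hu
        have h2 := le_antisymm (hcon u hu) (h0 u hu)
        rcases mul_eq_zero.1 h2 with h3 | h3
        · exact h3
        · rw [h3, mul_zero]
      rw [hsum] at this
      exact one_ne_zero this
    exact sum_pos' h0 h1
  have hM : 0 < vol m univ := sum_pos (fun u _ => hnet.pos u) ⟨v, mem_univ v⟩
  set M := vol m univ with hMd
  have hstep : ∀ s, F (s + 1) ≤ F s - en w (f s) / 2 := by
    intro s
    simp only [hF]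
    rw [hsucc]
    exact (o5 _).trans (o4 _).le
  have hen : ∀ g : W → ℝ, 0 ≤ en w g := by
    intro g
    unfold en
    apply mul_nonneg (by norm_num)
    exact sum_nonneg fun u _ => sum_nonneg fun u' _ => mul_nonneg (hnet.nonneg _ _) (sq_nonneg _)
  set c : ℝ := κ ^ 2 / 8 with hc
  have hc0 : 0 < c := by positivity
  set x : ℕ → ℝ := fun s => Real.log (M * F s / 4) with hx
  have hpos : ∀ s, 0 < M * F s / 4 := fun s => by
    have := hFpos s
    positivity
  have hx1 : ∀ s, x (s + 1) ≤ x s := by
    intro s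
    apply Real.log_le_log (hpos _)
    have h1 := hstep s
    have h2 := hen (f s)
    have h3 : F (s + 1) ≤ F s := by linarith
    have : M * F (s + 1) ≤ M * F s := mul_le_mul_of_nonneg_left h3 hM.le
    linarith
  have hx2 : ∀ s, 0 ≤ x s → x (s + 1) ≤ x s - c * x s ^ 2 := by
    intro s hxs
    have h1 : 1 ≤ M * F s / 4 := by
      by_contra hcon
      push Not at hcon
      have := Real.log_neg (hpos s) hcon
      exact absurd hxs (not_le.2 this)
    have h2 := hFK W w m (f s) κ hnet hκ.le hgood (hnn s) (hsum s) h1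
    have h3 := hstep s
    have h4 : F (s + 1) ≤ F s * (1 - c * x s ^ 2) := by
      have e : κ ^ 2 * Real.log (M * F s / 4) ^ 2 * F s / 4 = 2 * (F s * (c * x s ^ 2)) := by
        rw [hc, hx]; ring
      have h2' : 2 * (F s * (c * x s ^ 2)) ≤ en w (f s) := by rw [← e]; exact h2
      calc F (s + 1) ≤ F s - en w (f s) / 2 := h3
        _ ≤ F s - F s * (c * x s ^ 2) := by linarith
        _ = _ := by ring
    have h5 : 0 < 1 - c * x s ^ 2 := by
      have h6 : 0 < F s * (1 - c * x s ^ 2) := lt_of_lt_of_le (hFpos _) h4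
      exact (pos_iff_pos_of_mul_pos h6).1 (hFpos s)
    have h7 : M * F (s + 1) / 4 ≤ (M * F s / 4) * (1 - c * x s ^ 2) := by
      have : M * F (s + 1) ≤ M * (F s * (1 - c * x s ^ 2)) := mul_le_mul_of_nonneg_left h4 hM.le
      calc M * F (s + 1) / 4 ≤ M * (F s * (1 - c * x s ^ 2)) / 4 := by linarith
        _ = _ := by ring
    calc x (s + 1) ≤ Real.log ((M * F s / 4) * (1 - c * x s ^ 2)) :=
          Real.log_le_log (hpos _) h7
      _ = x s + Real.log (1 - c * x s ^ 2) := Real.log_mul (hpos s).ne' h5.ne'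
      _ ≤ x s - c * x s ^ 2 := by
          have := Real.log_le_sub_one_of_pos h5
          linarith
  have hs0 : (0 : ℝ) < s := by exact_mod_cast hs
  have hfin : x s ≤ 8 / (κ ^ 2 * s) := by
    rcases le_or_gt (x s) 0 with h | h
    · exact h.trans (by positivity)
    · have h1 := HD.rec_bound x c hc0 hx1 hx2 s h
      rw [le_div_iff₀ (by positivity)]
      rw [hc] at h1
      linarith
  have h1 : M * F s / 4 ≤ Real.exp (8 / (κ ^ 2 * s)) := by
    rw [← Real.exp_log (hpos s)]
    exact Real.exp_le_exp.2 hfin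
  change F s ≤ 4 / M * Real.exp (8 / (κ ^ 2 * s))
  rw [div_mul_eq_mul_div, le_div_iff₀ hM]
  linarith

end Pool.Agent.H647R3.UG
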