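import Pool.Agent.H647R3.UG.Defs

/-!
Choice of the parameters.
-/

namespace Pool.Agent.H647R3.UG

open Finset

namespace MAINX

theorem exists_lab {V A : Type} (D : ℕ) (L : ((V → A) → ℝ) →ₗ[ℝ] ℝ) (h : IsPE D L) :
    Nonempty (V → A) := by
  by_contra hne
  rw [not_nonempty_iff] at hne
  have h1 : (fun _ : V → A => (1 : ℝ)) = 0 := by
    funext x
    exact (hne.false x).elim
  have h2 := h.one
  rw [h1, map_zero] at h2
  exact zero_ne_one h2

theorem sqrt_bd (γ ε : ℝ) (hγ : 0 < γ) (hε : 0 < ε) :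
    Real.sqrt (384 * (2 * ε / γ) / (γ / 8)) ≤ 80 * Real.sqrt ε / γ := by
  rw [Real.sqrt_le_left (by positivity)]
  have h : Real.sqrt ε ^ 2 = ε := Real.sq_sqrt hε.le
  have e1 : 384 * (2 * ε / γ) / (γ / 8) = 6144 * (ε / γ ^ 2) := by
    field_simp
    ring
  have e2 : (80 * Real.sqrt ε / γ) ^ 2 = 6400 * (ε / γ ^ 2) := by
    rw [div_pow, mul_pow, h]
    ring
  rw [e1, e2]
  have : 0 < ε / γ ^ 2 := by positivity
  linarith

/-- the exponential factor -/
theorem exp_bd (γ ε n : ℝ) (hγ : 0 < γ) (hε : 0 < ε) (hn : 2 ≤ n) :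
    (n ^ (5120 * Real.sqrt ε / γ ^ 2))⁻¹
      ≤ Real.exp (-(8 * Real.sqrt (384 * (2 * ε / γ) / (γ / 8)) / (γ / (8 * Real.log n)))) := by
  have hn0 : 0 < n := by linarith
  have hl : 0 < Real.log n := Real.log_pos (by linarith)
  rw [Real.rpow_def_of_pos hn0, ← Real.exp_neg]
  apply Real.exp_le_exp.2
  apply neg_le_neg
  have h1 := sqrt_bd γ ε hγ hε
  have e1 : 8 * Real.sqrt (384 * (2 * ε / γ) / (γ / 8)) / (γ / (8 * Real.log n))
      = (64 * Real.log n / γ) * Real.sqrt (384 * (2 * ε / γ) / (γ / 8)) := by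
    field_simp
    ring
  have e2 : Real.log n * (5120 * Real.sqrt ε / γ ^ 2)
      = (64 * Real.log n / γ) * (80 * Real.sqrt ε / γ) := by
    field_simp
    ring
  rw [e1, e2]
  exact mul_le_mul_of_nonneg_left h1 (by positivity)

end MAINX

open MAINX in
theorem T_MAIN (hS4 : St_S4) (hFT : St_FT) : St_MAIN := by
  intro γ hγ
  rcases le_or_gt 1 γ with hγ1 | hγ1
  · refine ⟨1, one_pos, ?_⟩
    intro V A E _ _ _ _ _ s t π ε D L _ _ _ hL _
    obtain ⟨x⟩ := exists_lab D L hL
    refine ⟨x, ?_⟩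
    have h1 : (1 - γ) * (Fintype.card E : ℝ) ≤ 0 :=
      mul_nonpos_of_nonpos_of_nonneg (by linarith) (by positivity)
    exact h1.trans (by positivity)
  · have hK1 : 1 ≤ 1000000 / γ ^ 2 := by
      rw [le_div_iff₀ (by positivity)]
      nlinarith
    refine ⟨1000000 / γ ^ 2, by positivity, ?_⟩
    intro V A E _ _ _ _ _ s t π ε D L hε hεγ hD hL hval
    have hsε : 0 < Real.sqrt ε := Real.sqrt_pos.2 hε
    have triv : Fintype.card V ≤ D → ∃ x : V → A, (1 - γ) * (Fintype.card E : ℝ)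
        ≤ ((univ.filter fun e => π e (x (s e)) = x (t e)).card : ℝ) := by
      intro hVD
      obtain ⟨x, hx⟩ := hFT V A E L D s t π _ hVD hL hval
      refine ⟨x, le_trans ?_ hx⟩
      exact mul_le_mul_of_nonneg_right (by linarith) (by positivity)
    rcases Nat.lt_or_ge (Fintype.card V) 1 with hn | hn
    · exact triv (by omega)
    have hn1 : (1 : ℝ) ≤ (Fintype.card V : ℝ) := by exact_mod_cast hn
    by_cases hcase : Fintype.card V = 1
    · apply triv
      rw [hcase] at hD ⊢
      have : (1 : ℝ) ≤ D := by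
        rw [Nat.cast_one, Real.one_rpow, mul_one] at hD
        linarith
      exact_mod_cast this
    by_cases hε2 : γ ^ 2 / 6144 < ε
    · apply triv
      have h1 : γ / 79 ≤ Real.sqrt ε := by
        apply Real.le_sqrt_of_sq_le
        rw [div_pow]
        have : γ ^ 2 / 79 ^ 2 ≤ γ ^ 2 / 6144 :=
          div_le_div_of_nonneg_left (by positivity) (by norm_num) (by norm_num)
        linarith
      have h2 : 1 ≤ 1000000 / γ ^ 2 * Real.sqrt ε := by
        calc (1 : ℝ) ≤ 1000000 / γ ^ 2 * (γ / 79) := by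
              have : 1000000 / γ ^ 2 * (γ / 79) = 1000000 / (79 * γ) := by
                field_simp
              rw [this, le_div_iff₀ (by positivity)]
              linarith
          _ ≤ _ := mul_le_mul_of_nonneg_left h1 (by positivity)
      have h3 : (Fintype.card V : ℝ) ≤ (Fintype.card V : ℝ) ^ (1000000 / γ ^ 2 * Real.sqrt ε) := by
        have := Real.rpow_le_rpow_of_exponent_le hn1 h2
        rwa [Real.rpow_one] at this
      have h4 : (Fintype.card V : ℝ)
          ≤ 1000000 / γ ^ 2 * (Fintype.card V : ℝ) ^ (1000000 / γ ^ 2 * Real.sqrt ε) := by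
        have h5 : 0 ≤ (Fintype.card V : ℝ) ^ (1000000 / γ ^ 2 * Real.sqrt ε) := by positivity
        nlinarith
      exact_mod_cast h4.trans hD
    · have hε3 : ε ≤ γ ^ 2 / 6144 := not_lt.1 hε2
      have hn2 : (2 : ℝ) ≤ (Fintype.card V : ℝ) := by
        have : 2 ≤ Fintype.card V := by omega
        exact_mod_cast this
      have hl : 0 < Real.log (Fintype.card V : ℝ) := Real.log_pos (by linarith)
      have hq : 384 * (2 * ε / γ) / (γ / 8) ≤ 1 := by
        have e1 : 384 * (2 * ε / γ) / (γ / 8) = 6144 * ε / γ ^ 2 := by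
          field_simp
          ring
        rw [e1, div_le_one (by positivity)]
        linarith
      have hX1 : 1 ≤ (Fintype.card V : ℝ) ^ (5120 * Real.sqrt ε / γ ^ 2) :=
        Real.one_le_rpow hn1 (by positivity)
      have hX0 : 0 < (Fintype.card V : ℝ) ^ (5120 * Real.sqrt ε / γ ^ 2) := by linarith
      have hexp := exp_bd γ ε (Fintype.card V : ℝ) hγ hε hn2
      have hXK : (Fintype.card V : ℝ) ^ (5120 * Real.sqrt ε / γ ^ 2)
          ≤ (Fintype.card V : ℝ) ^ (1000000 / γ ^ 2 * Real.sqrt ε) := by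
        apply Real.rpow_le_rpow_of_exponent_le hn1
        have e1 : 5120 * Real.sqrt ε / γ ^ 2 = 5120 / γ ^ 2 * Real.sqrt ε := by ring
        rw [e1]
        apply mul_le_mul_of_nonneg_right _ hsε.le
        exact div_le_div_of_nonneg_right (by norm_num) (by positivity)
      generalize hXdef : (Fintype.card V : ℝ) ^ (5120 * Real.sqrt ε / γ ^ 2) = X at *
      generalize hYdef : Real.exp (-(8 * Real.sqrt (384 * (2 * ε / γ) / (γ / 8))
        / (γ / (8 * Real.log (Fintype.card V : ℝ))))) = Y at *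
      have hY0 : 0 < Y := lt_of_lt_of_le (by positivity) hexp
      have hΔ : 0 < (γ / 8) ^ 2 / 1920 * Y := by positivity
      have hk1 : 2 ≤ (⌈2 / ((γ / 8) ^ 2 / 1920 * Y)⌉₊ : ℝ) * ((γ / 8) ^ 2 / 1920 * Y) := by
        have := Nat.le_ceil (2 / ((γ / 8) ^ 2 / 1920 * Y))
        rwa [div_le_iff₀ hΔ] at this
      have hk2 : (⌈2 / ((γ / 8) ^ 2 / 1920 * Y)⌉₊ : ℝ) + 2 ≤ D := by
        have h1 := (Nat.ceil_lt_add_one (show 0 ≤ 2 / ((γ / 8) ^ 2 / 1920 * Y) by positivity)).le
        have h2 : 2 / ((γ / 8) ^ 2 / 1920 * Y) ≤ 245760 / γ ^ 2 * X := by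
          rw [div_le_iff₀ hΔ]
          have e1 : 245760 / γ ^ 2 * X * ((γ / 8) ^ 2 / 1920 * Y) = 2 * (X * Y) := by
            field_simp
            ring
          rw [e1]
          have h3 : X * X⁻¹ ≤ X * Y := mul_le_mul_of_nonneg_left hexp hX0.le
          rw [mul_inv_cancel₀ hX0.ne'] at h3
          linarith
        have h4 : (3 : ℝ) ≤ 3 / γ ^ 2 * X := by
          have h5 : (3 : ℝ) ≤ 3 / γ ^ 2 := by
            rw [le_div_iff₀ (by positivity)]
            nlinarith
          nlinarith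
        have h6 : 1000000 / γ ^ 2 * X
            ≤ 1000000 / γ ^ 2 * (Fintype.card V : ℝ) ^ (1000000 / γ ^ 2 * Real.sqrt ε) :=
          mul_le_mul_of_nonneg_left hXK (by positivity)
        have h7 : 245760 / γ ^ 2 * X + 3 / γ ^ 2 * X ≤ 1000000 / γ ^ 2 * X := by
          have h8 : 0 ≤ 1 / γ ^ 2 * X := by positivity
          have e2 : 245760 / γ ^ 2 * X = 245760 * (1 / γ ^ 2 * X) := by ring
          have e3 : 3 / γ ^ 2 * X = 3 * (1 / γ ^ 2 * X) := by ring
          have e4 : 1000000 / γ ^ 2 * X = 1000000 * (1 / γ ^ 2 * X) := by ring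
          rw [e2, e3, e4]
          linarith
        linarith
      have hk3 : ⌈2 / ((γ / 8) ^ 2 / 1920 * Y)⌉₊ + 2 ≤ D := by exact_mod_cast hk2
      obtain ⟨x, hx⟩ := hS4 V A E s t π (γ / (8 * Real.log (Fintype.card V : ℝ))) (γ / 8)
        (2 * ε / γ) ε ⌈2 / ((γ / 8) ^ 2 / 1920 * Y)⌉₊ L D (by positivity) (by positivity)
        (by positivity) hq (by rw [hYdef]; exact hk1) hk3 hL hval
      refine ⟨x, le_trans ?_ hx⟩
      rw [mul_comm]
      apply mul_le_mul_of_nonneg_left _ (by positivity)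
      have e1 : 2 * (γ / (8 * Real.log (Fintype.card V : ℝ))) * Real.log (Fintype.card V : ℝ)
          = γ / 4 := by
        field_simp
        ring
      have e2 : ε / (2 * (2 * ε / γ)) = γ / 4 := by
        field_simp
        ring
      have e3 : 2 * (2 * ε / γ) ≤ γ / 8 := by
        have : 2 * (2 * ε / γ) = 4 * ε / γ := by ring
        rw [this, div_le_iff₀ hγ]
        nlinarith
      rw [e1, e2]
      linarith

end Pool.Agent.H647R3.UG
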