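import Pool.Agent.H647R3.UG.Defs

namespace Pool.Agent.H647R3.UG

open Finset

namespace PA

variable {V : Type} [DecidableEq V]

theorem vol_pos {m : V → ℝ} {C : Finset V} (h : ∀ v ∈ C, 0 < m v) (hC : C.Nonempty) :
    0 < vol m C := sum_pos h hC

theorem vol_mono {m : V → ℝ} {C D : Finset V} (h : ∀ v ∈ D, 0 < m v) (hCD : C ⊆ D) :
    vol m C ≤ vol m D := sum_le_sum_of_subset_of_nonneg hCD (fun v hv _ => (h v hv).le)

theorem main (w : V → V → ℝ) (m : V → ℝ) (κ : ℝ) (hw : ∀ u v, 0 ≤ w u v)
    (hs : ∀ u v, w u v = w v u) (hκ : 0 ≤ κ) (C : Finset V) : (∀ v ∈ C, 0 < m v) →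
    ∃ c : V → V, (∀ v ∈ C, c v ∈ C) ∧ (∀ i, GoodIn w m κ (C.filter fun v => c v = i)) ∧
      ∑ u ∈ C, ∑ v ∈ C, (if c u = c v then 0 else w u v)
        ≤ 2 * κ * ∑ v ∈ C, m v * Real.log (vol m C / vol m (C.filter fun y => c y = c v)) := by
  induction C using Finset.strongInduction with
  | H C ih =>
    intro hm
    by_cases hgood : GoodIn w m κ C
    · rcases C.eq_empty_or_nonempty with rfl | ⟨v0, hv0⟩
      · refine ⟨id, by simp, ?_, by simp⟩
        intro i S hS hne
        simp only [filter_empty, subset_empty] at hS
        rw [hS] at hne
        exact absurd hne not_nonempty_empty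
      · refine ⟨fun _ => v0, fun _ _ => hv0, ?_, ?_⟩
        · intro i
          by_cases hi : v0 = i
          · rw [filter_true_of_mem (fun _ _ => hi)]; exact hgood
          · rw [filter_false_of_mem (fun _ _ => hi)]
            intro S hS hne
            rw [subset_empty] at hS
            rw [hS] at hne
            exact absurd hne not_nonempty_empty
        · simp only [if_true, sum_const_zero, filter_true]
          have : vol m C / vol m C = 1 := div_self (vol_pos hm ⟨v0, hv0⟩).ne'
          rw [this]
          simp
    · unfold GoodIn at hgood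
      push Not at hgood
      obtain ⟨S, hSC, hSne, hcut⟩ := hgood
      have hvC : 0 < vol m C := vol_pos hm (hSne.mono hSC)
      have hSC' : S ≠ C := by
        rintro rfl
        rw [div_self hvC.ne', Real.log_one, mul_zero, sdiff_self] at hcut
        simp [cutW] at hcut
      have hss : S ⊂ C := lt_of_le_of_ne hSC hSC'
      have hTne : (C \ S).Nonempty := sdiff_nonempty.2 (fun h => hSC' (subset_antisymm hSC h))
      have htt : C \ S ⊂ C := sdiff_ssubset hSC hSne
      have hmS : ∀ v ∈ S, 0 < m v := fun v hv => hm v (hSC hv)
      have hmT : ∀ v ∈ C \ S, 0 < m v := fun v hv => hm v (sdiff_subset hv)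
      obtain ⟨cS, cS1, cS2, cS3⟩ := ih S hss hmS
      obtain ⟨cT, cT1, cT2, cT3⟩ := ih (C \ S) htt hmT
      set T : Finset V := C \ S with hT
      have hCST : C = S ∪ T := by rw [hT, union_sdiff_of_subset hSC]
      have hdis : Disjoint S T := disjoint_sdiff
      set c : V → V := fun v => if v ∈ S then cS v else cT v with hc
      have hcS : ∀ v ∈ S, c v = cS v := fun v hv => by simp only [hc, if_pos hv]
      have hcT : ∀ v ∈ T, c v = cT v := fun v hv => by
        have : v ∉ S := (mem_sdiff.1 hv).2
        simp only [hc, if_neg this]
      -- classes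
      have hclS : ∀ i ∈ S, C.filter (fun v => c v = i) = S.filter (fun v => cS v = i) := by
        intro i hi
        ext v
        simp only [mem_filter]
        constructor
        · rintro ⟨h1, h2⟩
          rw [hCST, mem_union] at h1
          rcases h1 with h1 | h1
          · exact ⟨h1, by rw [← hcS v h1]; exact h2⟩
          · rw [hcT v h1] at h2
            have := cT1 v h1
            rw [h2] at this
            exact absurd hi (mem_sdiff.1 this).2
        · rintro ⟨h1, h2⟩
          exact ⟨hSC h1, by rw [hcS v h1]; exact h2⟩
      have hclT : ∀ i, i ∉ S → C.filter (fun v => c v = i) = T.filter (fun v => cT v = i) := by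
        intro i hi
        ext v
        simp only [mem_filter]
        constructor
        · rintro ⟨h1, h2⟩
          rw [hCST, mem_union] at h1
          rcases h1 with h1 | h1
          · rw [hcS v h1] at h2
            have := cS1 v h1
            rw [h2] at this
            exact absurd this hi
          · exact ⟨h1, by rw [← hcT v h1]; exact h2⟩
        · rintro ⟨h1, h2⟩
          exact ⟨sdiff_subset h1, by rw [hcT v h1]; exact h2⟩
      refine ⟨c, ?_, ?_, ?_⟩
      · intro v hv
        rw [hCST, mem_union] at hv
        rcases hv with hv | hv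
        · rw [hcS v hv]; exact hSC (cS1 v hv)
        · rw [hcT v hv]; exact sdiff_subset (cT1 v hv)
      · intro i
        by_cases hi : i ∈ S
        · rw [hclS i hi]; exact cS2 i
        · rw [hclT i hi]; exact cT2 i
      · have hST : ∀ u ∈ S, ∀ v ∈ T, c u ≠ c v := by
          intro u hu v hv h
          rw [hcS u hu, hcT v hv] at h
          have h1 := cS1 u hu
          have h2 := cT1 v hv
          rw [h] at h1
          exact (mem_sdiff.1 h2).2 h1
        have hsplit : ∀ f : V → ℝ, ∑ v ∈ C, f v = ∑ v ∈ S, f v + ∑ v ∈ T, f v := by
          intro f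
          rw [hCST, sum_union hdis]
        have k1 : ∑ u ∈ C, ∑ v ∈ C, (if c u = c v then 0 else w u v) =
            (∑ u ∈ S, ∑ v ∈ S, (if cS u = cS v then 0 else w u v)) +
            (∑ u ∈ T, ∑ v ∈ T, (if cT u = cT v then 0 else w u v)) +
            2 * cutW w S T := by
          rw [hsplit]
          simp only [hsplit, sum_add_distrib]
          have a1 : ∑ u ∈ S, ∑ v ∈ S, (if c u = c v then 0 else w u v) =
              ∑ u ∈ S, ∑ v ∈ S, (if cS u = cS v then 0 else w u v) :=
            sum_congr rfl fun u hu => sum_congr rfl fun v hv => by rw [hcS u hu, hcS v hv]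
          have a2 : ∑ u ∈ T, ∑ v ∈ T, (if c u = c v then 0 else w u v) =
              ∑ u ∈ T, ∑ v ∈ T, (if cT u = cT v then 0 else w u v) :=
            sum_congr rfl fun u hu => sum_congr rfl fun v hv => by rw [hcT u hu, hcT v hv]
          have a3 : ∑ u ∈ S, ∑ v ∈ T, (if c u = c v then 0 else w u v) = cutW w S T :=
            sum_congr rfl fun u hu => sum_congr rfl fun v hv => if_neg (hST u hu v hv)
          have a4 : ∑ u ∈ T, ∑ v ∈ S, (if c u = c v then 0 else w u v) = cutW w S T := by
            rw [sum_comm]
            refine sum_congr rfl fun u hu => sum_congr rfl fun v hv => ?_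
            rw [if_neg (fun h => hST u hu v hv h.symm), hs]
          rw [a1, a2, a3, a4]
          ring
        rw [k1]
        have hlogS : ∀ v ∈ S, Real.log (vol m C / vol m (C.filter fun y => c y = c v)) =
            Real.log (vol m S / vol m (S.filter fun y => cS y = cS v)) +
              Real.log (vol m C / vol m S) := by
          intro v hv
          have hi : c v ∈ S := by rw [hcS v hv]; exact cS1 v hv
          rw [hclS _ hi, hcS v hv]
          have h1 : 0 < vol m (S.filter fun y => cS y = cS v) :=
            vol_pos (fun y hy => hmS y (filter_subset _ _ hy)) ⟨v, by simp [hv]⟩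
          have h2 : 0 < vol m S := vol_pos hmS hSne
          rw [Real.log_div hvC.ne' h1.ne', Real.log_div h2.ne' h1.ne',
            Real.log_div hvC.ne' h2.ne']
          ring
        have hlogT : ∀ v ∈ T, Real.log (vol m T / vol m (T.filter fun y => cT y = cT v)) ≤
            Real.log (vol m C / vol m (C.filter fun y => c y = c v)) := by
          intro v hv
          have hi : c v ∉ S := by
            rw [hcT v hv]; exact (mem_sdiff.1 (cT1 v hv)).2
          rw [hclT _ hi, hcT v hv]
          have h1 : 0 < vol m (T.filter fun y => cT y = cT v) :=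
            vol_pos (fun y hy => hmT y (filter_subset _ _ hy)) ⟨v, by simp [hv]⟩
          have h2 : 0 < vol m T := vol_pos hmT hTne
          apply Real.log_le_log (div_pos h2 h1)
          apply div_le_div_of_nonneg_right _ h1.le
          exact vol_mono hm sdiff_subset
        have k2 : ∑ v ∈ C, m v * Real.log (vol m C / vol m (C.filter fun y => c y = c v)) ≥
            (∑ v ∈ S, m v * Real.log (vol m S / vol m (S.filter fun y => cS y = cS v))) +
            vol m S * Real.log (vol m C / vol m S) +
            ∑ v ∈ T, m v * Real.log (vol m T / vol m (T.filter fun y => cT y = cT v)) := by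
          rw [hsplit]
          have b1 : ∑ v ∈ S, m v * Real.log (vol m C / vol m (C.filter fun y => c y = c v)) =
              (∑ v ∈ S, m v * Real.log (vol m S / vol m (S.filter fun y => cS y = cS v))) +
              vol m S * Real.log (vol m C / vol m S) := by
            unfold vol
            rw [sum_mul, ← sum_add_distrib]
            refine sum_congr rfl fun v hv => ?_
            have := hlogS v hv
            unfold vol at this
            rw [this]
            ring
          have b2 : ∑ v ∈ T, m v * Real.log (vol m T / vol m (T.filter fun y => cT y = cT v)) ≤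
              ∑ v ∈ T, m v * Real.log (vol m C / vol m (C.filter fun y => c y = c v)) :=
            sum_le_sum fun v hv => mul_le_mul_of_nonneg_left (hlogT v hv) (hmT v hv).le
          rw [b1]
          linarith
        have k3 : 2 * κ * ∑ v ∈ C, m v * Real.log (vol m C / vol m (C.filter fun y => c y = c v)) ≥
            2 * κ * ((∑ v ∈ S, m v * Real.log (vol m S / vol m (S.filter fun y => cS y = cS v))) +
            vol m S * Real.log (vol m C / vol m S) +
            ∑ v ∈ T, m v * Real.log (vol m T / vol m (T.filter fun y => cT y = cT v))) :=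
          mul_le_mul_of_nonneg_left k2 (by positivity)
        have k4 : 2 * κ * ((∑ v ∈ S, m v * Real.log (vol m S / vol m (S.filter fun y => cS y = cS v))) +
            vol m S * Real.log (vol m C / vol m S) +
            ∑ v ∈ T, m v * Real.log (vol m T / vol m (T.filter fun y => cT y = cT v))) =
            2 * κ * (∑ v ∈ S, m v * Real.log (vol m S / vol m (S.filter fun y => cS y = cS v))) +
            2 * κ * (∑ v ∈ T, m v * Real.log (vol m T / vol m (T.filter fun y => cT y = cT v))) +
            2 * (κ * vol m S * Real.log (vol m C / vol m S)) := by ring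
        linarith

end PA

theorem T_PA : St_PA := by
  intro V _ w m C κ hw hs hm hκ
  obtain ⟨c, -, h1, h2⟩ := PA.main w m κ hw hs hκ C hm
  exact ⟨c, h1, h2⟩

end Pool.Agent.H647R3.UG
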