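import Pool.Agent.H647R3.UG.Defs

namespace Pool.Agent.H647R3.UG

open Finset

theorem T_S1 (hGCF : St_GCF) (hRA : St_RA) (hRB : St_RB) (hRD : St_RD) (hFB : St_FB)
    (hFV : St_FV) (hFD : St_FD) (hWT : St_WT) : St_S1 := by
  intro V A E _ _ _ _ _ s t π C L D κ c0 ε' hD hL hpos hC hκ hgood hc0 hε hτ hPhi hErr
  obtain ⟨hlaw, hpr0, hsymm, hdiag, hsat, hsat1⟩ := hFB V A L D hD hL
  obtain ⟨hw0, hws, hwd, hwC, hwsum, hwend, hwF, hwh, hwins⟩ := hWT V E s t
  obtain ⟨J, instJ, U, hU⟩ := hFV V A L D hD hL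
  have hFD' := hFD V A L D hD hL
  have hM : 0 < vol (dgr s t) C := sum_pos (fun u hu => hpos u hu) hC
  -- the diagonal of the kernel
  have hkk : ∀ u, kr L u u = ker (dg (pr L u)) (pr L u) (pr L u) := fun u => by
    unfold kr; rw [hdiag]
  have hvr : ∀ u, vr L u / 8 ≤ kr L u u := fun u => by
    rw [hkk]; exact hRB A (pr L u) (hpr0 u) (hlaw u u).one
  have hTk : ∑ u ∈ C, dgr s t u * ∑ j, U j u ^ 2 = ∑ u ∈ C, dgr s t u * kr L u u := by
    refine sum_congr rfl fun u _ => ?_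
    rw [hU u u]
    congr 1
    exact sum_congr rfl fun j _ => by ring
  have hT1 : Phi s t C L / 8 ≤ ∑ u ∈ C, dgr s t u * ∑ j, U j u ^ 2 := by
    rw [hTk]
    unfold Phi
    rw [sum_div]
    refine sum_le_sum fun u hu => ?_
    rw [mul_div_assoc]
    exact mul_le_mul_of_nonneg_left (hvr u) (hpos u hu).le
  have hT2 : c0 * vol (dgr s t) C / 8 ≤ ∑ u ∈ C, dgr s t u * ∑ j, U j u ^ 2 :=
    le_trans (by linarith) hT1
  have hT0 : 0 < ∑ u ∈ C, dgr s t u * ∑ j, U j u ^ 2 :=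
    lt_of_lt_of_le (by positivity) hT2
  -- the energy
  have hks : ∀ u v, kr L u v = kr L v u := by
    intro u v
    rw [hU u v, hU v u]
    exact sum_congr rfl fun j _ => mul_comm _ _
  have hgram : ∀ u v, ∑ j, (U j u - U j v) ^ 2 = kr L u u + kr L v v - 2 * kr L u v := by
    intro u v
    rw [hU u u, hU v v, hU u v, mul_sum, ← sum_add_distrib, ← sum_sub_distrib]
    exact sum_congr rfl fun j _ => by ring
  have hen : (1 / 2) * ∑ u ∈ C, ∑ v ∈ C, wt s t u v * ∑ j, (U j u - U j v) ^ 2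
      = ∑ e ∈ ins s t C, (kr L (s e) (s e) + kr L (t e) (t e) - 2 * kr L (s e) (t e)) := by
    simp_rw [hgram]
    rw [hwF C (fun u v => kr L u u + kr L v v - 2 * kr L u v)]
    · ring
    · intro u v
      rw [hks u v]; ring
  have hen2 : (1 / 2) * ∑ u ∈ C, ∑ v ∈ C, wt s t u v * ∑ j, (U j u - U j v) ^ 2
      ≤ 24 * (ε' * vol (dgr s t) C) := by
    rw [hen]
    refine le_trans ?_ (mul_le_mul_of_nonneg_left hErr (by norm_num))
    unfold Err
    rw [mul_sum]
    refine sum_le_sum fun e _ => ?_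
    rw [hkk, hkk, hsat]
    exact hRA A _ _ _ (π e) (hlaw (s e) (t e))
  have hτ0 : 0 < 192 * ε' / c0 := by positivity
  have hgc := hGCF V J (wt s t) (dgr s t) C U κ (192 * ε' / c0) hw0 hws hpos (hwC C) hκ hgood
    hτ0 hτ hT0 (by
      refine hen2.trans ?_
      refine le_trans ?_ (mul_le_mul_of_nonneg_left hT2 hτ0.le)
      have : 192 * ε' / c0 * (c0 * vol (dgr s t) C / 8) = 24 * (ε' * vol (dgr s t) C) := by
        field_simp
        ring
      rw [this])
  -- Delta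
  set X := Real.exp (-(8 * Real.sqrt (192 * ε' / c0) / κ)) with hX
  have hX0 : 0 < X := Real.exp_pos _
  have hlow : c0 ^ 2 / 1920 * X * vol (dgr s t) C ^ 2
      ≤ ∑ u ∈ C, ∑ v ∈ C, dgr s t u * dgr s t v * (kr L u v) ^ 2 := by
    simp_rw [← hU] at hgc
    refine le_trans ?_ hgc
    have h1 : (c0 * vol (dgr s t) C / 8) ^ 2 ≤ (∑ u ∈ C, dgr s t u * ∑ j, U j u ^ 2) ^ 2 :=
      pow_le_pow_left₀ (by positivity) hT2 2
    have h2 : c0 ^ 2 / 1920 * X * vol (dgr s t) C ^ 2 =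
        (c0 * vol (dgr s t) C / 8) ^ 2 / 30 * X := by ring
    rw [h2]
    exact mul_le_mul_of_nonneg_right (by linarith) hX0.le
  -- the kernel and dec
  have hdec : ∀ u v, (kr L u v) ^ 2 ≤ (dec L u v + dec L v u) / 2 := by
    intro u v
    obtain ⟨h1, h2, h3, h4⟩ := hRD A (pr2 L u v) (pr L u) (pr L v) (hlaw u v)
    have e1 : (∑ a, ∑ b, (pr2 L u v a b - pr L u a * pr L v b) ^ 2 / pr L u a) = dec L u v := rfl
    have e2 : (∑ a, ∑ b, (pr2 L u v a b - pr L u a * pr L v b) ^ 2 / pr L v b) = dec L v u := by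
      unfold dec
      rw [sum_comm]
      refine sum_congr rfl fun b _ => sum_congr rfl fun a _ => ?_
      rw [hsymm u v a b, mul_comm (pr L u a)]
    rw [e1] at h2 h3
    rw [e2] at h2 h4
    have h5 : kr L u v = ker (pr2 L u v) (pr L u) (pr L v) := rfl
    rw [← h5] at h1 h2
    have h6 : kr L u v ≤ 1 := by linarith
    nlinarith
  have hup : ∑ u ∈ C, ∑ v ∈ C, dgr s t u * dgr s t v * (kr L u v) ^ 2
      ≤ ∑ u ∈ C, dgr s t u * ∑ v ∈ C, dgr s t v * dec L u v := by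
    have h1 : ∑ u ∈ C, ∑ v ∈ C, dgr s t u * dgr s t v * (kr L u v) ^ 2
        ≤ ∑ u ∈ C, ∑ v ∈ C, dgr s t u * dgr s t v * ((dec L u v + dec L v u) / 2) :=
      sum_le_sum fun u hu => sum_le_sum fun v hv =>
        mul_le_mul_of_nonneg_left (hdec u v) (mul_pos (hpos u hu) (hpos v hv)).le
    refine h1.trans (le_of_eq ?_)
    have h2 : ∑ u ∈ C, ∑ v ∈ C, dgr s t u * dgr s t v * ((dec L u v + dec L v u) / 2)
        = (∑ u ∈ C, ∑ v ∈ C, dgr s t u * dgr s t v * dec L u v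
          + ∑ u ∈ C, ∑ v ∈ C, dgr s t u * dgr s t v * dec L v u) / 2 := by
      rw [← sum_add_distrib, sum_div]
      refine sum_congr rfl fun u _ => ?_
      rw [← sum_add_distrib, sum_div]
      refine sum_congr rfl fun v _ => ?_
      ring
    have h3 : ∑ u ∈ C, ∑ v ∈ C, dgr s t u * dgr s t v * dec L v u
        = ∑ u ∈ C, ∑ v ∈ C, dgr s t u * dgr s t v * dec L u v := by
      rw [sum_comm]
      refine sum_congr rfl fun u _ => sum_congr rfl fun v _ => ?_
      ring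
    rw [h2, h3]
    have h4 : ∑ u ∈ C, ∑ v ∈ C, dgr s t u * dgr s t v * dec L u v
        = ∑ u ∈ C, dgr s t u * ∑ v ∈ C, dgr s t v * dec L u v := by
      refine sum_congr rfl fun u _ => ?_
      rw [mul_sum]
      exact sum_congr rfl fun v _ => by ring
    rw [h4]
    ring
  have hex : ∃ u ∈ C, dgr s t u * (c0 ^ 2 / 1920 * X * vol (dgr s t) C)
      ≤ dgr s t u * ∑ v ∈ C, dgr s t v * dec L u v := by
    apply exists_le_of_sum_le hC
    refine le_trans (le_of_eq ?_) (hlow.trans hup)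
    rw [← sum_mul]
    unfold vol
    ring
  obtain ⟨u, hu, hle⟩ := hex
  refine ⟨u, hu, ?_⟩
  have h1 := le_of_mul_le_mul_left hle (hpos u hu)
  refine h1.trans (le_of_eq ?_)
  unfold Phi
  have h2 : ∑ a, pr L u a * ∑ v ∈ C, dgr s t v * vr (cnd L u a) v
      = ∑ v ∈ C, dgr s t v * ∑ a, pr L u a * vr (cnd L u a) v := by
    simp_rw [mul_sum]
    rw [sum_comm]
    refine sum_congr rfl fun v _ => sum_congr rfl fun a _ => ?_
    ring
  rw [h2, ← sum_sub_distrib]
  refine sum_congr rfl fun v _ => ?_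
  rw [hFD' u v]
  ring

end Pool.Agent.H647R3.UG
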