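import Pool.Agent.H647R3.UG.Defs

namespace Pool.Agent.H647R3.UG

open Finset

namespace S2

theorem vr_bounds (hFB : St_FB) {V A : Type} [Fintype V] [DecidableEq V] [Fintype A]
    [DecidableEq A] {L : ((V → A) → ℝ) →ₗ[ℝ] ℝ} {D : ℕ} (hD : 2 ≤ D) (hL : IsPE D L) (v : V) :
    0 ≤ vr L v ∧ vr L v ≤ 1 := by
  obtain ⟨hlaw, hpr0, hsymm, hdiag, hsat, hsat1⟩ := hFB V A L D hD hL
  have h1 : ∑ a, pr L v a = 1 := (hlaw v v).one
  have h2 : ∀ a, pr L v a ≤ 1 := fun a => by
    rw [← h1]
    exact single_le_sum (fun a _ => hpr0 v a) (mem_univ a)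
  have h3 : ∑ a, pr L v a ^ 2 ≤ 1 := by
    calc ∑ a, pr L v a ^ 2 ≤ ∑ a, pr L v a :=
          sum_le_sum fun a _ => by nlinarith [hpr0 v a, h2 a]
      _ = 1 := h1
  have h4 : 0 ≤ ∑ a, pr L v a ^ 2 := sum_nonneg fun a _ => sq_nonneg _
  unfold vr
  constructor <;> linarith

theorem phi_bounds (hFB : St_FB) {V A E : Type} [Fintype V] [DecidableEq V] [Fintype A]
    [DecidableEq A] [Fintype E] (s t : E → V) (C : Finset V) (hpos : ∀ u ∈ C, 0 < dgr s t u)
    {L : ((V → A) → ℝ) →ₗ[ℝ] ℝ} {D : ℕ} (hD : 2 ≤ D) (hL : IsPE D L) :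
    0 ≤ Phi s t C L ∧ Phi s t C L ≤ vol (dgr s t) C := by
  constructor
  · exact sum_nonneg fun v hv => mul_nonneg (hpos v hv).le (vr_bounds hFB hD hL v).1
  · refine sum_le_sum fun v hv => ?_
    have := hpos v hv
    have := (vr_bounds hFB hD hL v).2
    nlinarith

theorem err_nonneg (hFB : St_FB) {V A E : Type} [Fintype V] [DecidableEq V] [Fintype A]
    [DecidableEq A] [Fintype E] (s t : E → V) (π : E → Equiv.Perm A) (C : Finset V)
    {L : ((V → A) → ℝ) →ₗ[ℝ] ℝ} {D : ℕ} (hD : 2 ≤ D) (hL : IsPE D L) :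
    0 ≤ Err s t π C L := by
  obtain ⟨hlaw, hpr0, hsymm, hdiag, hsat, hsat1⟩ := hFB V A L D hD hL
  exact sum_nonneg fun e _ => by linarith [hsat1 (s e) (t e) (π e)]

theorem err_avg (hFL : St_FL) (hFB : St_FB) (hFC : St_FC) {V A E : Type} [Fintype V]
    [DecidableEq V] [Fintype A] [DecidableEq A] [Fintype E] (s t : E → V)
    (π : E → Equiv.Perm A) (C : Finset V)
    {L : ((V → A) → ℝ) →ₗ[ℝ] ℝ} {D : ℕ} (hD : 2 ≤ D) (hL : IsPE D L) (u : V) :
    ∑ a, pr L u a * Err s t π C (cnd L u a) = Err s t π C L := by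
  obtain ⟨hlaw, hpr0, hsymm, hdiag, hsat, hsat1⟩ := hFB V A L D hD hL
  obtain ⟨h1, h2, h3, h4⟩ := hFC V A L D (by omega) hL
  obtain ⟨f1, f2, f3, f4, f5, f6⟩ := hFL V A
  have hone : ∑ a, pr L u a = 1 := (hlaw u u).one
  unfold Err
  simp_rw [mul_sum]
  rw [sum_comm]
  refine sum_congr rfl fun e _ => ?_
  simp_rw [mul_sub, mul_one]
  rw [sum_sub_distrib, hone, h3 u _ (f4 2 D hD (f3 (s e) (t e) (π e)))]

end S2

open S2 in
theorem T_S2 (hS1 : St_S1) (hFL : St_FL) (hFB : St_FB) (hFC : St_FC) : St_S2 := by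
  intro V A E _ _ _ _ _ s t π C κ c0 ε0 k hpos hC hκ hgood hc0 hε hτ hk
  have hM : 0 < vol (dgr s t) C := sum_pos (fun u hu => hpos u hu) hC
  set M := vol (dgr s t) C with hMdef
  set Δ := c0 ^ 2 / 1920 * Real.exp (-(8 * Real.sqrt (384 * ε0 / c0) / κ)) with hΔ
  have hΔ0 : 0 < Δ := by positivity
  -- the potential
  have key : ∀ k' : ℕ, ∀ (L : ((V → A) → ℝ) →ₗ[ℝ] ℝ) (D : ℕ), k' + 2 ≤ D → IsPE D L →
      Phi s t C L / M + Err s t π C L / (ε0 * M) ≤ 2 →
      Phi s t C L / M + Err s t π C L / (ε0 * M) ≤ k' * Δ →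
      ∃ L' : ((V → A) → ℝ) →ₗ[ℝ] ℝ, IsPE 2 L' ∧ Phi s t C L' ≤ c0 * M ∧
      Err s t π C L' ≤ 2 * ε0 * M := by
    intro k'
    induction k' with
    | zero =>
      intro L D hD hL h2 hk'
      obtain ⟨hp0, hp1⟩ := phi_bounds hFB s t C hpos (by omega) hL
      have he0 := err_nonneg hFB s t π C (by omega) hL
      have h1 : 0 ≤ Phi s t C L / M := by positivity
      have h3 : 0 ≤ Err s t π C L / (ε0 * M) := by positivity
      have h4 : Phi s t C L / M ≤ 0 := by
        push_cast at hk'; linarith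
      have h5 : Err s t π C L / (ε0 * M) ≤ 0 := by
        push_cast at hk'; linarith
      rw [div_le_iff₀ hM] at h4
      rw [div_le_iff₀ (by positivity)] at h5
      refine ⟨L, (hFC V A L D (by omega) hL).2.2.2 2 (by omega), ?_, ?_⟩
      · have : 0 < c0 * M := by positivity
        linarith
      · have : 0 < 2 * ε0 * M := by positivity
        linarith
    | succ k' ih =>
      intro L D hD hL h2 hk'
      obtain ⟨hp0, hp1⟩ := phi_bounds hFB s t C hpos (by omega) hL
      have he0 := err_nonneg hFB s t π C (by omega) hL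
      have h1 : 0 ≤ Phi s t C L / M := by positivity
      have h3 : 0 ≤ Err s t π C L / (ε0 * M) := by positivity
      have herr : Err s t π C L ≤ 2 * ε0 * M := by
        have h5 : Err s t π C L / (ε0 * M) ≤ 2 := by linarith
        rw [div_le_iff₀ (by positivity)] at h5
        linarith
      rcases le_total (Phi s t C L) (c0 * M) with hc | hc
      · exact ⟨L, (hFC V A L D (by omega) hL).2.2.2 2 (by omega), hc, herr⟩
      · have e1 : 192 * (2 * ε0) / c0 = 384 * ε0 / c0 := by ring
        obtain ⟨u, hu, hle⟩ := hS1 V A E s t π C L D κ c0 (2 * ε0) (by omega) hL hpos hC hκ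
          hgood hc0 (by positivity) (by rw [e1]; exact hτ) hc herr
        rw [e1, ← hΔ, ← hMdef] at hle
        obtain ⟨hlaw, hpr0, hsymm, hdiag, hsat, hsat1⟩ := hFB V A L D (by omega) hL
        have hone : ∑ a, pr L u a = 1 := (hlaw u u).one
        have havg := err_avg hFL hFB hFC s t π C (by omega) hL u
        -- some a
        have hex : ∃ a, 0 < pr L u a ∧
            Phi s t C (cnd L u a) / M + Err s t π C (cnd L u a) / (ε0 * M)
              ≤ Phi s t C L / M + Err s t π C L / (ε0 * M) - Δ := by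
          by_contra hne
          push Not at hne
          have hs : ∑ a, pr L u a * (Phi s t C (cnd L u a) / M
              + Err s t π C (cnd L u a) / (ε0 * M))
              ≤ Phi s t C L / M + Err s t π C L / (ε0 * M) - Δ := by
            have e2 : ∑ a, pr L u a * (Phi s t C (cnd L u a) / M
              + Err s t π C (cnd L u a) / (ε0 * M))
              = (∑ a, pr L u a * Phi s t C (cnd L u a)) / M + Err s t π C L / (ε0 * M) := by
              rw [← havg, sum_div, sum_div, ← sum_add_distrib]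
              refine sum_congr rfl fun a _ => ?_
              ring
            rw [e2]
            have h6 : (∑ a, pr L u a * Phi s t C (cnd L u a)) / M ≤ Phi s t C L / M - Δ := by
              rw [div_le_iff₀ hM, sub_mul, div_mul_cancel₀ _ hM.ne']
              linarith
            linarith
          -- there is a with positive probability
          have hpos' : ∃ a, 0 < pr L u a := by
            by_contra hno
            push Not at hno
            have : ∑ a, pr L u a ≤ 0 := sum_nonpos fun a _ => hno a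
            linarith
          obtain ⟨a0, ha0⟩ := hpos'
          have hlt : ∑ a, pr L u a * (Phi s t C L / M + Err s t π C L / (ε0 * M) - Δ)
              < ∑ a, pr L u a * (Phi s t C (cnd L u a) / M
              + Err s t π C (cnd L u a) / (ε0 * M)) := by
            apply sum_lt_sum
            · intro a _
              rcases (hpr0 u a).lt_or_eq with h | h
              · exact mul_le_mul_of_nonneg_left (hne a h).le h.le
              · rw [← h, zero_mul, zero_mul]
            · exact ⟨a0, mem_univ _, mul_lt_mul_of_pos_left (hne a0 ha0) ha0⟩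
          rw [← sum_mul, hone, one_mul] at hlt
          linarith
        obtain ⟨a, ha, hle2⟩ := hex
        have hL' := (hFC V A L D (by omega) hL).2.1 u a ha
        refine ih (cnd L u a) (D - 1) (by omega) hL' ?_ ?_
        · linarith
        · push_cast at hk'
          linarith
  intro L D hD hL hErr
  obtain ⟨hp0, hp1⟩ := phi_bounds hFB s t C hpos (by omega) hL
  have h1 : Phi s t C L / M ≤ 1 := by rw [div_le_one hM]; exact hp1
  have h2 : Err s t π C L / (ε0 * M) ≤ 1 := by rw [div_le_one (by positivity)]; exact hErr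
  exact key k L D hD hL (by linarith) (by linarith)

end Pool.Agent.H647R3.UG
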