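import Pool.Agent.H647R3.UG.Defs

namespace Pool.Agent.H647R3.UG
open Finset

theorem T_S3 (hFB : St_FB) (hWT : St_WT) : St_S3 := by
  intro V A E _ _ _ _ _ s t π C L hL
  obtain ⟨hlaw, hnn, hsym, hdg, hsat, hle⟩ := hFB V A L 2 le_rfl hL
  have hne : ∀ v : V, ∃ a : A, ∀ b, pr L v b ≤ pr L v a := by
    intro v
    have h1 := (hlaw v v).one
    have hA : Nonempty A := by
      by_contra h
      rw [not_nonempty_iff] at h
      simp at h1
    obtain ⟨a, -, ha⟩ := Finset.exists_max_image (univ : Finset A) (pr L v) univ_nonempty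
    exact ⟨a, fun b => ha b (mem_univ b)⟩
  choose x hx using hne
  refine ⟨x, ?_⟩
  have hvr : ∀ v, 1 - pr L v (x v) ≤ vr L v := by
    intro v
    unfold vr
    have : ∑ b, pr L v b ^ 2 ≤ ∑ b, pr L v b * pr L v (x v) :=
      Finset.sum_le_sum fun b _ => by
        rw [sq]; exact mul_le_mul_of_nonneg_left (hx v b) (hnn v b)
    rw [← Finset.sum_mul, (hlaw v v).one, one_mul] at this
    linarith
  have hvr0 : ∀ v, 0 ≤ vr L v := by
    intro v
    have : pr L v (x v) ≤ 1 := by
      rw [← (hlaw v v).one]
      exact Finset.single_le_sum (f := pr L v) (fun b _ => hnn v b) (mem_univ _)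
    linarith [hvr v]
  have key : ∀ u v (σ : Equiv.Perm A), σ (x u) ≠ x v →
      1 ≤ vr L u + vr L v + (1 - L (sat u v σ)) := by
    intro u v σ hne
    rw [hsat]
    have hl := hlaw u v
    have h1 : pr L u (x u) + pr L v (x v) - 1 ≤ pr2 L u v (x u) (x v) := by
      have h2 : pr L v (x v) ≤ ∑ a, (if a = x u then pr2 L u v a (x v) else pr L u a) := by
        rw [← hl.right]
        refine Finset.sum_le_sum fun a _ => ?_
        split_ifs with h
        · exact le_rfl
        · rw [← hl.left]
          exact Finset.single_le_sum (f := fun b => pr2 L u v a b)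
            (fun b _ => hl.nonneg a b) (mem_univ _)
      have h3 : ∑ a, (if a = x u then pr2 L u v a (x v) else pr L u a)
          = pr2 L u v (x u) (x v) + (1 - pr L u (x u)) := by
        rw [← hl.one]
        have h4 : ∀ a, (if a = x u then pr2 L u v a (x v) else pr L u a)
            = pr L u a + (if a = x u then pr2 L u v a (x v) - pr L u a else 0) := by
          intro a
          split_ifs <;> ring
        simp only [h4]
        rw [Finset.sum_add_distrib, Finset.sum_ite_eq' univ (x u)]
        simp
        ring
      linarith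
    have h2 : ∑ a, pr2 L u v a (σ a) + pr2 L u v (x u) (x v) ≤ 1 := by
      have h5 : ∑ a, pr2 L u v a (σ a) + pr2 L u v (x u) (x v)
          = ∑ a, (pr2 L u v a (σ a) + if a = x u then pr2 L u v a (x v) else 0) := by
        rw [Finset.sum_add_distrib, Finset.sum_ite_eq' univ (x u)]
        simp
      rw [h5, ← hl.one]
      refine Finset.sum_le_sum fun a _ => ?_
      rw [← hl.left a]
      split_ifs with h
      · subst h
        have h6 : ∑ b ∈ ({σ (x u), x v} : Finset A), pr2 L u v (x u) b
            ≤ ∑ b, pr2 L u v (x u) b :=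
          Finset.sum_le_sum_of_subset_of_nonneg (Finset.subset_univ _)
            (fun b _ _ => hl.nonneg _ b)
        rwa [Finset.sum_pair hne] at h6
      · rw [add_zero]
        exact Finset.single_le_sum (f := fun b => pr2 L u v a b)
            (fun b _ => hl.nonneg a b) (mem_univ _)
    have h3 := hvr u
    have h4 := hvr v
    linarith
  have hS : (((ins s t C).filter fun e => π e (x (s e)) ≠ x (t e)).card : ℝ)
      ≤ ∑ e ∈ ins s t C, ((vr L (s e) + vr L (t e)) + (1 - L (sat (s e) (t e) (π e)))) := by
    rw [Finset.card_filter, Nat.cast_sum]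
    refine Finset.sum_le_sum fun e _ => ?_
    split_ifs with h
    · push_cast
      exact key _ _ _ h
    · push_cast
      have h1 := hle (s e) (t e) (π e)
      have h2 := hvr0 (s e)
      have h3 := hvr0 (t e)
      linarith
  rw [Finset.sum_add_distrib] at hS
  have h8 := (hWT V E s t).2.2.2.2.2.2.2.1 C (fun v => vr L v) hvr0
  unfold Phi Err
  linarith

end Pool.Agent.H647R3.UG
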