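import Pool.Agent.H647R3.UG.Defs

namespace Pool.Agent.H647R3.UG

open Finset

theorem T_S4 (hPA : St_PA) (hEN : St_EN) (hS2 : St_S2) (hS3 : St_S3) (hWT : St_WT)
    (hFB : St_FB) : St_S4 := by
  intro V A E _ _ _ _ _ s t π κ c0 ε0 ε k L D hκ hc0 hε0 hτ hk hD hL hval
  obtain ⟨hlaw, hpr0, hsymm, hdiag, hsat, hsat1⟩ := hFB V A L D (by omega) hL
  obtain ⟨hw0, hws, hwd, hwC, hwsum, hwend, hwF, hwh, hwins⟩ := hWT V E s t
  -- a default labelling
  obtain ⟨x0⟩ : Nonempty (V → A) := by
    by_contra hne
    rw [not_nonempty_iff] at hne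
    have h1 := hL.one
    have h2 : (fun _ : V → A => (1 : ℝ)) = 0 := Subsingleton.elim _ _
    rw [h2, map_zero] at h1
    exact zero_ne_one h1
  have hd0 : ∀ v, 0 ≤ dgr s t v := fun v => by unfold dgr; positivity
  set C0 : Finset V := univ.filter fun v => 0 < dgr s t v with hC0
  have hC0pos : ∀ v ∈ C0, 0 < dgr s t v := fun v hv => (mem_filter.1 hv).2
  have hins : ins s t C0 = univ := by
    ext e
    simp only [ins, hC0, mem_filter, mem_univ, true_and]
    exact iff_true_intro (hwend e)
  obtain ⟨c, hgood, hcut⟩ := hPA V (wt s t) (dgr s t) C0 κ hw0 hws hC0pos hκ.le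
  have hvol0 : 0 ≤ vol (dgr s t) C0 := sum_nonneg fun v _ => hd0 v
  have hvol2 : vol (dgr s t) C0 ≤ 2 * (Fintype.card E : ℝ) := by
    rw [← hwsum]
    exact sum_le_sum_of_subset_of_nonneg (subset_univ _) fun v _ _ => hd0 v
  -- the number of cut edges
  have hcut2 : ∑ e, (if c (s e) = c (t e) then (0 : ℝ) else 1)
      ≤ 2 * κ * (Fintype.card E : ℝ) * Real.log (Fintype.card V) := by
    have h1 : ∑ u ∈ C0, ∑ v ∈ C0, (if c u = c v then 0 else wt s t u v)
        = 2 * ∑ e, (if c (s e) = c (t e) then (0 : ℝ) else 1) := by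
      rw [← hins, ← hwF C0 (fun u v => if c u = c v then (0 : ℝ) else 1)]
      · refine sum_congr rfl fun u _ => sum_congr rfl fun v _ => ?_
        split_ifs <;> simp
      · intro u v
        by_cases h : c u = c v
        · rw [if_pos h, if_pos h.symm]
        · rw [if_neg h, if_neg (fun h' => h h'.symm)]
    have h2 : ∑ v ∈ C0, dgr s t v *
          Real.log (vol (dgr s t) C0 / vol (dgr s t) (C0.filter fun y => c y = c v))
        ≤ ∑ v ∈ C0, dgr s t v * Real.log (vol (dgr s t) C0 / dgr s t v) := by
      refine sum_le_sum fun v hv => mul_le_mul_of_nonneg_left ?_ (hd0 v)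
      have hpos := hC0pos v hv
      have h3 : dgr s t v ≤ vol (dgr s t) (C0.filter fun y => c y = c v) :=
        single_le_sum (f := dgr s t) (fun y _ => hd0 y) (mem_filter.2 ⟨hv, rfl⟩)
      have h4 : dgr s t v ≤ vol (dgr s t) C0 :=
        single_le_sum (f := dgr s t) (fun y _ => hd0 y) hv
      apply Real.log_le_log
      · exact div_pos (lt_of_lt_of_le hpos h4) (lt_of_lt_of_le hpos h3)
      · exact div_le_div_of_nonneg_left hvol0 hpos h3
    have h5 := hEN V (dgr s t) C0 hC0pos
    have h6 : Real.log (C0.card : ℝ) ≤ Real.log (Fintype.card V) := by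
      rcases C0.eq_empty_or_nonempty with h | h
      · rw [h]; simp [Real.log_natCast_nonneg]
      · apply Real.log_le_log
        · exact_mod_cast h.card_pos
        · exact_mod_cast card_le_univ C0
    have h7 : 0 ≤ Real.log (Fintype.card V) := Real.log_natCast_nonneg _
    have h8 : vol (dgr s t) C0 * Real.log (C0.card : ℝ)
        ≤ 2 * (Fintype.card E : ℝ) * Real.log (Fintype.card V) :=
      (mul_le_mul_of_nonneg_left h6 hvol0).trans (mul_le_mul_of_nonneg_right hvol2 h7)
    rw [h1] at hcut
    have h9 := mul_le_mul_of_nonneg_left (h2.trans (h5.trans h8))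
      (by positivity : (0 : ℝ) ≤ 2 * κ)
    nlinarith [hcut, h9]
  -- each class
  have hcls : ∀ i : V, ∃ x : V → A,
      (((ins s t (C0.filter fun v => c v = i)).filter
        fun e => π e (x (s e)) ≠ x (t e)).card : ℝ)
      ≤ (c0 + 2 * ε0) * vol (dgr s t) (C0.filter fun v => c v = i)
        + Err s t π (C0.filter fun v => c v = i) L / (2 * ε0) := by
    intro i
    have hcp : ∀ u ∈ C0.filter fun v => c v = i, 0 < dgr s t u :=
      fun u hu => hC0pos u (mem_filter.1 hu).1
    have hg := hgood i
    generalize (C0.filter fun v => c v = i) = C at hcp hg ⊢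
    have hv0 : 0 ≤ vol (dgr s t) C := sum_nonneg fun v _ => hd0 v
    have he0 : 0 ≤ Err s t π C L :=
      sum_nonneg fun e _ => by linarith [hsat1 (s e) (t e) (π e)]
    have hbad : vol (dgr s t) C * ε0 ≤ Err s t π C L → ∃ x : V → A,
      (((ins s t C).filter fun e => π e (x (s e)) ≠ x (t e)).card : ℝ)
      ≤ (c0 + 2 * ε0) * vol (dgr s t) C + Err s t π C L / (2 * ε0) := by
      intro hb
      refine ⟨x0, ?_⟩
      have h1 : (((ins s t C).filter fun e => π e (x0 (s e)) ≠ x0 (t e)).card : ℝ)
          ≤ ((ins s t C).card : ℝ) := by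
        exact_mod_cast card_filter_le _ _
      have h2 := hwins C
      have h3 : vol (dgr s t) C / 2 ≤ Err s t π C L / (2 * ε0) := by
        rw [div_le_div_iff₀ (by norm_num) (by positivity)]
        nlinarith
      have h4 : 0 ≤ (c0 + 2 * ε0) * vol (dgr s t) C := by positivity
      linarith
    rcases C.eq_empty_or_nonempty with h | h
    · apply hbad
      have : vol (dgr s t) C = 0 := by rw [h]; rfl
      rw [this, zero_mul]
      exact he0
    · rcases le_total (Err s t π C L) (ε0 * vol (dgr s t) C) with hb | hb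
      · obtain ⟨L', hL', hP, hE⟩ := hS2 V A E s t π C κ c0 ε0 k hcp h hκ hg hc0 hε0 hτ hk L D
          hD hL hb
        obtain ⟨x, hx⟩ := hS3 V A E s t π C L' hL'
        refine ⟨x, ?_⟩
        have : 0 ≤ Err s t π C L / (2 * ε0) := by positivity
        nlinarith
      · exact hbad (by linarith)
  choose x hx using hcls
  refine ⟨fun v => x (c v) v, ?_⟩
  -- the sum of the bounds
  have hsumvol : ∑ i, vol (dgr s t) (C0.filter fun v => c v = i) = vol (dgr s t) C0 :=
    sum_fiberwise C0 c (dgr s t)
  have hsumerr : ∑ i, Err s t π (C0.filter fun v => c v = i) L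
      ≤ ε * (Fintype.card E : ℝ) := by
    have h1 : ∀ i, Err s t π (C0.filter fun v => c v = i) L
        ≤ ∑ e ∈ univ.filter (fun e => c (s e) = i), (1 - L (sat (s e) (t e) (π e))) := by
      intro i
      unfold Err
      apply sum_le_sum_of_subset_of_nonneg
      · intro e he
        simp only [ins, mem_filter, mem_univ, true_and] at he ⊢
        exact he.1.2
      · intro e _ _
        linarith [hsat1 (s e) (t e) (π e)]
    refine (sum_le_sum fun i _ => h1 i).trans ?_
    rw [sum_fiberwise univ (fun e => c (s e)) (fun e => 1 - L (sat (s e) (t e) (π e)))]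
    rw [sum_sub_distrib]
    simp only [sum_const, card_univ, nsmul_eq_mul, mul_one]
    linarith
  have hsum : ∑ i, (((ins s t (C0.filter fun v => c v = i)).filter
        fun e => π e (x i (s e)) ≠ x i (t e)).card : ℝ)
      ≤ (c0 + 2 * ε0) * (2 * (Fintype.card E : ℝ)) + ε * (Fintype.card E : ℝ) / (2 * ε0) := by
    refine (sum_le_sum fun i _ => hx i).trans ?_
    rw [sum_add_distrib, ← mul_sum, ← sum_div, hsumvol]
    have h1 := mul_le_mul_of_nonneg_left hvol2 (by positivity : (0 : ℝ) ≤ c0 + 2 * ε0)
    have h2 := div_le_div_of_nonneg_right hsumerr (by positivity : (0 : ℝ) ≤ 2 * ε0)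
    linarith
  -- unsatisfied edges
  have huns : ((univ.filter fun e => ¬ π e (x (c (s e)) (s e)) = x (c (t e)) (t e)).card : ℝ)
      ≤ ∑ e, (if c (s e) = c (t e) then (0 : ℝ) else 1)
        + ∑ i, (((ins s t (C0.filter fun v => c v = i)).filter
        fun e => π e (x i (s e)) ≠ x i (t e)).card : ℝ) := by
    classical
    have h1 : ∀ i, (((ins s t (C0.filter fun v => c v = i)).filter
        fun e => π e (x i (s e)) ≠ x i (t e)).card : ℝ)
        = ∑ e, if e ∈ ((ins s t (C0.filter fun v => c v = i)).filter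
        fun e => π e (x i (s e)) ≠ x i (t e)) then (1 : ℝ) else 0 := by
      intro i
      rw [← sum_filter, sum_const, nsmul_eq_mul, mul_one]
      congr 2
      ext e
      simp
    simp_rw [h1]
    rw [sum_comm, ← sum_add_distrib]
    rw [card_filter]
    push_cast
    refine sum_le_sum fun e _ => ?_
    have hnn : ∀ i, (0 : ℝ) ≤ (if e ∈ ((ins s t (C0.filter fun v => c v = i)).filter
        fun e => π e (x i (s e)) ≠ x i (t e)) then (1 : ℝ) else 0) := by
      intro i; split_ifs <;> norm_num
    have hsn := sum_nonneg (s := univ) fun i _ => hnn i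
    by_cases hc : c (s e) = c (t e)
    · rw [if_pos hc, zero_add]
      by_cases hu : ¬ π e (x (c (s e)) (s e)) = x (c (t e)) (t e)
      · rw [if_pos hu]
        refine le_trans ?_ (single_le_sum (fun i _ => hnn i) (mem_univ (c (s e))))
        rw [if_pos]
        rw [mem_filter]
        constructor
        · have he : e ∈ ins s t C0 := by rw [hins]; exact mem_univ e
          simp only [ins, mem_filter, mem_univ, true_and] at he ⊢
          exact ⟨⟨he.1, trivial⟩, ⟨he.2, hc.symm⟩⟩
        · intro h'
          apply hu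
          rw [h', hc]
      · rw [if_neg hu]
        exact hsn
    · rw [if_neg hc]
      have : (if ¬ π e (x (c (s e)) (s e)) = x (c (t e)) (t e) then (1 : ℝ) else 0) ≤ 1 := by
        split_ifs <;> norm_num
      linarith
  have hcard : ((univ.filter fun e => π e (x (c (s e)) (s e)) = x (c (t e)) (t e)).card : ℝ)
      + ((univ.filter fun e => ¬ π e (x (c (s e)) (s e)) = x (c (t e)) (t e)).card : ℝ)
      = (Fintype.card E : ℝ) := by
    have := card_filter_add_card_filter_not (s := (univ : Finset E))
      (fun e => π e (x (c (s e)) (s e)) = x (c (t e)) (t e))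
    rw [card_univ] at this
    exact_mod_cast this
  have hfin : (Fintype.card E : ℝ) * (1 - (2 * κ * Real.log (Fintype.card V)
        + ε / (2 * ε0) + 2 * (c0 + 2 * ε0)))
      = (Fintype.card E : ℝ) - 2 * κ * (Fintype.card E : ℝ) * Real.log (Fintype.card V)
        - ((c0 + 2 * ε0) * (2 * (Fintype.card E : ℝ))
          + ε * (Fintype.card E : ℝ) / (2 * ε0)) := by ring
  rw [hfin]
  linarith

end Pool.Agent.H647R3.UG
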