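import Pool.Agent.H647R3.UG.Top
import Pool.Agent.H647R3.UG.T_CO
import Pool.Agent.H647R3.UG.T_FK
import Pool.Agent.H647R3.UG.T_OP
import Pool.Agent.H647R3.UG.T_HD
import Pool.Agent.H647R3.UG.T_LC
import Pool.Agent.H647R3.UG.T_GC
import Pool.Agent.H647R3.UG.T_GCF
import Pool.Agent.H647R3.UG.T_EN
import Pool.Agent.H647R3.UG.T_PA
import Pool.Agent.H647R3.UG.T_RA
import Pool.Agent.H647R3.UG.T_RB
import Pool.Agent.H647R3.UG.T_RD
import Pool.Agent.H647R3.UG.T_FL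
import Pool.Agent.H647R3.UG.T_FB
import Pool.Agent.H647R3.UG.T_FC
import Pool.Agent.H647R3.UG.T_FV
import Pool.Agent.H647R3.UG.T_FD
import Pool.Agent.H647R3.UG.T_FT
import Pool.Agent.H647R3.UG.T_WT
import Pool.Agent.H647R3.UG.T_S1
import Pool.Agent.H647R3.UG.T_S2
import Pool.Agent.H647R3.UG.T_S3
import Pool.Agent.H647R3.UG.T_S4
import Pool.Agent.H647R3.UG.T_MAIN
import Pool.Agent.H647R3.UG.T_EA
import Pool.Agent.H647R3.UG.T_DEC

namespace Pool.Agent.H647R3.UG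

theorem all : St_MAIN ∧ St_DEC :=
  top T_CO T_FK T_OP T_HD T_LC T_GC T_GCF T_EN T_PA T_RA T_RB T_RD T_FL T_FB T_FC T_FV T_FD T_FT
    T_WT T_S1 T_S2 T_S3 T_S4 T_MAIN T_EA T_DEC

end Pool.Agent.H647R3.UG
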