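import Pool.Agent.H647R3.UG.Defs

namespace Pool.Agent.H647R3.UG

open Finset

namespace DECU

theorem count_le_card {V : Type} [Fintype V] [DecidableEq V] (w : V → V → ℝ) (C : Finset V)
    (η : ℝ) : ((partMat w C).charpoly.roots.filter fun x => 1 - η ≤ x).card ≤ C.card := by
  refine le_trans (Multiset.card_le_card (Multiset.filter_le _ _)) ?_
  refine le_trans (Polynomial.card_roots' _) ?_
  rw [Matrix.charpoly_natDegree_eq_dim, Fintype.card_coe]

theorem small {V : Type} [Fintype V] [DecidableEq V] (w : V → V → ℝ) (C : Finset V)
    (η x : ℝ) (hC : C.card ≤ 1) (hx : 0 ≤ x) (i : V) :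
    (((partMat w C).charpoly.roots.filter fun x => 1 - η ≤ x).card : ℝ)
      ≤ 30 * (Fintype.card V : ℝ) ^ x := by
  have h1 : (((partMat w C).charpoly.roots.filter fun x => 1 - η ≤ x).card : ℝ) ≤ 1 := by
    exact_mod_cast le_trans (count_le_card w C η) hC
  have h2 : (1 : ℝ) ≤ (Fintype.card V : ℝ) := by
    exact_mod_cast Fintype.card_pos_iff.mpr ⟨i⟩
  have h3 := Real.one_le_rpow h2 hx
  linarith

end DECU

/-- the decomposition theorem, one partition for all thresholds -/
theorem decU (hEA : St_EA) (hPA : St_PA) (hEN : St_EN) :
  ∀ (V : Type) [Fintype V] [DecidableEq V] (w : V → V → ℝ) (K : ℝ),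
    (∀ u v, 0 ≤ w u v) → (∀ u v, w u v = w v u) → 0 < K →
    ∃ c : V → V, (∑ u, ∑ v, (if c u = c v then 0 else w u v)) ≤ K * ∑ u, ∑ v, w u v ∧
      ∀ η : ℝ, 0 < η → η ≤ 1 → ∀ i,
        (((partMat w (univ.filter fun v => c v = i)).charpoly.roots.filter
        fun x => 1 - η ≤ x).card : ℝ) ≤ 30 * (Fintype.card V : ℝ) ^ (16 * Real.sqrt η / K) := by
  classical
  intro V _ _ w K hw hs hK
  rcases Nat.lt_or_ge (Fintype.card V) 2 with hn | hn
  · refine ⟨id, ?_, ?_⟩
    · have hsub : ∀ u v : V, u = v := by
        have : Fintype.card V ≤ 1 := by omega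
        exact Fintype.card_le_one_iff.mp this
      have h0 : ∑ u, ∑ v, (if id u = id v then 0 else w u v) = 0 :=
        sum_eq_zero fun u _ => sum_eq_zero fun v _ => by rw [if_pos (hsub _ _)]
      rw [h0]
      exact mul_nonneg hK.le (sum_nonneg fun u _ => sum_nonneg fun v _ => hw u v)
    · intro η hη hη1 i
      have hx : 0 ≤ 16 * Real.sqrt η / K := by positivity
      refine DECU.small w _ η _ ?_ hx i
      exact le_trans (card_le_univ _) (by omega)
  · have hn' : (2 : ℝ) ≤ (Fintype.card V : ℝ) := by exact_mod_cast hn
    have hlog : 0 < Real.log (Fintype.card V) := Real.log_pos (by linarith)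
    set m : V → ℝ := fun u => ∑ v, w u v with hm
    have hm0 : ∀ u, 0 ≤ m u := fun u => sum_nonneg fun v _ => hw u v
    set C0 : Finset V := univ.filter fun u => 0 < m u with hC0
    have hC0m : ∀ v, v ∈ C0 ↔ 0 < m v := by intro v; simp [hC0]
    have hκ : 0 < K / (2 * Real.log (Fintype.card V)) := by positivity
    obtain ⟨c0, hgood, hsum⟩ := hPA V w m C0 (K / (2 * Real.log (Fintype.card V))) hw hs
      (fun v hv => (hC0m v).mp hv) hκ.le
    -- representatives
    have hrep : ∀ i : V, ∃ r : V, (∃ v ∈ C0, c0 v = i) → r ∈ C0 ∧ c0 r = i := by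
      intro i
      by_cases h : ∃ v ∈ C0, c0 v = i
      · obtain ⟨v, hv, hvi⟩ := h
        exact ⟨v, fun _ => ⟨hv, hvi⟩⟩
      · exact ⟨i, fun h' => absurd h' h⟩
    choose rep hrep using hrep
    have hrep1 : ∀ v ∈ C0, rep (c0 v) ∈ C0 ∧ c0 (rep (c0 v)) = c0 v :=
      fun v hv => hrep (c0 v) ⟨v, hv, rfl⟩
    set c : V → V := fun v => if v ∈ C0 then rep (c0 v) else v with hc
    have hcin : ∀ v ∈ C0, c v = rep (c0 v) := by
      intro v hv; simp only [hc]; rw [if_pos hv]
    have hcout : ∀ v, v ∉ C0 → c v = v := by
      intro v hv; simp only [hc]; rw [if_neg hv]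
    have hciff : ∀ u ∈ C0, ∀ v ∈ C0, (c u = c v ↔ c0 u = c0 v) := by
      intro u hu v hv
      rw [hcin u hu, hcin v hv]
      constructor
      · intro h
        rw [← (hrep1 u hu).2, ← (hrep1 v hv).2, h]
      · intro h; rw [h]
    refine ⟨c, ?_, ?_⟩
    · -- removed weight
      have hw0 : ∀ u, u ∉ C0 → ∀ v, w u v = 0 := by
        intro u hu v
        have h1 : m u ≤ 0 := by
          by_contra h
          exact hu ((hC0m u).mpr (not_le.mp h))
        have h2 : w u v ≤ m u := single_le_sum (f := fun v => w u v) (fun v _ => hw u v) (mem_univ v)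
        exact le_antisymm (h2.trans h1) (hw u v)
      have hrem : ∑ u, ∑ v, (if c u = c v then 0 else w u v)
          = ∑ u ∈ C0, ∑ v ∈ C0, (if c0 u = c0 v then 0 else w u v) := by
        rw [← sum_subset (subset_univ C0)]
        · refine sum_congr rfl fun u hu => ?_
          rw [← sum_subset (subset_univ C0)]
          · refine sum_congr rfl fun v hv => ?_
            by_cases h : c0 u = c0 v
            · rw [if_pos h, if_pos ((hciff u hu v hv).mpr h)]
            · rw [if_neg h, if_neg (fun h' => h ((hciff u hu v hv).mp h'))]
          · intro v _ hv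
            rw [hs u v, hw0 v hv u]
            simp
        · intro u _ hu
          refine sum_eq_zero fun v _ => ?_
          rw [hw0 u hu v]
          simp
      rw [hrem]
      refine le_trans hsum ?_
      have h1 : ∑ v ∈ C0, m v * Real.log (vol m C0 / vol m (C0.filter fun y => c0 y = c0 v))
          ≤ ∑ v ∈ C0, m v * Real.log (vol m C0 / m v) := by
        refine sum_le_sum fun v hv => ?_
        have hmv := (hC0m v).mp hv
        have h2 : m v ≤ vol m (C0.filter fun y => c0 y = c0 v) := by
          unfold vol
          exact single_le_sum (f := m) (fun u _ => hm0 u) (by simp [hv])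
        have h3 : 0 < vol m C0 := by
          refine lt_of_lt_of_le hmv ?_
          unfold vol
          exact single_le_sum (f := m) (fun u _ => hm0 u) hv
        refine mul_le_mul_of_nonneg_left ?_ hmv.le
        apply Real.log_le_log (div_pos h3 (lt_of_lt_of_le hmv h2))
        exact div_le_div_of_nonneg_left h3.le hmv h2
      have h2 := hEN V m C0 (fun v hv => (hC0m v).mp hv)
      have h3 : vol m C0 * Real.log C0.card ≤ vol m C0 * Real.log (Fintype.card V) := by
        rcases C0.eq_empty_or_nonempty with hE | hne
        · rw [hE]; simp [vol]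
        · refine mul_le_mul_of_nonneg_left ?_ (sum_nonneg fun u _ => hm0 u)
          apply Real.log_le_log
          · exact_mod_cast card_pos.mpr hne
          · exact_mod_cast card_le_univ _
      have h4 : vol m C0 ≤ ∑ u, ∑ v, w u v := by
        unfold vol
        exact sum_le_sum_of_subset_of_nonneg (subset_univ _) fun u _ _ => hm0 u
      have h5 : 2 * (K / (2 * Real.log (Fintype.card V))) * (∑ v ∈ C0, m v *
            Real.log (vol m C0 / vol m (C0.filter fun y => c0 y = c0 v)))
          ≤ 2 * (K / (2 * Real.log (Fintype.card V))) * (vol m C0 * Real.log (Fintype.card V)) :=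
        mul_le_mul_of_nonneg_left (h1.trans (h2.trans h3)) (by positivity)
      refine le_trans h5 ?_
      have h6 : 2 * (K / (2 * Real.log (Fintype.card V))) * (vol m C0 * Real.log (Fintype.card V))
          = K * vol m C0 := by
        field_simp
      rw [h6]
      exact mul_le_mul_of_nonneg_left h4 hK.le
    · intro η hη hη1 i
      have hx : 0 ≤ 16 * Real.sqrt η / K := by positivity
      by_cases hi : i ∈ C0
      · -- good class
        have hg : GoodIn w m (K / (2 * Real.log (Fintype.card V)))
              (univ.filter fun v => c v = i) ∧ (univ.filter fun v => c v = i) ⊆ C0 := by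
          have hsub : (univ.filter fun v => c v = i) ⊆ C0 := by
            intro v hv
            simp only [mem_filter, mem_univ, true_and] at hv
            by_contra hv0
            rw [hcout v hv0] at hv
            rw [hv] at hv0
            exact hv0 hi
          refine ⟨?_, hsub⟩
          rcases (univ.filter fun v => c v = i).eq_empty_or_nonempty with hE | ⟨v1, hv1⟩
          · rw [hE]
            intro S hS hne
            rw [subset_empty] at hS
            rw [hS] at hne
            exact absurd hne (by simp)
          · have hv1C := hsub hv1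
            simp only [mem_filter, mem_univ, true_and] at hv1
            rw [hcin v1 hv1C] at hv1
            have hci : c0 i = c0 v1 := by rw [← hv1]; exact (hrep1 v1 hv1C).2
            have heq : (univ.filter fun v => c v = i) = C0.filter fun v => c0 v = c0 i := by
              ext v
              simp only [mem_filter, mem_univ, true_and]
              constructor
              · intro hv
                have hvC : v ∈ C0 := hsub (by simpa using hv)
                refine ⟨hvC, ?_⟩
                rw [hcin v hvC] at hv
                rw [← (hrep1 v hvC).2, hv]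
              · rintro ⟨hvC, hv⟩
                rw [hcin v hvC, hv, hci, hv1]
            rw [heq]
            exact hgood (c0 i)
        have hea := hEA V w (univ.filter fun v => c v = i) (K / (2 * Real.log (Fintype.card V))) η
          hw hs (fun u hu => (hC0m u).mp (hg.2 hu)) hκ hη hη1 hg.1
        refine le_trans hea ?_
        refine mul_le_mul_of_nonneg_left ?_ (by norm_num)
        rw [Real.rpow_def_of_pos (by linarith)]
        apply Real.exp_le_exp.mpr
        apply le_of_eq
        field_simp
        ring
      · refine DECU.small w _ η _ ?_ hx i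
        have : (univ.filter fun v => c v = i) ⊆ {i} := by
          intro v hv
          simp only [mem_filter, mem_univ, true_and] at hv
          by_cases hvC : v ∈ C0
          · rw [hcin v hvC] at hv
            exact absurd (hv ▸ (hrep1 v hvC).1) hi
          · rw [hcout v hvC] at hv
            simp [hv]
        exact le_trans (card_le_card this) (by simp)

end Pool.Agent.H647R3.UG
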