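import Mathlib

/-!
Unique games: sum-of-squares of degree n^(C sqrt eps). Definitions and the list of statements.
-/

namespace Pool.Agent.H647R3.UG

open Finset

/-! ### Part G: weighted graphs -/

/-- total vertex weight of `S` -/
def vol {W : Type} (m : W → ℝ) (S : Finset W) : ℝ := ∑ v ∈ S, m v

/-- total edge weight from `S` to `T` -/
def cutW {W : Type} (w : W → W → ℝ) (S T : Finset W) : ℝ := ∑ u ∈ S, ∑ v ∈ T, w u v

/-- `C` is `κ`-good: every nonempty `S ⊆ C` has `κ m(S) log (m(C)/m(S)) ≤ w(S, C ∖ S)`. -/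
def GoodIn {W : Type} [DecidableEq W] (w : W → W → ℝ) (m : W → ℝ) (κ : ℝ) (C : Finset W) : Prop :=
  ∀ S, S ⊆ C → S.Nonempty →
    κ * vol m S * Real.log (vol m C / vol m S) ≤ cutW w S (C \ S)

/-- symmetric nonnegative edge weights, dominated by positive vertex weights
(the difference `m u - ∑ v, w u v` is the weight of a loop at `u`) -/
structure IsNet {W : Type} [Fintype W] (w : W → W → ℝ) (m : W → ℝ) : Prop where
  nonneg : ∀ u v, 0 ≤ w u v
  symm : ∀ u v, w u v = w v u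
  pos : ∀ u, 0 < m u
  deg : ∀ u, ∑ v, w u v ≤ m u

/-- the lazy random walk operator -/
noncomputable def lz {W : Type} [Fintype W] (w : W → W → ℝ) (m : W → ℝ) (f : W → ℝ) : W → ℝ :=
  fun u => f u - (∑ v, w u v * (f u - f v)) / (2 * m u)

/-- inner product of `ℓ²(m)` -/
def ip {W : Type} [Fintype W] (m : W → ℝ) (f g : W → ℝ) : ℝ := ∑ u, m u * f u * g u

/-- Dirichlet energy -/
noncomputable def en {W : Type} [Fintype W] (w : W → W → ℝ) (f : W → ℝ) : ℝ :=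
  (1 / 2) * ∑ u, ∑ v, w u v * (f u - f v) ^ 2

/-- the normalised point mass at `v` -/
noncomputable def dl {W : Type} [DecidableEq W] (m : W → ℝ) (v : W) : W → ℝ :=
  fun u => if u = v then 1 / m v else 0

/-! ### Part R: pairs of distributions -/

/-- the kernel of a joint law `r` with marginals `p`, `q` (alphabet-free correlation) -/
noncomputable def ker {A : Type} [Fintype A] (r : A → A → ℝ) (p q : A → ℝ) : ℝ :=
  ∑ a, ∑ b, (r a b - p a * q b) ^ 2 / Real.sqrt (p a * q b)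

/-- the diagonal law -/
def dg {A : Type} [DecidableEq A] (p : A → ℝ) : A → A → ℝ := fun a b => if a = b then p a else 0

/-- `r` is a joint law with marginals `p`, `q` -/
structure IsLaw {A : Type} [Fintype A] (r : A → A → ℝ) (p q : A → ℝ) : Prop where
  nonneg : ∀ a b, 0 ≤ r a b
  left : ∀ a, ∑ b, r a b = p a
  right : ∀ b, ∑ a, r a b = q b
  one : ∑ a, p a = 1

/-! ### Part F: pseudo-expectations -/

/-- span of the functions of at most `D` coordinates -/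
def LowDeg (V A : Type) (D : ℕ) : Submodule ℝ ((V → A) → ℝ) :=
  Submodule.span ℝ {f | ∃ S : Finset V, S.card ≤ D ∧
    ∀ x y : V → A, (∀ v ∈ S, x v = y v) → f x = f y}

/-- `L` is a pseudo-expectation of degree `D`: normalised, and nonnegative on squares of
combinations of functions of at most `D` coordinates -/
structure IsPE {V A : Type} (D : ℕ) (L : ((V → A) → ℝ) →ₗ[ℝ] ℝ) : Prop where
  one : L (fun _ => 1) = 1
  sq : ∀ f ∈ LowDeg V A D, 0 ≤ L (fun x => f x * f x)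

/-- indicator of `x u = a` -/
noncomputable def ind {V A : Type} [DecidableEq A] (u : V) (a : A) : (V → A) → ℝ :=
  fun x => if x u = a then 1 else 0

/-- first moments -/
noncomputable def pr {V A : Type} [DecidableEq A] (L : ((V → A) → ℝ) →ₗ[ℝ] ℝ) (u : V) (a : A) : ℝ :=
  L (ind u a)

/-- pair laws -/
noncomputable def pr2 {V A : Type} [DecidableEq A] (L : ((V → A) → ℝ) →ₗ[ℝ] ℝ) (u v : V)
    (a b : A) : ℝ :=
  L (fun x => ind u a x * ind v b x)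

/-- indicator that the edge `(u, v)` with permutation `π` is satisfied -/
noncomputable def sat {V A : Type} [DecidableEq A] (u v : V) (π : Equiv.Perm A) : (V → A) → ℝ :=
  fun x => if π (x u) = x v then 1 else 0

/-- conditioning on `x u = a` -/
noncomputable def cnd {V A : Type} [DecidableEq A] (L : ((V → A) → ℝ) →ₗ[ℝ] ℝ) (u : V) (a : A) :
    ((V → A) → ℝ) →ₗ[ℝ] ℝ where
  toFun f := L (fun x => ind u a x * f x) / pr L u a
  map_add' f g := by
    have h : (fun x => ind u a x * (f + g) x)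
        = (fun x => ind u a x * f x) + (fun x => ind u a x * g x) := by
      funext x; simp [mul_add]
    rw [h, map_add, add_div]
  map_smul' c f := by
    have h : (fun x => ind u a x * (c • f) x) = c • (fun x => ind u a x * f x) := by
      funext x; simp [mul_left_comm]
    rw [h, map_smul, smul_eq_mul, RingHom.id_apply, smul_eq_mul, mul_div_assoc]

/-- the variance at `v` -/
noncomputable def vr {V A : Type} [Fintype A] [DecidableEq A] (L : ((V → A) → ℝ) →ₗ[ℝ] ℝ)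
    (v : V) : ℝ := 1 - ∑ b, pr L v b ^ 2

/-- decrease of the variance at `v` by conditioning on `u` -/
noncomputable def dec {V A : Type} [Fintype A] [DecidableEq A] (L : ((V → A) → ℝ) →ₗ[ℝ] ℝ)
    (u v : V) : ℝ := ∑ a, ∑ b, (pr2 L u v a b - pr L u a * pr L v b) ^ 2 / pr L u a

/-- the kernel of `L` -/
noncomputable def kr {V A : Type} [Fintype A] [DecidableEq A] (L : ((V → A) → ℝ) →ₗ[ℝ] ℝ)
    (u v : V) : ℝ := ker (pr2 L u v) (pr L u) (pr L v)

/-! ### statements: part G -/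

/-- CO: co-area inequality -/
def St_CO : Prop :=
  ∀ (W : Type) [Fintype W] [DecidableEq W] (w : W → W → ℝ) (m g : W → ℝ) (h : ℝ),
    (∀ u v, 0 ≤ w u v) → (∀ u v, w u v = w v u) → (∀ u, 0 ≤ g u) →
    (∀ t : ℝ, 0 ≤ t → h * vol m (univ.filter fun u => t < g u)
      ≤ cutW w (univ.filter fun u => t < g u) (univ.filter fun u => ¬ t < g u)) →
    h * ∑ u, m u * g u ≤ (1 / 2) * ∑ u, ∑ v, w u v * |g u - g v|

/-- FK: Faber-Krahn (Nash) inequality of a good graph -/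
def St_FK : Prop :=
  ∀ (W : Type) [Fintype W] [DecidableEq W] (w : W → W → ℝ) (m f : W → ℝ) (κ : ℝ),
    IsNet w m → 0 ≤ κ → GoodIn w m κ univ → (∀ u, 0 ≤ f u) → ∑ u, m u * f u = 1 →
    1 ≤ vol m univ * ip m f f / 4 →
    κ ^ 2 * Real.log (vol m univ * ip m f f / 4) ^ 2 * ip m f f / 4 ≤ en w f

/-- OP: facts on the lazy walk -/
def St_OP : Prop :=
  ∀ (W : Type) [Fintype W] [DecidableEq W] (w : W → W → ℝ) (m : W → ℝ), IsNet w m →
    (∀ f g : W → ℝ, ip m (lz w m f) g = ip m f (lz w m g)) ∧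
    (∀ f : W → ℝ, ∑ u, m u * lz w m f u = ∑ u, m u * f u) ∧
    (∀ f : W → ℝ, (∀ u, 0 ≤ f u) → ∀ u, 0 ≤ lz w m f u) ∧
    (∀ f : W → ℝ, ip m f (lz w m f) = ip m f f - en w f / 2) ∧
    (∀ f : W → ℝ, ip m (lz w m f) (lz w m f) ≤ ip m f (lz w m f)) ∧
    (∀ (f g : W → ℝ) (c : ℝ), lz w m (fun u => f u + c * g u)
      = fun u => lz w m f u + c * lz w m g u)

/-- HD: heat kernel decay -/
def St_HD : Prop :=
  ∀ (W : Type) [Fintype W] [DecidableEq W] (w : W → W → ℝ) (m : W → ℝ) (κ : ℝ),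
    IsNet w m → 0 < κ → GoodIn w m κ univ → ∀ (v : W) (s : ℕ), 1 ≤ s →
    ip m ((lz w m)^[s] (dl m v)) ((lz w m)^[s] (dl m v))
      ≤ 4 / vol m univ * Real.exp (8 / (κ ^ 2 * s))

/-- LC: log-convexity -/
def St_LC : Prop :=
  ∀ (W J : Type) [Fintype W] [DecidableEq W] [Fintype J] (w : W → W → ℝ) (m : W → ℝ)
    (U : J → W → ℝ) (τ : ℝ), IsNet w m → 0 ≤ τ → τ ≤ 1 →
    ∑ j, en w (U j) ≤ τ * ∑ j, ip m (U j) (U j) → ∀ s : ℕ,
    (∑ j, ip m (U j) (U j)) * (1 - τ / 2) ^ s ≤ ∑ j, ip m (U j) ((lz w m)^[s] (U j))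

/-- GC: global correlation of vector fields of small energy on a good graph -/
def St_GC : Prop :=
  ∀ (W J : Type) [Fintype W] [DecidableEq W] [Fintype J] (w : W → W → ℝ) (m : W → ℝ)
    (U : J → W → ℝ) (κ τ : ℝ), IsNet w m → 0 < κ → GoodIn w m κ univ → 0 < τ → τ ≤ 1 →
    0 < ∑ j, ip m (U j) (U j) → ∑ j, en w (U j) ≤ τ * ∑ j, ip m (U j) (U j) →
    (∑ j, ip m (U j) (U j)) ^ 2 / 30 * Real.exp (-(8 * Real.sqrt τ / κ))
      ≤ ∑ u, ∑ v, m u * m v * (∑ j, U j u * U j v) ^ 2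

/-- GCF: the same inside a finite set `C` of vertices -/
def St_GCF : Prop :=
  ∀ (V J : Type) [Fintype V] [DecidableEq V] [Fintype J] (w : V → V → ℝ) (m : V → ℝ)
    (C : Finset V) (U : J → V → ℝ) (κ τ : ℝ), (∀ u v, 0 ≤ w u v) → (∀ u v, w u v = w v u) →
    (∀ u ∈ C, 0 < m u) → (∀ u ∈ C, ∑ v ∈ C, w u v ≤ m u) →
    0 < κ → GoodIn w m κ C → 0 < τ → τ ≤ 1 →
    0 < ∑ u ∈ C, m u * ∑ j, U j u ^ 2 →
    (1 / 2) * ∑ u ∈ C, ∑ v ∈ C, w u v * ∑ j, (U j u - U j v) ^ 2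
      ≤ τ * ∑ u ∈ C, m u * ∑ j, U j u ^ 2 →
    (∑ u ∈ C, m u * ∑ j, U j u ^ 2) ^ 2 / 30 * Real.exp (-(8 * Real.sqrt τ / κ))
      ≤ ∑ u ∈ C, ∑ v ∈ C, m u * m v * (∑ j, U j u * U j v) ^ 2

/-- EN: entropy bound -/
def St_EN : Prop :=
  ∀ (V : Type) (m : V → ℝ) (C : Finset V), (∀ v ∈ C, 0 < m v) →
    ∑ v ∈ C, m v * Real.log (vol m C / m v) ≤ vol m C * Real.log C.card

/-- PA: partition into good classes -/
def St_PA : Prop :=
  ∀ (V : Type) [DecidableEq V] (w : V → V → ℝ) (m : V → ℝ) (C : Finset V) (κ : ℝ),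
    (∀ u v, 0 ≤ w u v) → (∀ u v, w u v = w v u) → (∀ v ∈ C, 0 < m v) → 0 ≤ κ →
    ∃ c : V → V, (∀ i, GoodIn w m κ (C.filter fun v => c v = i)) ∧
      ∑ u ∈ C, ∑ v ∈ C, (if c u = c v then 0 else w u v)
        ≤ 2 * κ * ∑ v ∈ C, m v * Real.log (vol m C / vol m (C.filter fun y => c y = c v))

/-! ### statements: part R -/

/-- RA: the edge inequality -/
def St_RA : Prop :=
  ∀ (A : Type) [Fintype A] [DecidableEq A] (r : A → A → ℝ) (p q : A → ℝ) (π : Equiv.Perm A),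
    IsLaw r p q →
    ker (dg p) p p + ker (dg q) q q - 2 * ker r p q ≤ 24 * (1 - ∑ a, r a (π a))

/-- RB: the kernel on the diagonal dominates the variance -/
def St_RB : Prop :=
  ∀ (A : Type) [Fintype A] [DecidableEq A] (p : A → ℝ), (∀ a, 0 ≤ p a) → ∑ a, p a = 1 →
    (1 - ∑ a, p a ^ 2) / 8 ≤ ker (dg p) p p

/-- RD: bounds of the kernel -/
def St_RD : Prop :=
  ∀ (A : Type) [Fintype A] [DecidableEq A] (r : A → A → ℝ) (p q : A → ℝ), IsLaw r p q →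
    0 ≤ ker r p q ∧
    ker r p q ≤ ((∑ a, ∑ b, (r a b - p a * q b) ^ 2 / p a)
      + ∑ a, ∑ b, (r a b - p a * q b) ^ 2 / q b) / 2 ∧
    (∑ a, ∑ b, (r a b - p a * q b) ^ 2 / p a) ≤ 1 ∧
    (∑ a, ∑ b, (r a b - p a * q b) ^ 2 / q b) ≤ 1

/-! ### statements: part F -/

/-- FB: basic facts on pair laws -/
def St_FB : Prop :=
  ∀ (V A : Type) [Fintype V] [DecidableEq V] [Fintype A] [DecidableEq A]
    (L : ((V → A) → ℝ) →ₗ[ℝ] ℝ) (D : ℕ), 2 ≤ D → IsPE D L →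
    (∀ u v, IsLaw (pr2 L u v) (pr L u) (pr L v)) ∧
    (∀ u a, 0 ≤ pr L u a) ∧
    (∀ u v a b, pr2 L u v a b = pr2 L v u b a) ∧
    (∀ u, pr2 L u u = dg (pr L u)) ∧
    (∀ u v (π : Equiv.Perm A), L (sat u v π) = ∑ a, pr2 L u v a (π a)) ∧
    (∀ u v (π : Equiv.Perm A), L (sat u v π) ≤ 1)

/-- FC: Cauchy-Schwarz, conditioning and total expectation -/
def St_FC : Prop :=
  ∀ (V A : Type) [Fintype V] [DecidableEq V] [Fintype A] [DecidableEq A]
    (L : ((V → A) → ℝ) →ₗ[ℝ] ℝ) (D : ℕ), 1 ≤ D → IsPE D L →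
    (∀ f ∈ LowDeg V A D, ∀ g ∈ LowDeg V A D,
      L (fun x => f x * g x) ^ 2 ≤ L (fun x => f x * f x) * L (fun x => g x * g x)) ∧
    (∀ u a, 0 < pr L u a → IsPE (D - 1) (cnd L u a)) ∧
    (∀ u, ∀ f ∈ LowDeg V A D, ∑ a, pr L u a * cnd L u a f = L f) ∧
    (∀ D' ≤ D, IsPE D' L)

/-- FL: the functions used have low degree -/
def St_FL : Prop :=
  ∀ (V A : Type) [Fintype V] [DecidableEq V] [Fintype A] [DecidableEq A],
    (∀ (u : V) (a : A), ind u a ∈ LowDeg V A 1) ∧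
    (∀ (u v : V) (a b : A), (fun x => ind u a x * ind v b x) ∈ LowDeg V A 2) ∧
    (∀ (u v : V) (π : Equiv.Perm A), sat u v π ∈ LowDeg V A 2) ∧
    (∀ D D' : ℕ, D ≤ D' → LowDeg V A D ≤ LowDeg V A D') ∧
    (∀ (D : ℕ) (u : V) (a : A), ∀ f ∈ LowDeg V A D,
      (fun x => ind u a x * f x) ∈ LowDeg V A (D + 1)) ∧
    (∀ f : (V → A) → ℝ, f ∈ LowDeg V A (Fintype.card V))

/-- FV: the kernel is a Gram matrix -/
def St_FV : Prop :=
  ∀ (V A : Type) [Fintype V] [DecidableEq V] [Fintype A] [DecidableEq A]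
    (L : ((V → A) → ℝ) →ₗ[ℝ] ℝ) (D : ℕ), 2 ≤ D → IsPE D L →
    ∃ (J : Type) (_ : Fintype J) (U : J → V → ℝ), ∀ u v, kr L u v = ∑ j, U j u * U j v

/-- FD: decrease of the variance by conditioning -/
def St_FD : Prop :=
  ∀ (V A : Type) [Fintype V] [DecidableEq V] [Fintype A] [DecidableEq A]
    (L : ((V → A) → ℝ) →ₗ[ℝ] ℝ) (D : ℕ), 2 ≤ D → IsPE D L → ∀ u v,
    dec L u v = vr L v - ∑ a, pr L u a * vr (cnd L u a) v

/-- FT: the trivial case of full degree -/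
def St_FT : Prop :=
  ∀ (V A E : Type) [Fintype V] [DecidableEq V] [Fintype A] [DecidableEq A] [Fintype E]
    (L : ((V → A) → ℝ) →ₗ[ℝ] ℝ) (D : ℕ) (s t : E → V) (π : E → Equiv.Perm A) (c : ℝ),
    Fintype.card V ≤ D → IsPE D L → c ≤ ∑ e, L (sat (s e) (t e) (π e)) →
    ∃ x : V → A, c ≤ ((univ.filter fun e => π e (x (s e)) = x (t e)).card : ℝ)

/-! ### statements: part S -/

/-- number of edges between `u` and `v`, in both directions -/
def wt {V E : Type} [Fintype E] [DecidableEq V] (s t : E → V) (u v : V) : ℝ :=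
  ((univ.filter fun e => s e = u ∧ t e = v).card : ℝ)
    + ((univ.filter fun e => s e = v ∧ t e = u).card : ℝ)

/-- degree (loops count twice) -/
def dgr {V E : Type} [Fintype E] [DecidableEq V] (s t : E → V) (u : V) : ℝ :=
  ((univ.filter fun e => s e = u).card : ℝ) + ((univ.filter fun e => t e = u).card : ℝ)

/-- edges inside `C` -/
def ins {V E : Type} [Fintype E] [DecidableEq V] (s t : E → V) (C : Finset V) : Finset E :=
  univ.filter fun e => s e ∈ C ∧ t e ∈ C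

/-- WT: facts on edge counts -/
def St_WT : Prop :=
  ∀ (V E : Type) [Fintype V] [DecidableEq V] [Fintype E] (s t : E → V),
    (∀ u v, 0 ≤ wt s t u v) ∧ (∀ u v, wt s t u v = wt s t v u) ∧
    (∀ u, ∑ v, wt s t u v = dgr s t u) ∧
    (∀ (C : Finset V), ∀ u ∈ C, ∑ v ∈ C, wt s t u v ≤ dgr s t u) ∧
    (∑ u, dgr s t u = 2 * (Fintype.card E : ℝ)) ∧
    (∀ e, 0 < dgr s t (s e) ∧ 0 < dgr s t (t e)) ∧
    (∀ (C : Finset V) (F : V → V → ℝ), (∀ u v, F u v = F v u) →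
      ∑ u ∈ C, ∑ v ∈ C, wt s t u v * F u v = 2 * ∑ e ∈ ins s t C, F (s e) (t e)) ∧
    (∀ (C : Finset V) (h : V → ℝ), (∀ v, 0 ≤ h v) →
      ∑ e ∈ ins s t C, (h (s e) + h (t e)) ≤ ∑ v ∈ C, dgr s t v * h v) ∧
    (∀ (C : Finset V), 2 * ((ins s t C).card : ℝ) ≤ vol (dgr s t) C)

/-- total variance in `C` -/
noncomputable def Phi {V A E : Type} [Fintype E] [DecidableEq V] [Fintype A] [DecidableEq A]
    (s t : E → V) (C : Finset V) (L : ((V → A) → ℝ) →ₗ[ℝ] ℝ) : ℝ :=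
  ∑ v ∈ C, dgr s t v * vr L v

/-- total error in `C` -/
noncomputable def Err {V A E : Type} [Fintype E] [DecidableEq V] [DecidableEq A]
    (s t : E → V) (π : E → Equiv.Perm A) (C : Finset V) (L : ((V → A) → ℝ) →ₗ[ℝ] ℝ) : ℝ :=
  ∑ e ∈ ins s t C, (1 - L (sat (s e) (t e) (π e)))

/-- S1: one conditioning step -/
def St_S1 : Prop :=
  ∀ (V A E : Type) [Fintype V] [DecidableEq V] [Fintype A] [DecidableEq A] [Fintype E]
    (s t : E → V) (π : E → Equiv.Perm A) (C : Finset V) (L : ((V → A) → ℝ) →ₗ[ℝ] ℝ) (D : ℕ)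
    (κ c0 ε' : ℝ), 2 ≤ D → IsPE D L → (∀ u ∈ C, 0 < dgr s t u) → C.Nonempty →
    0 < κ → GoodIn (wt s t) (dgr s t) κ C → 0 < c0 → 0 < ε' → 192 * ε' / c0 ≤ 1 →
    c0 * vol (dgr s t) C ≤ Phi s t C L → Err s t π C L ≤ ε' * vol (dgr s t) C →
    ∃ u ∈ C, c0 ^ 2 / 1920 * Real.exp (-(8 * Real.sqrt (192 * ε' / c0) / κ)) * vol (dgr s t) C
      ≤ Phi s t C L - ∑ a, pr L u a * Phi s t C (cnd L u a)

/-- S2: iteration -/
def St_S2 : Prop :=
  ∀ (V A E : Type) [Fintype V] [DecidableEq V] [Fintype A] [DecidableEq A] [Fintype E]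
    (s t : E → V) (π : E → Equiv.Perm A) (C : Finset V) (κ c0 ε0 : ℝ) (k : ℕ),
    (∀ u ∈ C, 0 < dgr s t u) → C.Nonempty →
    0 < κ → GoodIn (wt s t) (dgr s t) κ C → 0 < c0 → 0 < ε0 → 384 * ε0 / c0 ≤ 1 →
    2 ≤ k * (c0 ^ 2 / 1920 * Real.exp (-(8 * Real.sqrt (384 * ε0 / c0) / κ))) →
    ∀ (L : ((V → A) → ℝ) →ₗ[ℝ] ℝ) (D : ℕ), k + 2 ≤ D → IsPE D L →
    Err s t π C L ≤ ε0 * vol (dgr s t) C →
    ∃ L' : ((V → A) → ℝ) →ₗ[ℝ] ℝ, IsPE 2 L' ∧ Phi s t C L' ≤ c0 * vol (dgr s t) C ∧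
      Err s t π C L' ≤ 2 * ε0 * vol (dgr s t) C

/-- S3: rounding -/
def St_S3 : Prop :=
  ∀ (V A E : Type) [Fintype V] [DecidableEq V] [Fintype A] [DecidableEq A] [Fintype E]
    (s t : E → V) (π : E → Equiv.Perm A) (C : Finset V) (L : ((V → A) → ℝ) →ₗ[ℝ] ℝ),
    IsPE 2 L →
    ∃ x : V → A, (((ins s t C).filter fun e => π e (x (s e)) ≠ x (t e)).card : ℝ)
      ≤ Phi s t C L + Err s t π C L

/-- S4: assembly over the classes of the partition -/
def St_S4 : Prop :=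
  ∀ (V A E : Type) [Fintype V] [DecidableEq V] [Fintype A] [DecidableEq A] [Fintype E]
    (s t : E → V) (π : E → Equiv.Perm A) (κ c0 ε0 ε : ℝ) (k : ℕ)
    (L : ((V → A) → ℝ) →ₗ[ℝ] ℝ) (D : ℕ), 0 < κ → 0 < c0 → 0 < ε0 → 384 * ε0 / c0 ≤ 1 →
    2 ≤ k * (c0 ^ 2 / 1920 * Real.exp (-(8 * Real.sqrt (384 * ε0 / c0) / κ))) →
    k + 2 ≤ D → IsPE D L →
    (1 - ε) * (Fintype.card E : ℝ) ≤ ∑ e, L (sat (s e) (t e) (π e)) →
    ∃ x : V → A, (Fintype.card E : ℝ) * (1 - (2 * κ * Real.log (Fintype.card V)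
        + ε / (2 * ε0) + 2 * (c0 + 2 * ε0)))
      ≤ ((univ.filter fun e => π e (x (s e)) = x (t e)).card : ℝ)

/-- MAIN: the theorem -/
def St_MAIN : Prop :=
  ∀ γ : ℝ, 0 < γ → ∃ K : ℝ, 0 < K ∧
    ∀ (V A E : Type) [Fintype V] [DecidableEq V] [Fintype A] [DecidableEq A] [Fintype E]
      (s t : E → V) (π : E → Equiv.Perm A) (ε : ℝ) (D : ℕ) (L : ((V → A) → ℝ) →ₗ[ℝ] ℝ),
      0 < ε → ε ≤ γ → K * (Fintype.card V : ℝ) ^ (K * Real.sqrt ε) ≤ D → IsPE D L →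
      (1 - ε) * (Fintype.card E : ℝ) ≤ ∑ e, L (sat (s e) (t e) (π e)) →
      ∃ x : V → A, (1 - γ) * (Fintype.card E : ℝ)
        ≤ ((univ.filter fun e => π e (x (s e)) = x (t e)).card : ℝ)

/-! ### statements: the decomposition theorem -/

/-- normalised adjacency matrix of the part `C` of a weighted graph; the weight leaving `C` is
kept in the form of loops -/
noncomputable def partMat {V : Type} [Fintype V] [DecidableEq V] (w : V → V → ℝ) (C : Finset V) :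
    Matrix C C ℝ :=
  fun u v => (w u v + if u = v then ∑ x ∈ univ \ C, w u x else 0)
    / (Real.sqrt (∑ x, w u x) * Real.sqrt (∑ x, w v x))

/-- EA: a good part has few large eigenvalues -/
def St_EA : Prop :=
  ∀ (V : Type) [Fintype V] [DecidableEq V] (w : V → V → ℝ) (C : Finset V) (κ η : ℝ),
    (∀ u v, 0 ≤ w u v) → (∀ u v, w u v = w v u) → (∀ u ∈ C, 0 < ∑ v, w u v) →
    0 < κ → 0 < η → η ≤ 1 → GoodIn w (fun u => ∑ v, w u v) κ C →
    (((partMat w C).charpoly.roots.filter fun x => 1 - η ≤ x).card : ℝ)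
      ≤ 30 * Real.exp (8 * Real.sqrt η / κ)

/-- DEC: the decomposition theorem -/
def St_DEC : Prop :=
  ∀ (V : Type) [Fintype V] [DecidableEq V] (w : V → V → ℝ) (K η : ℝ),
    (∀ u v, 0 ≤ w u v) → (∀ u v, w u v = w v u) → 0 < K → K ≤ 1 → 0 < η → η < 1 →
    ∃ c : V → V, (∑ u, ∑ v, (if c u = c v then 0 else w u v)) ≤ K * ∑ u, ∑ v, w u v ∧
      ∀ i, (((partMat w (univ.filter fun v => c v = i)).charpoly.roots.filter
        fun x => 1 - η ≤ x).card : ℝ) ≤ 30 * (Fintype.card V : ℝ) ^ (16 * Real.sqrt η / K)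

end Pool.Agent.H647R3.UG
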