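import Pool.Agent.H647R3.UG.Defs

/-! assembly: how the statements fit together -/

namespace Pool.Agent.H647R3.UG

theorem top (hCO : St_CO) (hFK : St_CO → St_FK) (hOP : St_OP) (hHD : St_OP → St_FK → St_HD)
    (hLC : St_OP → St_LC) (hGC : St_OP → St_HD → St_LC → St_GC) (hGCF : St_GC → St_GCF)
    (hEN : St_EN) (hPA : St_PA) (hRA : St_RA) (hRB : St_RB) (hRD : St_RD) (hFL : St_FL)
    (hFB : St_FL → St_FB) (hFC : St_FL → St_FC) (hFV : St_FL → St_FB → St_FV)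
    (hFD : St_FB → St_FD) (hFT : St_FL → St_FT) (hWT : St_WT)
    (hS1 : St_GCF → St_RA → St_RB → St_RD → St_FB → St_FV → St_FD → St_WT → St_S1)
    (hS2 : St_S1 → St_FL → St_FB → St_FC → St_S2) (hS3 : St_FB → St_WT → St_S3)
    (hS4 : St_PA → St_EN → St_S2 → St_S3 → St_WT → St_FB → St_S4)
    (hMAIN : St_S4 → St_FT → St_MAIN) (hEA : St_GCF → St_EA)
    (hDEC : St_EA → St_PA → St_EN → St_DEC) : St_MAIN ∧ St_DEC := by
  have c1 := hFK hCO
  have c2 := hHD hOP c1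
  have c3 := hLC hOP
  have c4 := hGC hOP c2 c3
  have c5 := hGCF c4
  have f1 := hFB hFL
  have f2 := hFC hFL
  have f3 := hFV hFL f1
  have f4 := hFD f1
  have s1 := hS1 c5 hRA hRB hRD f1 f3 f4 hWT
  have s2 := hS2 s1 hFL f1 f2
  have s3 := hS3 f1 hWT
  have s4 := hS4 hPA hEN s2 s3 hWT f1
  exact ⟨hMAIN s4 (hFT hFL), hDEC (hEA c5) hPA hEN⟩

end Pool.Agent.H647R3.UG
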